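import Pool.Agent.H5.NM.Defs

set_option autoImplicit false

noncomputable section

open MeasureTheory Set Filter Topology

namespace Pool.Agent.H5.NM

/-! ### shears -/

def S1 : (Fin 6 → ℝ) →L[ℝ] (Fin 6 → ℝ) :=
  (ContinuousLinearMap.proj (R := ℝ) (φ := fun _ : Fin 6 => ℝ) 1).smulRight (Pi.single 2 1)

def S2 : (Fin 6 → ℝ) →L[ℝ] (Fin 6 → ℝ) :=
  (ContinuousLinearMap.proj (R := ℝ) (φ := fun _ : Fin 6 => ℝ) 4).smulRight (Pi.single 5 1)

/-- the left invariant frame: frame components ↦ tangent vector at `p` in coordinates -/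
def E (p : Fin 6 → ℝ) : (Fin 6 → ℝ) →L[ℝ] (Fin 6 → ℝ) :=
  ContinuousLinearMap.id ℝ _ + p 0 • S1 + p 3 • S2

/-- tangent vector at `p` in coordinates ↦ frame components -/
def Ei (p : Fin 6 → ℝ) : (Fin 6 → ℝ) →L[ℝ] (Fin 6 → ℝ) :=
  ContinuousLinearMap.id ℝ _ - p 0 • S1 - p 3 • S2

theorem E_apply (p c : Fin 6 → ℝ) : E p c = ![c 0, c 1, c 2 + p 0 * c 1, c 3, c 4, c 5 + p 3 * c 4] := by
  ext i
  fin_cases i <;> simp [E, S1, S2, Pi.single_apply]

theorem Ei_apply (p c : Fin 6 → ℝ) : Ei p c = ![c 0, c 1, c 2 - p 0 * c 1, c 3, c 4, c 5 - p 3 * c 4] := by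
  ext i
  fin_cases i <;> simp [Ei, S1, S2, Pi.single_apply]

theorem Ei_E (p c : Fin 6 → ℝ) : Ei p (E p c) = c := by
  rw [Ei_apply, E_apply]
  ext i
  fin_cases i <;> simp

theorem E_Ei (p c : Fin 6 → ℝ) : E p (Ei p c) = c := by
  rw [Ei_apply, E_apply]
  ext i
  fin_cases i <;> simp

theorem mul_eq (p q : Fin 6 → ℝ) : mul p q = p + E p q := by
  rw [E_apply, mul]
  ext i
  fin_cases i <;> simp <;> ring

theorem mul_zero_left (q : Fin 6 → ℝ) : mul 0 q = q := by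
  ext i
  fin_cases i <;> simp [mul]

theorem mul_zero_right (q : Fin 6 → ℝ) : mul q 0 = q := by
  ext i
  fin_cases i <;> simp [mul]

theorem mul_assoc' (p q r : Fin 6 → ℝ) : mul (mul p q) r = mul p (mul q r) := by
  ext i
  fin_cases i <;> simp [mul] <;> ring

/-- the inverse -/
def inv (p : Fin 6 → ℝ) : Fin 6 → ℝ :=
  ![-p 0, -p 1, -p 2 + p 0 * p 1, -p 3, -p 4, -p 5 + p 3 * p 4]

theorem mul_inv' (p : Fin 6 → ℝ) : mul p (inv p) = 0 := by
  ext i
  fin_cases i <;> simp [mul, inv]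

theorem inv_mul' (p : Fin 6 → ℝ) : mul (inv p) p = 0 := by
  ext i
  fin_cases i <;> simp [mul, inv]

theorem E_mul (p q c : Fin 6 → ℝ) : E (mul p q) c = E p (E q c) := by
  simp only [E_apply, mul]
  ext i
  fin_cases i <;> simp <;> ring

theorem Ei_mul (p q c : Fin 6 → ℝ) : Ei (mul p q) c = Ei q (Ei p c) := by
  simp only [Ei_apply, mul]
  ext i
  fin_cases i <;> simp <;> ring

theorem hasFDerivAt_mul (γ p : Fin 6 → ℝ) : HasFDerivAt (mul γ) (E γ) p := by
  have : mul γ = fun q => γ + E γ q := by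
    funext q
    exact mul_eq γ q
  rw [this]
  exact (E γ).hasFDerivAt.const_add γ

theorem fderiv_mul' (γ p : Fin 6 → ℝ) : fderiv ℝ (mul γ) p = E γ := (hasFDerivAt_mul γ p).fderiv

theorem contDiff_mul : ContDiff ℝ (⊤ : ℕ∞) (fun x : (Fin 6 → ℝ) × (Fin 6 → ℝ) => mul x.1 x.2) := by
  unfold mul
  rw [contDiff_pi]
  intro i
  fin_cases i <;> simp <;> fun_prop

theorem contDiff_inv : ContDiff ℝ (⊤ : ℕ∞) inv := by
  unfold inv
  rw [contDiff_pi]
  intro i
  fin_cases i <;> simp <;> fun_prop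

theorem continuous_mul' : Continuous (fun x : (Fin 6 → ℝ) × (Fin 6 → ℝ) => mul x.1 x.2) :=
  contDiff_mul.continuous

theorem continuous_inv' : Continuous inv := contDiff_inv.continuous

theorem contDiff_mul_left (γ : Fin 6 → ℝ) : ContDiff ℝ (⊤ : ℕ∞) (mul γ) :=
  contDiff_mul.comp (contDiff_const.prodMk contDiff_id)

/-! ### the lattice -/

theorem sq3 : (√3 : ℝ) * √3 = 3 := Real.mul_self_sqrt (by norm_num)

theorem sq3_pos : (0 : ℝ) < √3 := Real.sqrt_pos.2 (by norm_num)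

/-- `ℤ[√3]` -/
abbrev O := Zsqrtd 3

def σ : O →+* ℝ := Zsqrtd.lift ⟨√3, by rw [sq3]; norm_num⟩
def σ' : O →+* ℝ := Zsqrtd.lift ⟨-√3, by rw [neg_mul_neg, sq3]; norm_num⟩

theorem σ_apply (a : O) : σ a = a.re + a.im * √3 := by
  simp [σ]

theorem σ'_apply (a : O) : σ' a = a.re - a.im * √3 := by
  simp [σ']
  ring

theorem O_eq {a b : O} (h : σ a = σ b) (h' : σ' a = σ' b) : a = b := by
  rw [σ_apply, σ_apply] at h
  rw [σ'_apply, σ'_apply] at h'
  have h1 : (a.re : ℝ) = b.re := by linarith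
  have h2 : (a.im : ℝ) * √3 = b.im * √3 := by linarith
  have h3 := mul_right_cancel₀ sq3_pos.ne' h2
  ext
  · exact_mod_cast h1
  · exact_mod_cast h3

/-- the lattice as a group -/
@[ext] structure Lat where
  a : O
  b : O
  c : O

instance : Mul Lat := ⟨fun g h => ⟨g.a + h.a, g.b + h.b, g.c + h.c + g.a * h.b⟩⟩
instance : One Lat := ⟨⟨0, 0, 0⟩⟩
instance : Inv Lat := ⟨fun g => ⟨-g.a, -g.b, -g.c + g.a * g.b⟩⟩

theorem Lat.mul_def (g h : Lat) : g * h = ⟨g.a + h.a, g.b + h.b, g.c + h.c + g.a * h.b⟩ := rfl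
theorem Lat.one_def : (1 : Lat) = ⟨0, 0, 0⟩ := rfl
theorem Lat.inv_def (g : Lat) : g⁻¹ = ⟨-g.a, -g.b, -g.c + g.a * g.b⟩ := rfl

instance : Group Lat := Group.ofLeftAxioms
  (fun x y z => by simp only [Lat.mul_def]; ext1 <;> simp only <;> ring)
  (fun x => by simp only [Lat.mul_def, Lat.one_def]; ext1 <;> simp only <;> ring)
  (fun x => by simp only [Lat.mul_def, Lat.one_def, Lat.inv_def]; ext1 <;> simp only <;> ring)

def emb (g : Lat) : Fin 6 → ℝ := ![σ g.a, σ g.b, σ g.c, σ' g.a, σ' g.b, σ' g.c]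

theorem emb_mul (g h : Lat) : emb (g * h) = mul (emb g) (emb h) := by
  simp only [emb, mul, Lat.mul_def, map_add, map_mul]
  ext i
  fin_cases i <;> simp

theorem emb_one : emb 1 = 0 := by
  simp only [emb, Lat.one_def, map_zero]
  ext i
  fin_cases i <;> simp

theorem emb_inj {g h : Lat} (he : emb g = emb h) : g = h := by
  have h0 := congrFun he 0
  have h1 := congrFun he 1
  have h2 := congrFun he 2
  have h3 := congrFun he 3
  have h4 := congrFun he 4
  have h5 := congrFun he 5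
  simp [emb] at h0 h1 h2 h3 h4 h5
  ext1
  · exact O_eq h0 h3
  · exact O_eq h1 h4
  · exact O_eq h2 h5

theorem range_emb : Set.range emb = lattice := by
  ext p
  simp only [lattice, mem_ofPred_eq, mem_range]
  constructor
  · rintro ⟨g, rfl⟩
    refine ⟨![g.a.re, g.b.re, g.c.re], ![g.a.im, g.b.im, g.c.im], ?_⟩
    simp [emb, σ_apply, σ'_apply]
  · rintro ⟨a, b, rfl⟩
    refine ⟨⟨⟨a 0, b 0⟩, ⟨a 1, b 1⟩, ⟨a 2, b 2⟩⟩, ?_⟩
    simp [emb, σ_apply, σ'_apply]

theorem emb_mem (g : Lat) : emb g ∈ lattice := range_emb ▸ mem_range_self g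

instance : SMul Lat (Fin 6 → ℝ) := ⟨fun g p => mul (emb g) p⟩

theorem smul_def' (g : Lat) (p : Fin 6 → ℝ) : g • p = mul (emb g) p := rfl

instance : MulAction Lat (Fin 6 → ℝ) where
  one_smul p := by rw [smul_def', emb_one, mul_zero_left]
  mul_smul g h p := by rw [smul_def', smul_def', smul_def', emb_mul, mul_assoc']

instance : Countable Lat := by
  have : Function.Injective (fun g : Lat => (g.a.re, g.a.im, g.b.re, g.b.im, g.c.re, g.c.im)) := by
    intro g h hgh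
    simp only [Prod.mk.injEq] at hgh
    obtain ⟨h1, h2, h3, h4, h5, h6⟩ := hgh
    ext1
    · exact Zsqrtd.ext h1 h2
    · exact Zsqrtd.ext h3 h4
    · exact Zsqrtd.ext h5 h6
  exact this.countable

end Pool.Agent.H5.NM
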