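import Pool.Agent.H5.NM.Frame

set_option autoImplicit false

noncomputable section

open MeasureTheory Set Filter Topology

namespace Pool.Agent.H5.NM

theorem e2_two : e2 2 = 1 := by simp [e2]

theorem e2_of_ne {i : Fin 6} (hi : i ≠ 2) : e2 i = 0 := by simp [e2, hi]

theorem norm_e2 : ‖e2‖ ≤ 1 := by
  rw [pi_norm_le_iff_of_nonneg zero_le_one]
  intro i
  by_cases hi : i = 2
  · rw [hi, e2_two]; simp
  · rw [e2_of_ne hi]; simp

theorem E_e2 (p : R6) : E p e2 = e2 := by
  rw [E_apply]
  ext i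
  fin_cases i <;> simp [e2]

/-! ### uniform bounds -/

/-- a smooth family of functions on `M` is Lipschitz in the parameter -/
theorem lip_family {W : Type*} [NormedAddCommGroup W] [NormedSpace ℝ W] {Φ : ℝ → R6 → W}
    (hΦ : ContDiff ℝ (⊤ : ℕ∞) (fun x : ℝ × R6 => Φ x.1 x.2)) (hi : ∀ t, Inv (Φ t)) :
    ∃ C : ℝ, 0 ≤ C ∧ ∀ t, |t| ≤ 1 → ∀ p, ‖Φ t p - Φ 0 p‖ ≤ C * |t| := by
  set K : Set (ℝ × R6) := Metric.closedBall 0 2
  have hK : IsCompact K := isCompact_closedBall 0 2
  have hc : ContinuousOn (fderiv ℝ (fun x : ℝ × R6 => Φ x.1 x.2)) K :=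
    (hΦ.continuous_fderiv (by simp)).continuousOn
  obtain ⟨C, hC⟩ := hK.exists_bound_of_continuousOn hc
  refine ⟨max C 0, le_max_right _ _, fun t ht => ?_⟩
  refine forall_of_dom (fun g p h => ?_) fun p hp => ?_
  · rwa [hi, hi] at h
  · have hp2 := dom_subset hp
    rw [bigBox, mem_closedBall_zero_iff] at hp2
    have h1 : ((0 : ℝ), p) ∈ K := by
      rw [mem_closedBall_zero_iff, Prod.norm_mk]
      simpa using hp2
    have h2 : (t, p) ∈ K := by
      rw [mem_closedBall_zero_iff, Prod.norm_mk, Real.norm_eq_abs]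
      exact max_le (by linarith) hp2
    have h3 := (convex_closedBall (0 : ℝ × R6) 2).norm_image_sub_le_of_norm_fderiv_le
      (f := fun x : ℝ × R6 => Φ x.1 x.2) (C := max C 0)
      (fun x _ => (hΦ.differentiable (by simp)) x) (fun x hx => (hC x hx).trans (le_max_left _ _)) h1 h2
    refine h3.trans (le_of_eq ?_)
    rw [Prod.mk_sub_mk, sub_self, sub_zero, Prod.norm_mk, norm_zero, Real.norm_eq_abs,
      max_eq_left (abs_nonneg t)]

/-- diffeomorphisms close to `aut k` in the `C¹` topology have a derivative in the frame which is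
uniformly close to the one of `aut k` -/
theorem close_J (k : ℕ) {η : ℝ} (hη : 0 < η) : ∃ ε : ℝ, 0 < ε ∧ ∀ g, IsDiffeo k g →
    (∀ p ∈ dom, ‖g p - aut k p‖ < ε ∧ ‖fderiv ℝ g p - fderiv ℝ (aut k) p‖ < ε) →
      ∀ p, ‖J g p - A (Uk k) (Vk k)‖ < η := by
  let Ψ : R6 × (R6 →L[ℝ] R6) × R6 → (R6 →L[ℝ] R6) := fun x => (Ei x.1).comp (x.2.1.comp (E x.2.2))
  have hΨ : Continuous Ψ :=
    (contDiff_Ei.continuous.comp continuous_fst).clm_comp
      ((continuous_fst.comp continuous_snd).clm_comp
        (contDiff_E.continuous.comp (continuous_snd.comp continuous_snd)))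
  let s : Set (R6 × (R6 →L[ℝ] R6) × R6) := (fun p => (aut k p, A (Uk k) (Vk k), p)) '' bigBox
  have hs : IsCompact s := isCompact_bigBox.image
    ((contDiff_aut k).continuous.prodMk (continuous_const.prodMk continuous_id))
  have h1 := hs.uniformContinuousAt_of_continuousAt Ψ (fun a _ => hΨ.continuousAt)
    (Metric.dist_mem_uniformity hη)
  obtain ⟨ε, hε, h2⟩ := Metric.mem_uniformity_dist.1 h1
  refine ⟨ε, hε, fun g hg hclose => ?_⟩
  refine forall_of_dom (fun γ p h => ?_) fun p hp => ?_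
  · rwa [hg.J_inv] at h
  · obtain ⟨h3, h4⟩ := hclose p hp
    rw [fderiv_aut] at h4
    have h5 : dist ((aut k p, A (Uk k) (Vk k), p) : R6 × (R6 →L[ℝ] R6) × R6) (g p, fderiv ℝ g p, p) < ε := by
      rw [Prod.dist_eq, Prod.dist_eq, dist_self]
      simp only [sup_lt_iff]
      refine ⟨?_, ?_, hε⟩
      · rw [dist_comm, dist_eq_norm]; exact h3
      · rw [dist_comm, dist_eq_norm]; exact h4
    have h6 := h2 h5 (mem_image_of_mem _ (dom_subset hp))
    have h7 : Ψ (aut k p, A (Uk k) (Vk k), p) = A (Uk k) (Vk k) := by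
      have := J_aut k p
      rw [J, fderiv_aut] at this
      exact this
    have h8 : dist (Ψ (aut k p, A (Uk k) (Vk k), p)) (Ψ (g p, fderiv ℝ g p, p)) < η := h6
    rw [h7, dist_comm, dist_eq_norm] at h8
    exact h8

/-! ### Stokes' formula for the central direction -/

theorem add_e2_eq (s : ℝ) (p : R6) : p + s • e2 = mul (s • e2) p := by
  rw [mul]
  ext i
  fin_cases i <;> simp [e2, add_comm]

theorem add_e2_smul (s : ℝ) (γ : Lat) (p : R6) : γ • p + s • e2 = γ • (p + s • e2) := by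
  rw [smul_def', smul_def', mul, mul]
  ext i
  fin_cases i <;> simp [e2] <;> ring

theorem stokes {F : R6 → ℝ} (hF : ContDiff ℝ 1 F) (hi : Inv F) :
    ∫ p in dom, fderiv ℝ F p e2 = 0 := by
  have hd : ∀ p s, HasDerivAt (fun s : ℝ => F (p + s • e2)) (fderiv ℝ F (p + s • e2) e2) s := by
    intro p s
    have h1 : HasDerivAt (fun s : ℝ => p + s • e2) e2 s := by
      simpa using ((hasDerivAt_id s).smul_const e2).const_add p
    exact ((hF.differentiable (by simp)) (p + s • e2)).hasFDerivAt.comp_hasDerivAt s h1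
  have hfc : Continuous (fun p => fderiv ℝ F p e2) :=
    (hF.continuous_fderiv (by simp)).clm_apply continuous_const
  obtain ⟨C, hC⟩ := (isCompact_closedBall (0 : R6) 3).exists_bound_of_continuousOn hfc.continuousOn
  have hconst : ∀ s : ℝ, ∫ p in dom, F (p + s • e2) = ∫ p in dom, F p := by
    intro s
    have h1 : MeasurePreserving (fun p : R6 => p + s • e2) volume volume := by
      have : (fun p : R6 => p + s • e2) = mul (s • e2) := funext fun p => add_e2_eq s p
      rw [this]
      exact measurePreserving_mul _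
    exact setIntegral_comp h1 (Equiv.refl Lat) (fun γ p => add_e2_smul s γ p) hi
      hF.continuous.measurable
  have hder := (hasDerivAt_integral_of_dominated_loc_of_deriv_le (μ := volume.restrict dom)
    (F := fun (s : ℝ) p => F (p + s • e2)) (F' := fun (s : ℝ) p => fderiv ℝ F (p + s • e2) e2)
    (x₀ := (0 : ℝ)) (s := Metric.ball 0 1) (bound := fun _ => C) (Metric.ball_mem_nhds 0 one_pos)
    (Eventually.of_forall fun s => (hF.continuous.comp (by fun_prop)).aestronglyMeasurable)
    (integrableOn_dom (hF.continuous.comp (by fun_prop)))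
    ((hfc.comp (by fun_prop)).aestronglyMeasurable)
    (by
      refine (ae_restrict_iff' dom_measurable).2 (Eventually.of_forall fun p hp s hs => ?_)
      refine hC _ ?_
      have hp2 := dom_subset hp
      rw [bigBox, mem_closedBall_zero_iff] at hp2
      rw [mem_ball_zero_iff, Real.norm_eq_abs] at hs
      rw [mem_closedBall_zero_iff]
      refine (norm_add_le _ _).trans ?_
      rw [norm_smul, Real.norm_eq_abs]
      have := norm_e2
      have h0 := norm_nonneg e2
      have h1 := abs_nonneg s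
      nlinarith)
    (integrableOn_const (hs := volume_dom_lt_top.ne))
    (Eventually.of_forall fun p s _ => hd p s)).2
  simp only [hconst, zero_smul, add_zero] at hder
  exact (hder.unique (hasDerivAt_const (0 : ℝ) (∫ p in dom, F p)))

theorem average_le {h : R6 → ℝ} {C : ℝ} (hh : ∀ p, |h p| ≤ C) : |⨍ p in dom, h p| ≤ C := by
  have hpos : 0 < volume.real dom := ENNReal.toReal_pos volume_dom_pos.ne' volume_dom_lt_top.ne
  rw [setAverage_eq, smul_eq_mul, abs_mul, abs_inv, abs_of_pos hpos, inv_mul_le_iff₀ hpos]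
  have := norm_setIntegral_le_of_norm_le_const (f := h) (μ := volume) (s := dom) (C := C)
    volume_dom_lt_top (fun p _ => hh p)
  rw [Real.norm_eq_abs] at this
  rwa [mul_comm] at this

theorem average_const (c : ℝ) : ⨍ _p in dom, c = c :=
  setAverage_const volume_dom_pos.ne' volume_dom_lt_top.ne c

theorem abs_log_one_add_sub {s : ℝ} (hs : |s| ≤ 1 / 2) : |Real.log (1 + s) - s| ≤ 2 * s ^ 2 := by
  have h1 : |-s| < 1 := by rw [abs_neg]; linarith
  have h := Real.abs_log_sub_add_sum_range_le h1 1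
  simp only [Finset.range_one, Finset.sum_singleton, zero_add, pow_one, Nat.cast_zero, div_one,
    sub_neg_eq_add, abs_neg] at h
  have h2 : -s + Real.log (1 + s) = Real.log (1 + s) - s := by ring
  rw [h2] at h
  refine h.trans ?_
  rw [div_le_iff₀ (by linarith)]
  have h3 : |s| ^ (1 + 1) = s ^ 2 := by rw [show 1 + 1 = 2 from rfl, sq_abs]
  rw [h3]
  nlinarith [sq_nonneg s]

/-! ### the displacement of a map -/

/-- `g p = aut k p * disp k g p` -/
def disp (k : ℕ) (g : R6 → R6) (p : R6) : R6 := mul (inv (aut k p)) (g p)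

theorem disp_zero (k : ℕ) (g : R6 → R6) (p : R6) : disp k g p 0 = g p 0 - aut k p 0 := by
  simp [disp, mul, inv]; ring

theorem disp_one (k : ℕ) (g : R6 → R6) (p : R6) : disp k g p 1 = g p 1 - aut k p 1 := by
  simp [disp, mul, inv]; ring

theorem disp_two (k : ℕ) (g : R6 → R6) (p : R6) :
    disp k g p 2 = g p 2 - aut k p 2 - aut k p 0 * (g p 1 - aut k p 1) := by
  simp [disp, mul, inv]; ring

theorem inv_mul_eq (a b : R6) : inv (mul a b) = mul (inv b) (inv a) := by
  simp only [inv, mul]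
  ext i
  fin_cases i <;> simp <;> ring

theorem disp_inv {k : ℕ} {g : R6 → R6} (hg : IsDiffeo k g) : Inv (disp k g) := by
  intro γ p
  rw [disp, disp, hg.smul, aut_smul, smul_def', smul_def', inv_mul_eq, mul_assoc',
    ← mul_assoc' (inv (emb _)), inv_mul', mul_zero_left]

theorem disp_aut (k : ℕ) (p : R6) : disp k (aut k) p = 0 := inv_mul' _

theorem contDiff_disp {k : ℕ} {g : R6 → R6} (hg : ContDiff ℝ (⊤ : ℕ∞) g) :
    ContDiff ℝ (⊤ : ℕ∞) (disp k g) :=
  contDiff_mul.comp ((contDiff_inv.comp (contDiff_aut k)).prodMk hg)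

theorem contDiff_disp_family {k : ℕ} {G : ℝ → R6 → R6}
    (hG : ContDiff ℝ (⊤ : ℕ∞) (fun x : ℝ × R6 => G x.1 x.2)) :
    ContDiff ℝ (⊤ : ℕ∞) (fun x : ℝ × R6 => disp k (G x.1) x.2) :=
  contDiff_mul.comp ((contDiff_inv.comp ((contDiff_aut k).comp contDiff_snd)).prodMk hG)

/-- the directional derivative along `e2` -/
theorem hasDerivAt_line {g : R6 → R6} (hg : Differentiable ℝ g) (p : R6) (i : Fin 6) :
    HasDerivAt (fun s : ℝ => g (p + s • e2) i) (fderiv ℝ g p e2 i) 0 := by
  have h1 : HasDerivAt (fun s : ℝ => p + s • e2) e2 0 := by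
    simpa using ((hasDerivAt_id (0 : ℝ)).smul_const e2).const_add p
  have h2 : HasFDerivAt g (fderiv ℝ g p) (p + (0 : ℝ) • e2) := by
    rw [zero_smul, add_zero]
    exact (hg p).hasFDerivAt
  exact hasDerivAt_pi.1 (h2.comp_hasDerivAt 0 h1) i

theorem J_e2_two {k : ℕ} {g : R6 → R6} (hg : ContDiff ℝ (⊤ : ℕ∞) g) (p : R6) :
    J g p e2 2 = Uk k ^ 3 + (fderiv ℝ (disp k g) p e2 2 - disp k g p 0 * fderiv ℝ (disp k g) p e2 1) := by
  have hgd : Differentiable ℝ g := hg.differentiable (by simp)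
  have hkd : Differentiable ℝ (disp k g) := (contDiff_disp hg).differentiable (by simp)
  have had : Differentiable ℝ (aut k) := (contDiff_aut k).differentiable (by simp)
  have ha : ∀ i, fderiv ℝ (aut k) p e2 i = dg (Uk k) (Vk k) i * e2 i := by
    intro i
    rw [fderiv_aut, A_apply]
  have h1 : fderiv ℝ (disp k g) p e2 1 = fderiv ℝ g p e2 1 := by
    have e1 := hasDerivAt_line hkd p 1
    have e2' := (hasDerivAt_line hgd p 1).sub (hasDerivAt_line had p 1)
    have e3 : (fun s : ℝ => disp k g (p + s • e2) 1) =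
        (fun s : ℝ => g (p + s • e2) 1) - fun s : ℝ => aut k (p + s • e2) 1 := by
      funext s
      exact disp_one k g _
    rw [e3] at e1
    rw [e1.unique e2', ha]
    simp [e2]
  have h2 : fderiv ℝ (disp k g) p e2 2 = fderiv ℝ g p e2 2 - Uk k ^ 3 - aut k p 0 * fderiv ℝ g p e2 1 := by
    have e1 := hasDerivAt_line hkd p 2
    have e2' := ((hasDerivAt_line hgd p 2).sub (hasDerivAt_line had p 2)).sub
      ((hasDerivAt_line had p 0).mul ((hasDerivAt_line hgd p 1).sub (hasDerivAt_line had p 1)))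
    have e3 : (fun s : ℝ => disp k g (p + s • e2) 2) =
        (((fun s : ℝ => g (p + s • e2) 2) - fun s : ℝ => aut k (p + s • e2) 2) -
          (fun s : ℝ => aut k (p + s • e2) 0) *
          ((fun s : ℝ => g (p + s • e2) 1) - fun s : ℝ => aut k (p + s • e2) 1)) := by
      funext s
      exact disp_two k g _
    rw [e3] at e1
    rw [e1.unique e2', ha, ha, ha]
    simp [e2, dg]
  rw [h1, h2, J_apply, E_e2, Ei_apply, disp_zero]
  simp
  ring

theorem fderiv_inv_e2 {g : R6 → R6} (hd : Differentiable ℝ g) (hg : Inv g) :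
    Inv (fun p => fderiv ℝ g p e2) := by
  intro γ p
  have h1 : (fun q => g (mul (emb γ) q)) = g := funext fun q => hg γ q
  have h2 : fderiv ℝ (fun q => g (mul (emb γ) q)) p = (fderiv ℝ g (mul (emb γ) p)).comp (E (emb γ)) := by
    rw [fderiv_fun_comp p (hd _) (hasFDerivAt_mul _ _).differentiableAt, fderiv_mul']
  rw [h1] at h2
  show fderiv ℝ g (mul (emb γ) p) e2 = fderiv ℝ g p e2
  rw [h2, ContinuousLinearMap.comp_apply, E_e2]

/-- the exponent of a map `g` such that everything is `δ`-close to `aut k` -/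
theorem lamU_estimate {k : ℕ} (hk : 1 ≤ k) {g : R6 → R6} (hg : IsDiffeo k g) {δ : ℝ} (hδ : 0 ≤ δ)
    (hδ1 : δ ≤ 1 / 8) (hJ : ∀ p, ‖J g p - A (Uk k) (Vk k)‖ ≤ δ) (h0 : ∀ p, ‖disp k g p‖ ≤ δ)
    (h1 : ∀ p, ‖fderiv ℝ (disp k g) p e2‖ ≤ δ) :
    |lamU g - Real.log (Uk k ^ 3)| ≤ 20 * δ ^ 2 := by
  have hU := Uk_ge hk
  have hU3 : 1 ≤ Uk k ^ 3 := one_le_pow₀ (by linarith)
  have hU3' : 0 < Uk k ^ 3 := by linarith
  obtain ⟨S, hS, hST, hTS⟩ := hg.inverse
  have hJ1 : ∀ p, ‖J g p - A (Uk k) (Vk k)‖ ≤ 1 := fun p => (hJ p).trans (by linarith)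
  obtain ⟨w, hwc, hwi, hw, h26, -, -, hlam⟩ := lamU_formula hk hg hJ1
  have hclose := field_close hU (Vk_nonneg k) (Vk_le k) hTS hJ1 hw hδ hJ
  set c : R6 → ℝ := fun p => fderiv ℝ (disp k g) p e2 2 with hc
  have hdc : ContDiff ℝ (⊤ : ℕ∞) (disp k g) := contDiff_disp hg.smooth
  have key : ∀ p, |Real.log (J g p (w p) 2) - Real.log (Uk k ^ 3) - c p / Uk k ^ 3| ≤ 20 * δ ^ 2 := by
    intro p
    set r := J g p (w p) 2 - Uk k ^ 3 - c p with hr
    have hrb : |r| ≤ 2 * δ ^ 2 := by
      have e1 : r = (J g p - A (Uk k) (Vk k)) (w p - e2) 2 -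
          disp k g p 0 * fderiv ℝ (disp k g) p e2 1 := by
        rw [hr, hc, _root_.sub_apply, map_sub, map_sub, Pi.sub_apply, Pi.sub_apply, Pi.sub_apply,
          A_apply, A_apply, hw.two, e2_two, J_e2_two (k := k) hg.smooth p]
        ring
      rw [e1]
      refine (abs_sub _ _).trans ?_
      have a1 : |(J g p - A (Uk k) (Vk k)) (w p - e2) 2| ≤ δ * δ := by
        rw [← Real.norm_eq_abs]
        refine (norm_le_pi_norm _ 2).trans (((J g p - A (Uk k) (Vk k)).le_opNorm _).trans ?_)
        exact mul_le_mul (hJ p) (hclose p) (norm_nonneg _) hδ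
      have a2 : |disp k g p 0 * fderiv ℝ (disp k g) p e2 1| ≤ δ * δ := by
        rw [abs_mul]
        exact mul_le_mul ((norm_le_pi_norm _ 0).trans (h0 p)) ((norm_le_pi_norm _ 1).trans (h1 p))
          (abs_nonneg _) hδ
      linarith
    have hcb : |c p| ≤ δ := (norm_le_pi_norm _ 2).trans (h1 p)
    set s := (c p + r) / Uk k ^ 3 with hs
    have hJs : J g p (w p) 2 = Uk k ^ 3 * (1 + s) := by
      rw [hs, mul_add, mul_div_cancel₀ _ hU3'.ne', hr]
      ring
    have hsb : |s| ≤ 3 / 2 * δ := by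
      rw [hs, abs_div, abs_of_pos hU3', div_le_iff₀ hU3']
      have := abs_add_le (c p) r
      nlinarith
    have hs1 : 0 < 1 + s := by
      have := (abs_le.1 hsb).1
      linarith
    rw [hJs, Real.log_mul hU3'.ne' hs1.ne']
    have h5 := abs_log_one_add_sub (s := s) (by linarith)
    have h6 : s - c p / Uk k ^ 3 = r / Uk k ^ 3 := by
      rw [hs]; ring
    have h7 : |r / Uk k ^ 3| ≤ 2 * δ ^ 2 := by
      rw [abs_div, abs_of_pos hU3', div_le_iff₀ hU3']
      nlinarith [sq_nonneg δ]
    have h8 : Real.log (Uk k ^ 3) + Real.log (1 + s) - Real.log (Uk k ^ 3) - c p / Uk k ^ 3 =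
        (Real.log (1 + s) - s) + r / Uk k ^ 3 := by
      rw [← h6]; ring
    rw [h8]
    refine (abs_add_le _ _).trans ?_
    have h9 : s ^ 2 ≤ (3 / 2 * δ) ^ 2 := sq_le_sq' (abs_le.1 hsb).1 (abs_le.1 hsb).2
    nlinarith [sq_nonneg δ]
  have hst : ∫ p in dom, c p = 0 := by
    have hF : ContDiff ℝ 1 (fun p => disp k g p 2) :=
      ((contDiff_pi.1 hdc) 2).of_le (by exact_mod_cast le_top)
    have hFi : Inv (fun p => disp k g p 2) := fun γ p => by
      show disp k g (γ • p) 2 = disp k g p 2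
      rw [disp_inv hg]
    have h5 := stokes hF hFi
    have h6 : ∀ p, fderiv ℝ (fun p => disp k g p 2) p e2 = c p := by
      intro p
      have h7 := hasFDerivAt_pi'.1 (((hdc.differentiable (by simp)) p).hasFDerivAt) 2
      rw [h7.fderiv]
      rfl
    simpa only [h6] using h5
  have hcc : Continuous c := by
    have : Continuous (fun p => fderiv ℝ (disp k g) p e2) :=
      (hdc.continuous_fderiv (by simp)).clm_apply continuous_const
    exact (continuous_apply 2).comp this
  have hlc : Continuous fun p => Real.log (J g p (w p) 2) :=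
    ((continuous_apply 2).comp ((continuous_J hg.smooth).clm_apply hwc)).log
      fun p => by
        have := h26 p
        show J g p (w p) 2 ≠ 0
        linarith
  have hfin : lamU g - Real.log (Uk k ^ 3) =
      ⨍ p in dom, (Real.log (J g p (w p) 2) - Real.log (Uk k ^ 3) - c p / Uk k ^ 3) := by
    have hpos : 0 < volume.real dom := ENNReal.toReal_pos volume_dom_pos.ne' volume_dom_lt_top.ne
    have i1 : IntegrableOn (fun _ : R6 => Real.log (Uk k ^ 3)) dom := integrableOn_dom continuous_const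
    have i2 : IntegrableOn (fun p => c p / Uk k ^ 3) dom := integrableOn_dom (hcc.div_const _)
    rw [hlam, setAverage_eq, setAverage_eq,
      integral_sub (f := fun p => Real.log (J g p (w p) 2) - Real.log (Uk k ^ 3))
        (g := fun p => c p / Uk k ^ 3) ((integrableOn_dom hlc).sub i1) i2,
      integral_sub (f := fun p => Real.log (J g p (w p) 2)) (g := fun _ => Real.log (Uk k ^ 3))
        (integrableOn_dom hlc) i1, integral_div, hst, setIntegral_const, smul_eq_mul, smul_eq_mul,
      smul_eq_mul]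
    field_simp
    ring
  rw [hfin]
  exact average_le key

/-- `aut k` is critical -/
theorem critical {k : ℕ} (hk : 1 ≤ k) {F : ℝ → R6 → R6}
    (hF : ContDiff ℝ (⊤ : ℕ∞) (fun x : ℝ × R6 => F x.1 x.2)) (hD : ∀ t, IsDiffeo k (F t))
    (hF0 : F 0 = aut k) :
    HasDerivAt (fun t => lamU (F t)) 0 0 ∧ lamU (aut k) = Real.log (Uk k ^ 3) := by
  obtain ⟨C1, hC1, h1⟩ := lip_family (contDiff_J_family hF) (fun t => (hD t).J_inv)
  obtain ⟨C2, hC2, h2⟩ := lip_family (contDiff_disp_family (k := k) hF) (fun t => disp_inv (hD t))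
  have hds : ContDiff ℝ (⊤ : ℕ∞) (fun x : ℝ × R6 => fderiv ℝ (disp k (F x.1)) x.2 e2) := by
    have h3 : ContDiff ℝ (⊤ : ℕ∞) (Function.uncurry fun (x : ℝ × R6) (y : R6) => disp k (F x.1) y) :=
      (contDiff_disp_family (k := k) hF).comp ((contDiff_fst.comp contDiff_fst).prodMk contDiff_snd)
    exact (h3.fderiv (n := ((⊤ : ℕ∞) : WithTop ℕ∞)) contDiff_snd (by simp)).clm_apply contDiff_const
  obtain ⟨C3, hC3, h3⟩ := lip_family hds (fun t => fderiv_inv_e2
    ((contDiff_disp (hD t).smooth).differentiable (by simp)) (disp_inv (hD t)))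
  set C := C1 + C2 + C3 with hC
  have hC0 : 0 ≤ C := by positivity
  have est : ∀ t : ℝ, |t| ≤ 1 → C * |t| ≤ 1 / 8 → |lamU (F t) - Real.log (Uk k ^ 3)| ≤ 20 * (C * |t|) ^ 2 := by
    intro t ht hCt
    have ha := abs_nonneg t
    refine lamU_estimate hk (hD t) (by positivity) hCt (fun p => ?_) (fun p => ?_) (fun p => ?_)
    · have := h1 t ht p
      rw [hF0, J_aut] at this
      refine this.trans ?_
      rw [hC]
      nlinarith
    · have := h2 t ht p
      rw [hF0, disp_aut, sub_zero] at this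
      refine this.trans ?_
      rw [hC]
      nlinarith
    · have := h3 t ht p
      have h5 : disp k (F 0) = fun _ => 0 := by
        funext q
        rw [hF0]
        exact disp_aut k q
      rw [h5] at this
      simp only [fderiv_fun_const, Pi.zero_apply, _root_.zero_apply, sub_zero] at this
      refine this.trans ?_
      rw [hC]
      nlinarith
  have h0 : lamU (aut k) = Real.log (Uk k ^ 3) := by
    have := est 0 (by simp) (by simp)
    rw [abs_zero, mul_zero, hF0] at this
    have h5 : |lamU (aut k) - Real.log (Uk k ^ 3)| ≤ 0 := by simpa using this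
    exact sub_eq_zero.1 (abs_nonpos_iff.1 h5)
  refine ⟨?_, h0⟩
  rw [hasDerivAt_iff_isLittleO]
  have hbig : (fun t : ℝ => lamU (F t) - lamU (F 0) - (t - 0) • (0 : ℝ)) =O[𝓝 0] fun t => t ^ 2 := by
    refine Asymptotics.IsBigO.of_bound (20 * C ^ 2) ?_
    have hn : Metric.ball (0 : ℝ) (min 1 (1 / (8 * (C + 1)))) ∈ 𝓝 (0 : ℝ) :=
      Metric.ball_mem_nhds 0 (by positivity)
    filter_upwards [hn] with t ht
    rw [mem_ball_zero_iff, Real.norm_eq_abs, lt_min_iff] at ht
    have hCt : C * |t| ≤ 1 / 8 := by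
      have h5 := ht.2
      rw [lt_div_iff₀ (by positivity)] at h5
      nlinarith [abs_nonneg t]
    have := est t ht.1.le hCt
    rw [hF0, h0, smul_zero, sub_zero, Real.norm_eq_abs, Real.norm_eq_abs]
    refine this.trans (le_of_eq ?_)
    rw [mul_pow, sq_abs, abs_of_nonneg (sq_nonneg t)]
    ring
  refine hbig.trans_isLittleO ?_
  simp only [sub_zero]
  exact Asymptotics.isLittleO_pow_id one_lt_two

end Pool.Agent.H5.NM
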