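import Mathlib

/-! # The nilmanifold `M = Γ \ N`, its maps, and the unstable exponent -/

set_option autoImplicit false

noncomputable section

open MeasureTheory Set Filter Topology

namespace Pool.Agent.H5.NM

/-- The group law of `N = Heis(ℝ) × Heis(ℝ)`, in the coordinates `(x, y, z, x', y', z')` of `ℝ⁶`:
`(x, y, z) (a, b, c) = (x + a, y + b, z + c + x b)` in both factors. -/
def mul (p q : Fin 6 → ℝ) : Fin 6 → ℝ :=
  ![p 0 + q 0, p 1 + q 1, p 2 + q 2 + p 0 * q 1, p 3 + q 3, p 4 + q 4, p 5 + q 5 + p 3 * q 4]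

/-- The lattice `Γ`: the image of `Heis(ℤ[√3])` in `N` by the two embeddings `√3 ↦ √3` and
`√3 ↦ -√3` of `ℤ[√3]` in `ℝ`. It acts on `N` by multiplication from the left. -/
def lattice : Set (Fin 6 → ℝ) :=
  {γ | ∃ a b : Fin 3 → ℤ, γ = ![a 0 + b 0 * √3, a 1 + b 1 * √3, a 2 + b 2 * √3,
    a 0 - b 0 * √3, a 1 - b 1 * √3, a 2 - b 2 * √3]}

/-- A fundamental domain of `Γ` (it contains exactly one point of each orbit `Γ p`). -/
def dom : Set (Fin 6 → ℝ) :=
  {p | ∀ i : Fin 3, (p (Fin.castAdd 3 i) + p (Fin.natAdd 3 i)) / 2 ∈ Ico (-(1 / 2) : ℝ) (1 / 2) ∧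
    (p (Fin.castAdd 3 i) - p (Fin.natAdd 3 i)) / (2 * √3) ∈ Ico (-(1 / 2) : ℝ) (1 / 2)}

/-- The multipliers of the automorphism `aut k`. -/
def mult (k : ℕ) : Fin 6 → ℝ :=
  ![(2 + √3) ^ (2 * k), (2 + √3) ^ k, (2 + √3) ^ (3 * k),
    (2 - √3) ^ (2 * k), (2 - √3) ^ k, (2 - √3) ^ (3 * k)]

/-- The automorphism of `N`, `(x, y, z) ↦ (u² x, u y, u³ z)`, `(x', y', z') ↦ (v² x', v y', v³ z')`
with `u = (2 + √3) ^ k`, `v = (2 - √3) ^ k = 1 / u`. It maps `Γ` onto `Γ`. -/
def aut (k : ℕ) (p : Fin 6 → ℝ) : Fin 6 → ℝ := fun i => mult k i * p i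

/-- The components of the tangent vector `v` of `N` at `p` in the left invariant frame `X = ∂_x`,
`Y = ∂_y + x ∂_z`, `Z = ∂_z`, `X' = ∂_x'`, `Y' = ∂_y' + x' ∂_z'`, `Z' = ∂_z'`. -/
def comp (p v : Fin 6 → ℝ) : Fin 6 → ℝ :=
  ![v 0, v 1, v 2 - p 0 * v 1, v 3, v 4, v 5 - p 3 * v 4]

/-- The norm of the tangent vector `v` at `p` for the left invariant Riemannian metric with this
orthonormal frame. -/
def rnorm (p v : Fin 6 → ℝ) : ℝ := √(∑ i, comp p v i ^ 2)

/-- `g : N → N` is a lift of a volume preserving diffeomorphism of class `C^∞` of `M = Γ \ N`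
which is homotopic to the diffeomorphism given by `aut k`. -/
structure IsDiffeo (k : ℕ) (g : (Fin 6 → ℝ) → (Fin 6 → ℝ)) : Prop where
  /-- `g` is of class `C^∞` -/
  smooth : ContDiff ℝ (⊤ : ℕ∞) g
  /-- `g` has an inverse of class `C^∞` -/
  inverse : ∃ h : (Fin 6 → ℝ) → (Fin 6 → ℝ), ContDiff ℝ (⊤ : ℕ∞) h ∧ (∀ p, h (g p) = p) ∧
    ∀ p, g (h p) = p
  /-- `g` descends to `M`, where it acts on the fundamental group `Γ` as `aut k` -/
  equivariant : ∀ γ ∈ lattice, ∀ p, g (mul γ p) = mul (aut k γ) (g p)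
  /-- `g` preserves the Lebesgue measure, which is the Haar measure of `N` -/
  volume : MeasurePreserving g volume volume

/-- The continuous vector field `V` on `M` (here lifted to `N`) spans the continuation `E^u_g` of
the direction `Z`: its component along `Z` is `1`, the other components are at most `1` in absolute
value, and the derivative of `g` maps `V` to positive multiples of `V`. -/
structure IsUnstable (g V : (Fin 6 → ℝ) → (Fin 6 → ℝ)) : Prop where
  /-- `V` is continuous -/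
  continuous : Continuous V
  /-- `V` is invariant under `Γ` -/
  invariant : ∀ γ ∈ lattice, ∀ p, V (mul γ p) = fderiv ℝ (mul γ) p (V p)
  /-- the component along `Z` is `1` -/
  normalised : ∀ p, comp p (V p) 2 = 1
  /-- the line spanned by `V` is in a cone around `Z` -/
  cone : ∀ p i, |comp p (V p) i| ≤ 1
  /-- the line field is invariant under `g` -/
  equation : ∀ p, ∃ μ : ℝ, 0 < μ ∧ fderiv ℝ g p (V p) = μ • V (g p)

open Classical in
/-- The unstable exponent `λ_u(g) = ∫_M log ‖Dg|E^u_g‖ dm`, `m` the normalised volume of `M` (it is `0`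
by definition if there is no field `V` as above). -/
def lamU (g : (Fin 6 → ℝ) → (Fin 6 → ℝ)) : ℝ :=
  if h : ∃ V, IsUnstable g V then
    ⨍ p in dom, Real.log (rnorm (g p) (fderiv ℝ g p (h.choose p)) / rnorm p (h.choose p))
  else 0

/-- `dom` is bounded and contains exactly one point of each orbit of `Γ`, so that `M = Γ \ N` is
compact. -/
def DomBounded : Prop :=
  Bornology.IsBounded dom ∧ ∀ p, ∃! γ, γ ∈ lattice ∧ mul γ p ∈ dom

/-- `aut k` is a volume preserving diffeomorphism of `M` which is partially hyperbolic with the left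
invariant splitting `E^u = ⟨Z⟩`, `E^c = ⟨X, Y⟩`, `E^s = ⟨X', Y', Z'⟩`: its derivative is diagonal in the
left invariant frame, with the entries `mult k`; `E^u` is expanded and dominates `E^c`, `E^s` is
contracted and dominated by `E^c` (which is expanded, too). -/
structure IsPartiallyHyperbolic (k : ℕ) : Prop where
  /-- `aut k` is a volume preserving diffeomorphism of `M` -/
  diffeo : IsDiffeo k (aut k)
  /-- the derivative is diagonal in the left invariant frame -/
  diagonal : ∀ p v i, comp (aut k p) (fderiv ℝ (aut k) p v) i = mult k i * comp p v i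
  /-- `Z` is expanded more than `X` -/
  unstable : mult k 0 < mult k 2
  /-- `X` is expanded more than `Y`, and `Y` is expanded -/
  center : mult k 1 < mult k 0 ∧ 1 < mult k 1
  /-- `X'`, `Y'`, `Z'` are contracted -/
  stable : ∀ i, i = 3 ∨ i = 4 ∨ i = 5 → 0 < mult k i ∧ mult k i < 1

/-- Each `g` which is `C¹`-close to `aut k` has exactly one field `V` as in `IsUnstable`, and `V` is
uniformly close to `Z`. -/
def HasContinuation (k : ℕ) : Prop :=
  ∀ δ > 0, ∃ ε > 0, ∀ g, IsDiffeo k g →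
    (∀ p ∈ dom, ‖g p - aut k p‖ < ε ∧ ‖fderiv ℝ g p - fderiv ℝ (aut k) p‖ < ε) →
      ∃ V, IsUnstable g V ∧ (∀ V', IsUnstable g V' → V' = V) ∧
        ∀ p i, |comp p (V p) i - if i = 2 then 1 else 0| < δ

/-- A smooth one-parameter family of volume preserving diffeomorphisms of `M` through `aut k`. -/
structure IsFamily (k : ℕ) (F : ℝ → (Fin 6 → ℝ) → (Fin 6 → ℝ)) : Prop where
  /-- the family is smooth -/
  smooth : ContDiff ℝ (⊤ : ℕ∞) (fun x : ℝ × (Fin 6 → ℝ) => F x.1 x.2)
  /-- its members are volume preserving diffeomorphisms of `M` -/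
  diffeo : ∀ t, IsDiffeo k (F t)
  /-- it starts at `aut k` -/
  start : F 0 = aut k

/-- `aut k` is critical for the unstable bundle and volume. -/
def IsCritical (k : ℕ) : Prop :=
  ∀ F, IsFamily k F → HasDerivAt (fun t => lamU (F t)) 0 0

/-- `G t` tends to `aut k` as `t → 0` in the `C^r` topology, for each `r`. -/
def TendsToAut (k : ℕ) (G : ℝ → (Fin 6 → ℝ) → (Fin 6 → ℝ)) : Prop :=
  ∀ r : ℕ, ∀ ε > 0, ∀ᶠ t in 𝓝 (0 : ℝ), ∀ p ∈ dom, ∀ j ≤ r,
    ‖iteratedFDeriv ℝ j (G t) p - iteratedFDeriv ℝ j (aut k) p‖ < ε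

end Pool.Agent.H5.NM
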