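import Pool.Agent.H5.NM.Basic

set_option autoImplicit false

noncomputable section

open MeasureTheory Set Filter Topology

namespace Pool.Agent.H5.NM

/-! ### determinants and volume -/

theorem transvection_det (L : (Fin 6 → ℝ) →L[ℝ] ℝ) (v : Fin 6 → ℝ) (hv : L v = 0) :
    (ContinuousLinearMap.id ℝ (Fin 6 → ℝ) + L.smulRight v).det = 1 := by
  have h : ((ContinuousLinearMap.id ℝ (Fin 6 → ℝ) + L.smulRight v : (Fin 6 → ℝ) →L[ℝ] (Fin 6 → ℝ)) :
      (Fin 6 → ℝ) →ₗ[ℝ] (Fin 6 → ℝ)) = LinearMap.transvection (L : (Fin 6 → ℝ) →ₗ[ℝ] ℝ) v := by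
    ext x i
    simp [LinearMap.transvection]
  rw [ContinuousLinearMap.det, h, LinearMap.transvection.det]
  simp [hv]

theorem det_comp' (A B : (Fin 6 → ℝ) →L[ℝ] (Fin 6 → ℝ)) : (A.comp B).det = A.det * B.det := by
  have : ((A.comp B : (Fin 6 → ℝ) →L[ℝ] (Fin 6 → ℝ)) : (Fin 6 → ℝ) →ₗ[ℝ] (Fin 6 → ℝ)) =
      (A : (Fin 6 → ℝ) →ₗ[ℝ] (Fin 6 → ℝ)) ∘ₗ (B : (Fin 6 → ℝ) →ₗ[ℝ] (Fin 6 → ℝ)) := rfl
  rw [ContinuousLinearMap.det, ContinuousLinearMap.det, ContinuousLinearMap.det, this,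
    LinearMap.det_comp]

theorem det_E (p : Fin 6 → ℝ) : (E p).det = 1 := by
  have h : E p = (ContinuousLinearMap.id ℝ (Fin 6 → ℝ) +
      (ContinuousLinearMap.proj (R := ℝ) (φ := fun _ : Fin 6 => ℝ) 1).smulRight (Pi.single 2 (p 0))).comp
      (ContinuousLinearMap.id ℝ (Fin 6 → ℝ) +
      (ContinuousLinearMap.proj (R := ℝ) (φ := fun _ : Fin 6 => ℝ) 4).smulRight (Pi.single 5 (p 3))) := by
    ext c i
    fin_cases i <;> simp [E, S1, S2, mul_comm]
  rw [h, det_comp', transvection_det _ _ (by simp), transvection_det _ _ (by simp), one_mul]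

theorem measurePreserving_of_det {g : (Fin 6 → ℝ) → (Fin 6 → ℝ)} (hb : Function.Bijective g)
    (hd : ∀ p, ∃ D : (Fin 6 → ℝ) →L[ℝ] (Fin 6 → ℝ), HasFDerivAt g D p ∧ |D.det| = 1) :
    MeasurePreserving g volume volume := by
  choose D hD using hd
  have hc : Continuous g := continuous_iff_continuousAt.2 fun p => (hD p).1.continuousAt
  refine ⟨hc.measurable, ?_⟩
  ext s hs
  rw [Measure.map_apply hc.measurable hs]
  have hs' : MeasurableSet (g ⁻¹' s) := hc.measurable hs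
  have h := lintegral_abs_det_fderiv_eq_addHaar_image volume hs'
    (fun x _ => (hD x).1.hasFDerivWithinAt) hb.1.injOn
  rw [image_preimage_eq _ hb.2] at h
  rw [← h]
  simp [(hD _).2]

theorem mul_left_bijective (γ : Fin 6 → ℝ) : Function.Bijective (mul γ) := by
  refine ⟨fun p q h => ?_, fun q => ⟨mul (inv γ) q, ?_⟩⟩
  · have := congrArg (mul (inv γ)) h
    rwa [← mul_assoc', ← mul_assoc', inv_mul', mul_zero_left, mul_zero_left] at this
  · rw [← mul_assoc', mul_inv', mul_zero_left]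

theorem measurePreserving_mul (γ : Fin 6 → ℝ) : MeasurePreserving (mul γ) volume volume :=
  measurePreserving_of_det (mul_left_bijective γ) fun p =>
    ⟨E γ, hasFDerivAt_mul γ p, by rw [det_E]; simp⟩

instance : ContinuousConstSMul Lat (Fin 6 → ℝ) :=
  ⟨fun g => (contDiff_mul_left (emb g)).continuous⟩

instance : SMulInvariantMeasure Lat (Fin 6 → ℝ) volume :=
  ⟨fun g _ hs => (measurePreserving_mul (emb g)).measure_preimage hs.nullMeasurableSet⟩

/-! ### the fundamental domain -/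

theorem red (s t : ℝ) : ∃! a : O, (σ a + s + (σ' a + t)) / 2 ∈ Ico (-(1 / 2) : ℝ) (1 / 2) ∧
    (σ a + s - (σ' a + t)) / (2 * √3) ∈ Ico (-(1 / 2) : ℝ) (1 / 2) := by
  have h3 := sq3_pos
  have key : ∀ a : O, (σ a + s + (σ' a + t)) / 2 = a.re + (s + t) / 2 ∧
      (σ a + s - (σ' a + t)) / (2 * √3) = a.im + (s - t) / (2 * √3) := by
    intro a
    rw [σ_apply, σ'_apply]
    constructor
    · ring
    · field_simp
      ring
  have fl : ∀ (r : ℝ) (n : ℤ), (n : ℝ) + r ∈ Ico (-(1 / 2) : ℝ) (1 / 2) ↔ n = -⌊r + 1 / 2⌋ := by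
    intro r n
    have : n = -⌊r + 1 / 2⌋ ↔ ⌊r + 1 / 2⌋ = -n := by omega
    rw [this, Int.floor_eq_iff, mem_Ico]
    push_cast
    constructor
    · rintro ⟨h1, h2⟩
      constructor <;> linarith
    · rintro ⟨h1, h2⟩
      constructor <;> linarith
  refine ⟨⟨-⌊(s + t) / 2 + 1 / 2⌋, -⌊(s - t) / (2 * √3) + 1 / 2⌋⟩, ?_, ?_⟩
  · beta_reduce
    rw [(key _).1, (key _).2]
    exact ⟨(fl _ _).2 rfl, (fl _ _).2 rfl⟩
  · rintro a ⟨h1, h2⟩
    rw [(key _).1, fl] at h1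
    rw [(key _).2, fl] at h2
    exact Zsqrtd.ext h1 h2

theorem mem_dom (p : Fin 6 → ℝ) : p ∈ dom ↔
    (((p 0 + p 3) / 2 ∈ Ico (-(1 / 2) : ℝ) (1 / 2) ∧ (p 0 - p 3) / (2 * √3) ∈ Ico (-(1 / 2) : ℝ) (1 / 2)) ∧
    ((p 1 + p 4) / 2 ∈ Ico (-(1 / 2) : ℝ) (1 / 2) ∧ (p 1 - p 4) / (2 * √3) ∈ Ico (-(1 / 2) : ℝ) (1 / 2)) ∧
    ((p 2 + p 5) / 2 ∈ Ico (-(1 / 2) : ℝ) (1 / 2) ∧ (p 2 - p 5) / (2 * √3) ∈ Ico (-(1 / 2) : ℝ) (1 / 2))) := by
  unfold dom
  rw [mem_ofPred_eq, Fin.forall_fin_succ, Fin.forall_fin_succ, Fin.forall_fin_succ]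
  simp only [Fin.forall_fin_zero, and_true]
  rfl

theorem exists_unique_dom (p : Fin 6 → ℝ) : ∃! g : Lat, g • p ∈ dom := by
  obtain ⟨a, ha, ha'⟩ := red (p 0) (p 3)
  obtain ⟨b, hb, hb'⟩ := red (p 1) (p 4)
  obtain ⟨c, hc, hc'⟩ := red (p 2 + σ a * p 1) (p 5 + σ' a * p 4)
  have key : ∀ g : Lat, g • p = ![σ g.a + p 0, σ g.b + p 1, σ g.c + p 2 + σ g.a * p 1,
      σ' g.a + p 3, σ' g.b + p 4, σ' g.c + p 5 + σ' g.a * p 4] := by
    intro g
    rw [smul_def', mul, emb]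
    simp
  refine ⟨⟨a, b, c⟩, ?_, ?_⟩
  · show (⟨a, b, c⟩ : Lat) • p ∈ dom
    rw [mem_dom, key]
    refine ⟨ha, hb, ?_⟩
    simpa [add_assoc] using hc
  · rintro ⟨a1, b1, c1⟩ h
    change (⟨a1, b1, c1⟩ : Lat) • p ∈ dom at h
    rw [mem_dom, key] at h
    obtain ⟨h1, h2, h3⟩ := h
    have e1 : a1 = a := ha' _ h1
    have e2 : b1 = b := hb' _ h2
    subst e1
    have e3 : c1 = c := hc' _ (by simpa [add_assoc] using h3)
    rw [e2, e3]

theorem dom_measurable : MeasurableSet dom := by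
  have : dom = {p | ((p 0 + p 3) / 2 ∈ Ico (-(1 / 2) : ℝ) (1 / 2) ∧ (p 0 - p 3) / (2 * √3) ∈ Ico (-(1 / 2) : ℝ) (1 / 2)) ∧
    ((p 1 + p 4) / 2 ∈ Ico (-(1 / 2) : ℝ) (1 / 2) ∧ (p 1 - p 4) / (2 * √3) ∈ Ico (-(1 / 2) : ℝ) (1 / 2)) ∧
    ((p 2 + p 5) / 2 ∈ Ico (-(1 / 2) : ℝ) (1 / 2) ∧ (p 2 - p 5) / (2 * √3) ∈ Ico (-(1 / 2) : ℝ) (1 / 2))} := by
    ext p
    exact mem_dom p
  rw [this]
  have m : ∀ (i j : Fin 6), MeasurableSet {p : Fin 6 → ℝ | (p i + p j) / 2 ∈ Ico (-(1 / 2) : ℝ) (1 / 2)} := by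
    intro i j
    exact measurableSet_Ico.preimage (by fun_prop)
  have m' : ∀ (i j : Fin 6), MeasurableSet {p : Fin 6 → ℝ | (p i - p j) / (2 * √3) ∈ Ico (-(1 / 2) : ℝ) (1 / 2)} := by
    intro i j
    exact measurableSet_Ico.preimage (by fun_prop)
  exact ((m 0 3).inter (m' 0 3)).inter (((m 1 4).inter (m' 1 4)).inter ((m 2 5).inter (m' 2 5)))

theorem isFundamentalDomain_dom : IsFundamentalDomain Lat dom (volume : Measure (Fin 6 → ℝ)) :=
  IsFundamentalDomain.mk' dom_measurable.nullMeasurableSet exists_unique_dom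

/-- the open box of radius `1/4` -/
def box : Set (Fin 6 → ℝ) := {p | ∀ i, |p i| < 1 / 4}

theorem pair_aux {s t : ℝ} (hs : |s| < 1 / 4) (ht : |t| < 1 / 4) :
    (s + t) / 2 ∈ Ico (-(1 / 2) : ℝ) (1 / 2) ∧ (s - t) / (2 * √3) ∈ Ico (-(1 / 2) : ℝ) (1 / 2) := by
  rw [abs_lt] at hs ht
  have h3 : (1 : ℝ) ≤ √3 := Real.one_le_sqrt.2 (by norm_num)
  refine ⟨⟨by linarith, by linarith⟩, ?_, ?_⟩
  · rw [le_div_iff₀ (by positivity)]
    linarith
  · rw [div_lt_iff₀ (by positivity)]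
    linarith

theorem box_subset : box ⊆ dom := by
  intro p hp
  rw [mem_dom]
  exact ⟨pair_aux (hp 0) (hp 3), pair_aux (hp 1) (hp 4), pair_aux (hp 2) (hp 5)⟩

theorem box_open : IsOpen box := by
  have : box = ⋂ i : Fin 6, {p | |p i| < 1 / 4} := by
    ext p
    simp [box]
  rw [this]
  exact isOpen_iInter_of_finite fun i => isOpen_lt (by fun_prop) continuous_const

theorem pair_bound {s t : ℝ} (h : (s + t) / 2 ∈ Ico (-(1 / 2) : ℝ) (1 / 2))
    (h' : (s - t) / (2 * √3) ∈ Ico (-(1 / 2) : ℝ) (1 / 2)) : |s| ≤ 2 ∧ |t| ≤ 2 := by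
  have h3 : √3 ≤ 2 := by
    rw [Real.sqrt_le_left (by norm_num)]
    norm_num
  have h30 := sq3_pos
  obtain ⟨h1, h2⟩ := h
  obtain ⟨h4, h5⟩ := h'
  rw [le_div_iff₀ (by positivity)] at h4
  rw [div_lt_iff₀ (by positivity)] at h5
  constructor <;> rw [abs_le] <;> constructor <;> nlinarith

/-- the compact box of radius 2 -/
def bigBox : Set (Fin 6 → ℝ) := Metric.closedBall 0 2

theorem dom_subset : dom ⊆ bigBox := by
  intro p hp
  rw [mem_dom] at hp
  obtain ⟨⟨h1, h2⟩, ⟨h3, h4⟩, ⟨h5, h6⟩⟩ := hp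
  rw [bigBox, mem_closedBall_zero_iff, pi_norm_le_iff_of_nonneg (by norm_num)]
  intro i
  rw [Real.norm_eq_abs]
  fin_cases i
  · exact (pair_bound h1 h2).1
  · exact (pair_bound h3 h4).1
  · exact (pair_bound h5 h6).1
  · exact (pair_bound h1 h2).2
  · exact (pair_bound h3 h4).2
  · exact (pair_bound h5 h6).2

theorem isCompact_bigBox : IsCompact bigBox := isCompact_closedBall 0 2

theorem volume_dom_lt_top : volume dom < ⊤ :=
  (measure_mono dom_subset).trans_lt isCompact_bigBox.measure_lt_top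

theorem volume_dom_pos : 0 < volume dom := by
  refine lt_of_lt_of_le ?_ (measure_mono box_subset)
  exact box_open.measure_pos volume ⟨0, fun i => by simp⟩

/-- a `Γ`-invariant set containing the fundamental domain is everything -/
theorem forall_of_dom {P : (Fin 6 → ℝ) → Prop} (hP : ∀ (g : Lat) p, P (g • p) → P p)
    (h : ∀ p ∈ dom, P p) (p : Fin 6 → ℝ) : P p := by
  obtain ⟨g, hg, -⟩ := exists_unique_dom p
  exact hP g p (h _ hg)

/-! ### invariant functions and equivariant measure preserving maps -/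

/-- `F` descends to a function on `M = Γ \ N` -/
def Inv {α : Type*} (F : (Fin 6 → ℝ) → α) : Prop := ∀ (g : Lat) p, F (g • p) = F p

/-- integrals over `M` are invariant under measure preserving maps of `M`, with an arbitrary
automorphism of the lattice -/
theorem setIntegral_comp {T : (Fin 6 → ℝ) → (Fin 6 → ℝ)} (hT : MeasurePreserving T volume volume)
    (φ : Lat ≃ Lat) (hφ : ∀ g p, T (g • p) = φ g • T p)
    {F : (Fin 6 → ℝ) → ℝ} (hF : Inv F) (hFm : Measurable F) :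
    ∫ p in dom, F (T p) = ∫ p in dom, F p := by
  have hD : IsFundamentalDomain Lat (T ⁻¹' dom) (volume : Measure (Fin 6 → ℝ)) := by
    refine IsFundamentalDomain.mk' (hT.measurable dom_measurable).nullMeasurableSet fun p => ?_
    obtain ⟨g, hg, hg'⟩ := exists_unique_dom (T p)
    refine ⟨φ.symm g, ?_, ?_⟩
    · show T (φ.symm g • p) ∈ dom
      rw [hφ, Equiv.apply_symm_apply]
      exact hg
    · intro g' hg1
      change T (g' • p) ∈ dom at hg1
      rw [hφ] at hg1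
      rw [← hg' _ hg1, Equiv.symm_apply_apply]
  have hFT : ∀ (g : Lat) p, F (T (g • p)) = F (T p) := fun g p => by rw [hφ, hF]
  rw [isFundamentalDomain_dom.setIntegral_eq hD hFT]
  have h2 : ∫ p in dom, F p = ∫ p in dom, F p ∂(Measure.map T volume) := by rw [hT.map_eq]
  rw [h2, setIntegral_map dom_measurable (by
    rw [hT.map_eq]; exact hFm.aestronglyMeasurable) hT.measurable.aemeasurable]

end Pool.Agent.H5.NM
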