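import Pool.Agent.H5.NM.Pert

set_option autoImplicit false

noncomputable section

open MeasureTheory Set Filter Topology

namespace Pool.Agent.H5.NM

/-! ### the family of perturbations of `aut k` -/

/-- the perturbed maps -/
def gk (k : ℕ) (t : ℝ) (p : R6) : R6 := hh t (aut k p)

theorem contDiff_gk_a (k : ℕ) : ContDiff ℝ (⊤ : ℕ∞) (fun x : ℝ × R6 => (x.1, aut k x.2)) :=
  contDiff_fst.prodMk ((contDiff_aut k).comp contDiff_snd)

theorem contDiff_gk (k : ℕ) : ContDiff ℝ (⊤ : ℕ∞) (fun x : ℝ × R6 => gk k x.1 x.2) := by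
  have h : ContDiff ℝ (⊤ : ℕ∞) ((fun x : ℝ × R6 => hh x.1 x.2) ∘ (fun x : ℝ × R6 => (x.1, aut k x.2))) :=
    ContDiff.comp contDiff_hh (contDiff_gk_a k)
  exact h

theorem isDiffeo_gk (k : ℕ) (t : ℝ) : IsDiffeo k (gk k t) := by
  have h := (isDiffeo_hh t).comp (isDiffeo_aut k) (fun p => aut_aut 0 k p)
  rw [zero_add] at h
  exact h

theorem gk_zero (k : ℕ) : gk k 0 = aut k := by
  funext p
  exact hh_zero _

theorem J_gk (k : ℕ) (t : ℝ) (p : R6) :
    J (gk k t) p = (J (hh t) (aut k p)).comp (A (Uk k) (Vk k)) := by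
  have := J_comp (g := hh t) (h := aut k) p ((isDiffeo_hh t).differentiable _)
    ((contDiff_aut k).differentiable (by simp) _)
  rw [J_aut] at this
  exact this

theorem J_hh_zero (p : R6) : J (hh 0) p = ContinuousLinearMap.id ℝ R6 := by
  have h : hh 0 = fun p => p := funext hh_zero
  ext1 c
  rw [J_apply, h, fderiv_fun_id, ContinuousLinearMap.id_apply, Ei_E]
  rfl

theorem exists_C : ∃ C : ℝ, 0 ≤ C ∧ ∀ t, |t| ≤ 1 → ∀ q,
    ‖J (hh t) q - ContinuousLinearMap.id ℝ R6‖ ≤ C * |t| := by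
  obtain ⟨C, hC, h⟩ := lip_family (contDiff_J_family contDiff_hh) (fun t => (isDiffeo_hh t).J_inv)
  refine ⟨C, hC, fun t ht q => ?_⟩
  have := h t ht q
  rwa [J_hh_zero] at this

section Hat

variable {U V : ℝ} (hU : 3 ≤ U) (hV : 0 ≤ V) (hV1 : V ≤ 1)

include hU hV hV1 in
theorem norm_A_le : ‖A U V‖ ≤ U ^ 3 := by
  have hU3 : 0 ≤ U ^ 3 := by positivity
  refine ContinuousLinearMap.opNorm_le_bound _ hU3 fun c => ?_
  rw [pi_norm_le_iff_of_nonneg (by positivity)]
  intro i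
  rw [A_apply, norm_mul]
  have h1 : ‖dg U V i‖ ≤ U ^ 3 := by
    rw [Real.norm_eq_abs]
    by_cases hi : i = 2
    · rw [hi, dg_two, abs_of_nonneg hU3]
    · obtain ⟨h1, h2⟩ := dg_le hU hV hV1 hi
      rw [abs_of_nonneg h1]
      nlinarith [sq_nonneg U]
  exact mul_le_mul h1 (norm_le_pi_norm c i) (norm_nonneg _) hU3

/-- the image of a direction under `A`, normalised -/
def hat (U V : ℝ) (w : R6) : R6 := (U ^ 3)⁻¹ • A U V w

include hU in
theorem hat_two {w : R6} (hw : w 2 = 1) : hat U V w 2 = 1 := by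
  have hU3 : 0 < U ^ 3 := by positivity
  rw [hat, Pi.smul_apply, A_apply, dg_two, hw, mul_one, smul_eq_mul, inv_mul_cancel₀ hU3.ne']

include hU hV hV1 in
theorem hat_ne (w : R6) {i : Fin 6} (hi : i ≠ 2) : |hat U V w i| ≤ U⁻¹ * |w i| := by
  have hU3 : 0 < U ^ 3 := by positivity
  have hU0 : 0 < U := by linarith
  obtain ⟨h1, h2⟩ := dg_le hU hV hV1 hi
  rw [hat, Pi.smul_apply, A_apply, smul_eq_mul, abs_mul, abs_mul, abs_of_pos (inv_pos.2 hU3),
    abs_of_nonneg h1, ← mul_assoc]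
  refine mul_le_mul_of_nonneg_right ?_ (abs_nonneg _)
  rw [inv_mul_le_iff₀ hU3]
  have : U ^ 3 * U⁻¹ = U ^ 2 := by
    field_simp
  rw [this]
  exact h2

include hU hV hV1 in
theorem hat_close {w : R6} (hw : w 2 = 1) : ‖hat U V w - e2‖ ≤ U⁻¹ * ‖w - e2‖ := by
  have hU0 : 0 < U := by linarith
  rw [pi_norm_le_iff_of_nonneg (by positivity)]
  intro i
  rw [Pi.sub_apply]
  by_cases hi : i = 2
  · rw [hi, hat_two hU hw, e2_two, sub_self, norm_zero]
    positivity
  · rw [e2_of_ne hi, sub_zero, Real.norm_eq_abs]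
    refine (hat_ne hU hV hV1 w hi).trans ?_
    have h1 : |w i| ≤ ‖w - e2‖ := by
      have := norm_le_pi_norm (w - e2) i
      rwa [Pi.sub_apply, e2_of_ne hi, sub_zero, Real.norm_eq_abs] at this
    exact mul_le_mul_of_nonneg_left h1 (by positivity)

include hU hV hV1 in
theorem hat_norm {w : R6} (hw : w 2 = 1) (hw1 : ‖w‖ ≤ 1) : ‖hat U V w‖ ≤ 1 := by
  have hU0 : 0 < U := by linarith
  rw [pi_norm_le_iff_of_nonneg zero_le_one]
  intro i
  rw [Real.norm_eq_abs]
  by_cases hi : i = 2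
  · rw [hi, hat_two hU hw, abs_one]
  · refine (hat_ne hU hV hV1 w hi).trans ?_
    have h1 : |w i| ≤ 1 := (norm_le_pi_norm w i).trans hw1
    rw [inv_mul_le_iff₀ hU0]
    linarith

end Hat

theorem nz_smul {c : ℝ} (hc : c ≠ 0) (v : R6) : nz (c • v) = nz v := by
  rw [nz, nz, Pi.smul_apply, smul_eq_mul, smul_smul, mul_inv, mul_comm c⁻¹, mul_assoc,
    inv_mul_cancel₀ hc, mul_one]

section Near

variable {D : R6 →L[ℝ] R6} {ε : ℝ} (hD : ‖D - ContinuousLinearMap.id ℝ R6‖ ≤ ε)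

include hD in
theorem near_apply {v : R6} (hv1 : ‖v‖ ≤ 1) (i : Fin 6) : |D v i - v i| ≤ ε := by
  have h1 : D v i - v i = (D - ContinuousLinearMap.id ℝ R6) v i := by
    rw [_root_.sub_apply, Pi.sub_apply, ContinuousLinearMap.id_apply]
  rw [h1, ← Real.norm_eq_abs]
  refine (norm_le_pi_norm _ i).trans (((D - ContinuousLinearMap.id ℝ R6).le_opNorm v).trans ?_)
  calc ‖D - ContinuousLinearMap.id ℝ R6‖ * ‖v‖ ≤ ε * 1 := by
        refine mul_le_mul hD hv1 (norm_nonneg _) ((norm_nonneg _).trans hD)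
    _ = ε := mul_one ε

include hD in
theorem nz_near (hε1 : ε ≤ 1 / 8) {v : R6} (hv : v 2 = 1) (hv1 : ‖v‖ ≤ 1) :
    ‖nz (D v) - e2‖ ≤ 8 / 7 * (‖v - e2‖ + ε) := by
  have hε : 0 ≤ ε := (norm_nonneg _).trans hD
  have hn := norm_nonneg (v - e2)
  have h2 := near_apply hD hv1 2
  rw [hv, abs_le] at h2
  have h3 : 7 / 8 ≤ D v 2 := by linarith [h2.1]
  rw [pi_norm_le_iff_of_nonneg (by positivity)]
  intro i
  rw [Pi.sub_apply]
  by_cases hi : i = 2
  · rw [hi, nz_two (by linarith), e2_two, sub_self, norm_zero]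
    positivity
  · rw [e2_of_ne hi, sub_zero, nz, Pi.smul_apply, norm_smul, norm_inv, Real.norm_eq_abs,
      Real.norm_eq_abs, abs_of_pos (by linarith : 0 < D v 2), inv_mul_le_iff₀ (by linarith)]
    have h4 := near_apply hD hv1 i
    have h5 : |v i| ≤ ‖v - e2‖ := by
      have := norm_le_pi_norm (v - e2) i
      rwa [Pi.sub_apply, e2_of_ne hi, sub_zero, Real.norm_eq_abs] at this
    have h6 : |D v i| ≤ ‖v - e2‖ + ε := by
      have h7 : D v i = (D v i - v i) + v i := by ring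
      rw [h7]
      refine (abs_add_le _ _).trans ?_
      linarith
    refine h6.trans ?_
    nlinarith

end Near

theorem field_near {k : ℕ} (hk : 1 ≤ k) {t ε : ℝ} (hε1 : ε ≤ 1 / 8)
    (hJ : ∀ q, ‖J (hh t) q - ContinuousLinearMap.id ℝ R6‖ ≤ ε) {w : R6 → R6}
    (hw : IsField (gk k t) (J (gk k t)) w) (p : R6) : ‖w p - e2‖ ≤ 2 * ε := by
  have hU := Uk_ge hk
  have hV := Vk_nonneg k
  have hV1 := Vk_le k
  have hε : 0 ≤ ε := (norm_nonneg _).trans (hJ 0)
  obtain ⟨S, -, -, hTS⟩ := (isDiffeo_gk k t).inverse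
  have key : ∀ n : ℕ, ∀ p, ‖w p - e2‖ ≤ 2 * ε + 2 * (1 / 2) ^ n := by
    intro n
    induction n with
    | zero =>
      intro p
      have := norm_sub_le (w p) e2
      have h1 := hw.norm p
      have h2 := norm_e2
      simp only [pow_zero]
      linarith
    | succ n ih =>
      intro p
      set q := S p with hq
      have h1 : w p = nz (J (hh t) (aut k q) (hat (Uk k) (Vk k) (w q))) := by
        have h2 : w (gk k t q) = nz (J (gk k t) q (w q)) := hw.eqn q
        rw [hq, hTS, ← hq, J_gk, ContinuousLinearMap.comp_apply] at h2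
        rw [h2, hat, map_smul, nz_smul (inv_ne_zero (pow_ne_zero 3 (by linarith)))]
      have h3 := nz_near (hJ (aut k q)) hε1 (hat_two (V := Vk k) hU (hw.two q))
        (hat_norm hU hV hV1 (hw.two q) (hw.norm q))
      have h4 := hat_close hU hV hV1 (hw.two q)
      have h5 := ih q
      have h6 : (Uk k)⁻¹ ≤ 1 / 3 := by
        rw [inv_le_comm₀ (by linarith) (by norm_num)]
        norm_num
        exact hU
      rw [h1]
      refine h3.trans ?_
      have h7 : (Uk k)⁻¹ * ‖w q - e2‖ ≤ 1 / 3 * ‖w q - e2‖ :=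
        mul_le_mul_of_nonneg_right h6 (norm_nonneg _)
      have h8 : (0 : ℝ) ≤ (1 / 2) ^ n := by positivity
      rw [pow_succ]
      linarith
  have h1 : Tendsto (fun n : ℕ => 2 * ε + 2 * (1 / 2 : ℝ) ^ n) atTop (𝓝 (2 * ε + 2 * 0)) :=
    ((tendsto_pow_atTop_nhds_zero_of_lt_one (by norm_num) (by norm_num)).const_mul 2).const_add _
  rw [mul_zero, add_zero] at h1
  exact ge_of_tendsto' h1 fun n => key n p

/-! ### the inverse of the automorphism -/

theorem aut_A (k : ℕ) (q : R6) : aut k (A (Vk k) (Uk k) q) = q := by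
  rw [aut_eq]
  exact A_inv (by rw [mul_comm]; exact UV k) q

theorem A_aut (k : ℕ) (q : R6) : A (Vk k) (Uk k) (aut k q) = q := by
  rw [aut_eq]
  exact A_inv (UV k) q

theorem A_smul (k : ℕ) (γ : Lat) (q : R6) :
    A (Vk k) (Uk k) (γ • q) = (autL k).symm γ • A (Vk k) (Uk k) q := by
  have h1 := aut_smul k ((autL k).symm γ) (A (Vk k) (Uk k) q)
  rw [aut_A, Equiv.apply_symm_apply] at h1
  rw [← h1, A_aut]

theorem measurePreserving_A (k : ℕ) :
    MeasurePreserving (fun q => A (Vk k) (Uk k) q) volume volume := by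
  refine measurePreserving_of_det ?_ fun p => ⟨A (Vk k) (Uk k), (A (Vk k) (Uk k)).hasFDerivAt, by
    rw [det_A (by rw [mul_comm]; exact UV k)]; simp⟩
  exact ⟨fun p q h => by
    have := congrArg (aut k) h
    simp only [aut_A] at this
    exact this, fun q => ⟨aut k q, A_aut k q⟩⟩

/-- the exponent of `gk k t` -/
theorem lamU_gk {k : ℕ} (hk : 1 ≤ k) {t ε : ℝ} (hε1 : ε * Uk k ^ 3 ≤ 1)
    (hJ : ∀ q, ‖J (hh t) q - ContinuousLinearMap.id ℝ R6‖ ≤ ε) :
    ∃ w : R6 → R6, Continuous w ∧ (∀ q, w q 2 = 1) ∧ (∀ q, ‖w q‖ ≤ 1) ∧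
      (∀ q, ‖w q - e2‖ ≤ 2 * ε / Uk k) ∧ (∀ q, 0 < J (hh t) q (w q) 2) ∧
      lamU (gk k t) = Real.log (Uk k ^ 3) + ⨍ q in dom, Real.log (J (hh t) q (w q) 2) := by
  have hU := Uk_ge hk
  have hU0 : 0 < Uk k := by linarith
  have hU3 : 0 < Uk k ^ 3 := by positivity
  have hV := Vk_nonneg k
  have hV1 := Vk_le k
  have hε : 0 ≤ ε := (norm_nonneg _).trans (hJ 0)
  have hU27 : 27 ≤ Uk k ^ 3 := by
    have := pow_le_pow_left₀ (by norm_num) hU 3
    linarith
  have hε8 : ε ≤ 1 / 8 := by nlinarith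
  have hJ1 : ∀ p, ‖J (gk k t) p - A (Uk k) (Vk k)‖ ≤ 1 := by
    intro p
    have h1 : J (gk k t) p - A (Uk k) (Vk k) =
        (J (hh t) (aut k p) - ContinuousLinearMap.id ℝ R6).comp (A (Uk k) (Vk k)) := by
      rw [J_gk, ContinuousLinearMap.sub_comp, ContinuousLinearMap.id_comp]
    rw [h1]
    refine (ContinuousLinearMap.opNorm_comp_le _ _).trans ?_
    refine le_trans ?_ hε1
    exact mul_le_mul (hJ _) (norm_A_le hU hV hV1) (norm_nonneg _) hε
  obtain ⟨w, hwc, hwi, hw, h26, -, -, hlam⟩ := lamU_formula hk (isDiffeo_gk k t) hJ1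
  have hnear := field_near hk hε8 hJ hw
  have hkey : ∀ q, J (gk k t) (A (Vk k) (Uk k) q) (w (A (Vk k) (Uk k) q)) =
      Uk k ^ 3 • J (hh t) q (hat (Uk k) (Vk k) (w (A (Vk k) (Uk k) q))) := by
    intro q
    rw [J_gk, aut_A, ContinuousLinearMap.comp_apply, hat, map_smul, smul_smul,
      mul_inv_cancel₀ hU3.ne', one_smul]
  have hpos : ∀ q, 0 < J (hh t) q (hat (Uk k) (Vk k) (w (A (Vk k) (Uk k) q))) 2 := by
    intro q
    have h1 := h26 (A (Vk k) (Uk k) q)
    rw [hkey, Pi.smul_apply, smul_eq_mul] at h1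
    exact pos_of_mul_pos_right (by linarith) hU3.le
  have hwc' : Continuous fun q => hat (Uk k) (Vk k) (w (A (Vk k) (Uk k) q)) := by
    unfold hat
    exact ((A (Uk k) (Vk k)).continuous.comp
      (hwc.comp (A (Vk k) (Uk k)).continuous)).const_smul ((Uk k ^ 3)⁻¹)
  refine ⟨fun q => hat (Uk k) (Vk k) (w (A (Vk k) (Uk k) q)), hwc', fun q => hat_two hU (hw.two _),
    fun q => hat_norm hU hV hV1 (hw.two _) (hw.norm _), fun q => ?_, hpos, ?_⟩
  · refine (hat_close hU hV hV1 (hw.two _)).trans ?_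
    rw [div_eq_inv_mul]
    exact mul_le_mul_of_nonneg_left (hnear _) (by positivity)
  · have hF : Continuous fun p => Real.log (J (gk k t) p (w p) 2) :=
      ((continuous_apply 2).comp ((continuous_J (isDiffeo_gk k t).smooth).clm_apply hwc)).log
        fun p => by
          have := h26 p
          show J (gk k t) p (w p) 2 ≠ 0
          linarith
    have hFi : Inv fun p => Real.log (J (gk k t) p (w p) 2) := fun γ p => by
      show Real.log (J (gk k t) (γ • p) (w (γ • p)) 2) = _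
      rw [(isDiffeo_gk k t).J_inv, hwi]
    have h1 := setIntegral_comp (measurePreserving_A k) (autL k).symm (A_smul k) hFi hF.measurable
    have h2 : ∀ q, Real.log (J (gk k t) (A (Vk k) (Uk k) q) (w (A (Vk k) (Uk k) q)) 2) =
        Real.log (Uk k ^ 3) +
          Real.log (J (hh t) q (hat (Uk k) (Vk k) (w (A (Vk k) (Uk k) q))) 2) := by
      intro q
      rw [hkey, Pi.smul_apply, smul_eq_mul, Real.log_mul hU3.ne' (hpos q).ne']
    simp only [h2] at h1
    have hY : Continuous fun q => Real.log (J (hh t) q (hat (Uk k) (Vk k) (w (A (Vk k) (Uk k) q))) 2) :=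
      ((continuous_apply 2).comp ((continuous_J (isDiffeo_hh t).smooth).clm_apply hwc')).log
        fun q => (hpos q).ne'
    rw [integral_add (integrableOn_dom continuous_const) (integrableOn_dom hY)] at h1
    have hvol : 0 < volume.real dom := ENNReal.toReal_pos volume_dom_pos.ne' volume_dom_lt_top.ne
    rw [hlam, setAverage_eq, setAverage_eq, ← h1, setIntegral_const, smul_eq_mul, smul_eq_mul,
      smul_eq_mul, mul_add, ← mul_assoc, inv_mul_cancel₀ hvol.ne', one_mul]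

end Pool.Agent.H5.NM
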