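import Pool.Agent.H5.NM.Dom

set_option autoImplicit false

noncomputable section

open MeasureTheory Set Filter Topology

namespace Pool.Agent.H5.NM

/-- `Fin 6 → ℝ` -/
abbrev R6 := Fin 6 → ℝ

/-- the multipliers -/
def dg (U V : ℝ) : R6 := ![U ^ 2, U, U ^ 3, V ^ 2, V, V ^ 3]

/-- the diagonal map with the multipliers as entries -/
def A (U V : ℝ) : R6 →L[ℝ] R6 :=
  ContinuousLinearMap.pi fun i => (dg U V i) • (ContinuousLinearMap.proj (R := ℝ) (φ := fun _ : Fin 6 => ℝ) i)

theorem A_apply (U V : ℝ) (c : R6) (i : Fin 6) : A U V c i = dg U V i * c i := by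
  simp [A]

/-- normalisation of the component of index `2` -/
def nz (v : R6) : R6 := (v 2)⁻¹ • v

/-- the vector field `Z` -/
def e2 : R6 := Pi.single 2 1

theorem nz_two {v : R6} (h : v 2 ≠ 0) : nz v 2 = 1 := by
  simp [nz, h]

/-- a multiplier is at most `U ^ 2` for the indices other than `2` -/
theorem dg_le {U V : ℝ} (hU : 3 ≤ U) (hV : 0 ≤ V) (hV1 : V ≤ 1) {i : Fin 6} (hi : i ≠ 2) :
    0 ≤ dg U V i ∧ dg U V i ≤ U ^ 2 := by
  have h1 : V ^ 2 ≤ 1 := pow_le_one₀ hV hV1
  have h2 : V ^ 3 ≤ 1 := pow_le_one₀ hV hV1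
  fin_cases i
  · simp [dg]; positivity
  · simp [dg]; constructor <;> nlinarith
  · exact absurd rfl hi
  · simp [dg]; constructor <;> nlinarith
  · simp [dg]; constructor <;> nlinarith
  · simp [dg]; constructor
    · positivity
    · nlinarith

theorem dg_two (U V : ℝ) : dg U V 2 = U ^ 3 := rfl

section Phi

variable {U V : ℝ} (hU : 3 ≤ U) (hV : 0 ≤ V) (hV1 : V ≤ 1) {L : R6 →L[ℝ] R6} (hL : ‖L - A U V‖ ≤ 1)

include hL in
theorem err_le (w : R6) (i : Fin 6) : |L w i - dg U V i * w i| ≤ ‖w‖ := by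
  have h1 : L w i - dg U V i * w i = (L - A U V) w i := by
    rw [_root_.sub_apply, Pi.sub_apply, A_apply]
  rw [h1, ← Real.norm_eq_abs]
  refine (norm_le_pi_norm _ i).trans ?_
  refine ((L - A U V).le_opNorm w).trans ?_
  have := norm_nonneg w
  nlinarith

include hL in
theorem two_ge {w : R6} (hw : w 2 = 1) (hw1 : ‖w‖ ≤ 1) : U ^ 3 - 1 ≤ L w 2 := by
  have h := err_le hL w 2
  rw [dg_two, hw, abs_le] at h
  linarith [h.1]

include hU hV hV1 hL in
theorem other_le {w : R6} (hw1 : ‖w‖ ≤ 1) {i : Fin 6} (hi : i ≠ 2) : |L w i| ≤ U ^ 2 + 1 := by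
  have h := err_le hL w i
  have h1 := dg_le hU hV hV1 hi
  have h2 : |dg U V i * w i| ≤ U ^ 2 := by
    rw [abs_mul, abs_of_nonneg h1.1]
    have h3 : |w i| ≤ 1 := (norm_le_pi_norm w i).trans hw1
    have h4 := abs_nonneg (w i)
    nlinarith
  have h3 : L w i = (L w i - dg U V i * w i) + dg U V i * w i := by ring
  rw [h3]
  refine (abs_add_le _ _).trans ?_
  linarith

theorem cube_bound {U : ℝ} (hU : 3 ≤ U) : 26 * (U ^ 2 + 1) ≤ 10 * (U ^ 3 - 1) ∧ 26 ≤ U ^ 3 - 1 := by
  constructor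
  · nlinarith [sq_nonneg (U - 3), sq_nonneg U]
  · nlinarith [sq_nonneg (U - 3), sq_nonneg U]

include hU hV hV1 hL in
theorem nz_mem {w : R6} (hw : w 2 = 1) (hw1 : ‖w‖ ≤ 1) : nz (L w) 2 = 1 ∧ ‖nz (L w)‖ ≤ 1 := by
  have h1 := two_ge hL hw hw1
  have hc := cube_bound hU
  have h2 : 0 < L w 2 := by linarith
  refine ⟨nz_two h2.ne', ?_⟩
  rw [pi_norm_le_iff_of_nonneg zero_le_one]
  intro i
  by_cases hi : i = 2
  · rw [hi, nz_two h2.ne']
    simp
  · have h3 := other_le hU hV hV1 hL hw1 hi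
    rw [nz, Pi.smul_apply, norm_smul, norm_inv, Real.norm_eq_abs, Real.norm_eq_abs, abs_of_pos h2,
      inv_mul_le_iff₀ h2]
    linarith

include hU hV hV1 hL in
theorem nz_lip {w w' : R6} (hw : w 2 = 1) (hw1 : ‖w‖ ≤ 1) (hw' : w' 2 = 1) (hw1' : ‖w'‖ ≤ 1) :
    ‖nz (L w) - nz (L w')‖ ≤ 1 / 2 * ‖w - w'‖ := by
  have h1 := two_ge hL hw hw1
  have h1' := two_ge hL hw' hw1'
  have hc := cube_bound hU
  have h2 : 0 < L w 2 := by linarith
  have h2' : 0 < L w' 2 := by linarith
  have hn := norm_nonneg (w - w')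
  rw [pi_norm_le_iff_of_nonneg (by positivity)]
  intro i
  rw [Pi.sub_apply]
  by_cases hi : i = 2
  · rw [hi, nz_two h2.ne', nz_two h2'.ne']
    simpa using hn
  have hd := dg_le hU hV hV1 hi
  -- the difference of the numerators
  have h3 : |L w i - L w' i| ≤ (U ^ 2 + 1) * ‖w - w'‖ := by
    have h := err_le hL (w - w') i
    rw [map_sub, Pi.sub_apply, Pi.sub_apply] at h
    have h4 : |dg U V i * (w i - w' i)| ≤ U ^ 2 * ‖w - w'‖ := by
      rw [abs_mul, abs_of_nonneg hd.1]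
      have h5 : |w i - w' i| ≤ ‖w - w'‖ := norm_le_pi_norm (w - w') i
      have h6 := abs_nonneg (w i - w' i)
      calc dg U V i * |w i - w' i| ≤ U ^ 2 * |w i - w' i| := by gcongr; exact hd.2
        _ ≤ U ^ 2 * ‖w - w'‖ := by gcongr
    have h5 : L w i - L w' i = (L w i - L w' i - dg U V i * (w i - w' i)) + dg U V i * (w i - w' i) := by
      ring
    rw [h5]
    refine (abs_add_le _ _).trans ?_
    linarith
  -- the difference of the denominators
  have h4 : |L w 2 - L w' 2| ≤ ‖w - w'‖ := by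
    have h := err_le hL (w - w') 2
    rw [map_sub, Pi.sub_apply, Pi.sub_apply, hw, hw'] at h
    simpa using h
  have h5 := other_le hU hV hV1 hL hw1' hi
  have h6 : nz (L w) i - nz (L w') i =
      (L w 2)⁻¹ * (L w i - L w' i) + (L w 2)⁻¹ * (L w' 2)⁻¹ * (L w' i) * (L w' 2 - L w 2) := by
    simp only [nz, Pi.smul_apply, smul_eq_mul]
    field_simp
    ring
  rw [h6, Real.norm_eq_abs]
  refine (abs_add_le _ _).trans ?_
  rw [abs_mul, abs_mul, abs_mul, abs_mul, abs_inv, abs_inv, abs_of_pos h2, abs_of_pos h2',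
    abs_sub_comm (L w' 2)]
  have h7 : (L w 2)⁻¹ * |L w i - L w' i| ≤ 10 / 26 * ‖w - w'‖ := by
    rw [inv_mul_le_iff₀ h2]
    refine h3.trans ?_
    have : U ^ 2 + 1 ≤ L w 2 * (10 / 26) := by linarith
    nlinarith
  have h8 : (L w 2)⁻¹ * (L w' 2)⁻¹ * |L w' i| * |L w 2 - L w' 2| ≤ 1 / 26 * (10 / 26) * ‖w - w'‖ := by
    have h9 : (L w 2)⁻¹ ≤ 1 / 26 := by
      rw [inv_le_comm₀ h2 (by norm_num)]
      norm_num
      linarith
    have h10 : (L w' 2)⁻¹ * |L w' i| ≤ 10 / 26 := by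
      rw [inv_mul_le_iff₀ h2']
      linarith
    have h11 : 0 < (L w 2)⁻¹ := by positivity
    have h12 : 0 ≤ (L w' 2)⁻¹ * |L w' i| := by positivity
    calc (L w 2)⁻¹ * (L w' 2)⁻¹ * |L w' i| * |L w 2 - L w' 2|
        = (L w 2)⁻¹ * ((L w' 2)⁻¹ * |L w' i|) * |L w 2 - L w' 2| := by ring
      _ ≤ 1 / 26 * (10 / 26) * ‖w - w'‖ := by gcongr
  linarith

end Phi

/-! ### invariant direction fields -/

/-- the cocycle `J` over `T` leaves the direction field `w` invariant -/
structure IsField (T : R6 → R6) (J : R6 → (R6 →L[ℝ] R6)) (w : R6 → R6) : Prop where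
  two : ∀ p, w p 2 = 1
  norm : ∀ p, ‖w p‖ ≤ 1
  eqn : ∀ p, w (T p) = nz (J p (w p))

section Exist

variable {U V : ℝ} (hU : 3 ≤ U) (hV : 0 ≤ V) (hV1 : V ≤ 1)
  {T S : R6 → R6} (hTS : ∀ p, T (S p) = p) (hST : ∀ p, S (T p) = p)
  {J : R6 → (R6 →L[ℝ] R6)} (hJ : ∀ p, ‖J p - A U V‖ ≤ 1)

include hU hV hV1 hTS hJ in
theorem field_unique {w w' : R6 → R6} (h : IsField T J w) (h' : IsField T J w') : w = w' := by
  have key : ∀ n : ℕ, ∀ p, ‖w p - w' p‖ ≤ 2 * (1 / 2) ^ n := by
    intro n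
    induction n with
    | zero =>
      intro p
      have := norm_sub_le (w p) (w' p)
      have h1 := h.norm p
      have h2 := h'.norm p
      simp only [pow_zero]
      linarith
    | succ n ih =>
      intro p
      rw [← hTS p, h.eqn, h'.eqn]
      refine (nz_lip hU hV hV1 (hJ _) (h.two _) (h.norm _) (h'.two _) (h'.norm _)).trans ?_
      have := ih (S p)
      rw [pow_succ]
      linarith
  funext p
  have h1 : Tendsto (fun n : ℕ => 2 * (1 / 2 : ℝ) ^ n) atTop (𝓝 (2 * 0)) :=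
    (tendsto_pow_atTop_nhds_zero_of_lt_one (by norm_num) (by norm_num)).const_mul 2
  rw [mul_zero] at h1
  have h2 : ‖w p - w' p‖ ≤ 0 := ge_of_tendsto' h1 fun n => key n p
  exact sub_eq_zero.1 (norm_le_zero_iff.1 h2)

include hU hV hV1 hTS hJ in
theorem field_invariant {w : R6 → R6} (h : IsField T J w) {φ : Lat → Lat}
    (hφ : Function.Surjective φ) (hT : ∀ g p, T (g • p) = φ g • T p) (hJi : Inv J) : Inv w := by
  have key : ∀ n : ℕ, ∀ (g : Lat) p, ‖w (g • p) - w p‖ ≤ 2 * (1 / 2) ^ n := by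
    intro n
    induction n with
    | zero =>
      intro g p
      have := norm_sub_le (w (g • p)) (w p)
      have h1 := h.norm (g • p)
      have h2 := h.norm p
      simp only [pow_zero]
      linarith
    | succ n ih =>
      intro g p
      obtain ⟨g', rfl⟩ := hφ g
      rw [← hTS p, ← hT, h.eqn, h.eqn, hJi]
      refine (nz_lip hU hV hV1 (hJ _) (h.two _) (h.norm _) (h.two _) (h.norm _)).trans ?_
      have := ih g' (S p)
      rw [pow_succ]
      linarith
  intro g p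
  have h1 : Tendsto (fun n : ℕ => 2 * (1 / 2 : ℝ) ^ n) atTop (𝓝 (2 * 0)) :=
    (tendsto_pow_atTop_nhds_zero_of_lt_one (by norm_num) (by norm_num)).const_mul 2
  rw [mul_zero] at h1
  have h2 : ‖w (g • p) - w p‖ ≤ 0 := ge_of_tendsto' h1 fun n => key n g p
  exact sub_eq_zero.1 (norm_le_zero_iff.1 h2)

include hU hV hV1 hTS hJ in
theorem field_close {w : R6 → R6} (h : IsField T J w) {δ : ℝ} (hδ : 0 ≤ δ)
    (hJδ : ∀ p, ‖J p - A U V‖ ≤ δ) (p : R6) : ‖w p - e2‖ ≤ δ := by
  have he2 : e2 2 = 1 := by simp [e2]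
  have he2n : ‖e2‖ ≤ 1 := by
    rw [pi_norm_le_iff_of_nonneg zero_le_one]
    intro i
    by_cases hi : i = 2
    · rw [hi, he2]; simp
    · simp [e2, hi]
  have hc := cube_bound hU
  have step : ∀ q, ‖nz (J q e2) - e2‖ ≤ 1 / 2 * δ := by
    intro q
    have h2 : 0 < J q e2 2 := by
      have := two_ge (hJ q) he2 he2n
      linarith
    have h1 : U ^ 3 - 1 ≤ J q e2 2 := two_ge (hJ q) he2 he2n
    rw [pi_norm_le_iff_of_nonneg (by positivity)]
    intro i
    rw [Pi.sub_apply]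
    by_cases hi : i = 2
    · rw [hi, nz_two h2.ne', he2]
      simpa using hδ
    · have h3 : e2 i = 0 := by simp [e2, hi]
      have h4 : J q e2 i = (J q - A U V) e2 i := by
        rw [_root_.sub_apply, Pi.sub_apply, A_apply, h3]
        ring
      have h5 : |J q e2 i| ≤ δ := by
        rw [h4, ← Real.norm_eq_abs]
        refine (norm_le_pi_norm _ i).trans (((J q - A U V).le_opNorm e2).trans ?_)
        have := hJδ q
        have h6 := norm_nonneg e2
        calc ‖J q - A U V‖ * ‖e2‖ ≤ δ * 1 := by gcongr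
          _ = δ := mul_one δ
      rw [h3, sub_zero, nz, Pi.smul_apply, norm_smul, norm_inv, Real.norm_eq_abs, Real.norm_eq_abs,
        abs_of_pos h2, inv_mul_le_iff₀ h2]
      have : 2 ≤ J q e2 2 := by linarith
      nlinarith
  have key : ∀ n : ℕ, ∀ p, ‖w p - e2‖ ≤ δ + 2 * (1 / 2) ^ n := by
    intro n
    induction n with
    | zero =>
      intro p
      have := norm_sub_le (w p) e2
      have h1 := h.norm p
      simp only [pow_zero]
      linarith
    | succ n ih =>
      intro p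
      have h1 : w p - e2 = (nz (J (S p) (w (S p))) - nz (J (S p) e2)) + (nz (J (S p) e2) - e2) := by
        rw [← h.eqn, hTS]
        abel
      rw [h1]
      refine (norm_add_le _ _).trans ?_
      have h2 := nz_lip hU hV hV1 (hJ (S p)) (h.two (S p)) (h.norm (S p)) he2 he2n
      have h3 := step (S p)
      have h4 := ih (S p)
      rw [pow_succ]
      linarith
  have h1 : Tendsto (fun n : ℕ => δ + 2 * (1 / 2 : ℝ) ^ n) atTop (𝓝 (δ + 2 * 0)) :=
    ((tendsto_pow_atTop_nhds_zero_of_lt_one (by norm_num) (by norm_num)).const_mul 2).const_add δ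
  rw [mul_zero, add_zero] at h1
  exact ge_of_tendsto' h1 fun n => key n p

/-- the complete metric space of candidate fields -/
def FS : Type := {w : BoundedContinuousFunction R6 R6 // ∀ p, w p 2 = 1 ∧ ‖w p‖ ≤ 1}

instance : MetricSpace FS := inferInstanceAs (MetricSpace {w : BoundedContinuousFunction R6 R6 // _})

instance : CompleteSpace FS := by
  have hc : IsClosed {w : BoundedContinuousFunction R6 R6 | ∀ p, w p 2 = 1 ∧ ‖w p‖ ≤ 1} := by
    simp only [ofPred_forall]
    refine isClosed_iInter fun p => ?_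
    have h1 : Continuous fun w : BoundedContinuousFunction R6 R6 => w p :=
      continuous_eval_const p
    exact (isClosed_eq ((continuous_apply 2).comp h1) continuous_const).inter
      (isClosed_le h1.norm continuous_const)
  exact hc.completeSpace_coe

instance : Nonempty FS :=
  ⟨⟨BoundedContinuousFunction.const R6 e2, fun p => by
    refine ⟨by simp [e2], ?_⟩
    rw [BoundedContinuousFunction.const_apply, pi_norm_le_iff_of_nonneg zero_le_one]
    intro i
    by_cases hi : i = 2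
    · rw [hi]; simp [e2]
    · simp [e2, hi]⟩⟩

omit hTS in
include hU hV hV1 hST hJ in
theorem field_exists (hS : Continuous S) (hJc : Continuous J) :
    ∃ w : R6 → R6, Continuous w ∧ IsField T J w := by
  have hcont : ∀ w : FS, Continuous fun p => nz (J (S p) (w.1 (S p))) := by
    intro w
    have h1 : Continuous fun p => J (S p) (w.1 (S p)) :=
      (hJc.comp hS).clm_apply (w.1.continuous.comp hS)
    have h2 : ∀ p, (J (S p) (w.1 (S p))) 2 ≠ 0 := by
      intro p
      have := two_ge (hJ (S p)) (w.2 (S p)).1 (w.2 (S p)).2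
      have hc := cube_bound hU
      linarith
    exact (((continuous_apply 2).comp h1).inv₀ h2).smul h1
  let Φ : FS → FS := fun w => ⟨BoundedContinuousFunction.ofNormedAddCommGroup
      (fun p => nz (J (S p) (w.1 (S p)))) (hcont w) 1
      (fun p => (nz_mem hU hV hV1 (hJ _) (w.2 _).1 (w.2 _).2).2),
    fun p => nz_mem hU hV hV1 (hJ _) (w.2 _).1 (w.2 _).2⟩
  have hΦ : ContractingWith (1 / 2) Φ := by
    refine ⟨by norm_num [← NNReal.coe_lt_coe], ?_⟩
    refine LipschitzWith.of_dist_le_mul fun w w' => ?_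
    show dist (Φ w).1 (Φ w').1 ≤ _
    rw [BoundedContinuousFunction.dist_le (by positivity)]
    intro p
    rw [dist_eq_norm]
    have h1 := nz_lip hU hV hV1 (hJ (S p)) (w.2 (S p)).1 (w.2 (S p)).2 (w'.2 (S p)).1 (w'.2 (S p)).2
    have h2 : ‖w.1 (S p) - w'.1 (S p)‖ ≤ dist w w' := by
      rw [← dist_eq_norm]
      exact BoundedContinuousFunction.dist_coe_le_dist (S p)
    calc ‖(Φ w).1 p - (Φ w').1 p‖ ≤ 1 / 2 * ‖w.1 (S p) - w'.1 (S p)‖ := h1
      _ ≤ 1 / 2 * dist w w' := by gcongr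
      _ = _ := by norm_num
  set w := hΦ.fixedPoint Φ
  have hw : Φ w = w := hΦ.fixedPoint_isFixedPt
  refine ⟨w.1, w.1.continuous, fun p => (w.2 p).1, fun p => (w.2 p).2, fun p => ?_⟩
  have h1 : (Φ w).1 (T p) = w.1 (T p) := by rw [hw]
  rw [← h1]
  show nz (J (S (T p)) (w.1 (S (T p)))) = _
  rw [hST]

end Exist

end Pool.Agent.H5.NM
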