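import Pool.Agent.H5.NM.Field

set_option autoImplicit false

noncomputable section

open MeasureTheory Set Filter Topology

namespace Pool.Agent.H5.NM

theorem comp_eq (p v : R6) : comp p v = Ei p v := by
  rw [Ei_apply]
  rfl

/-! ### the automorphism -/

/-- `u` -/
def Uk (k : ℕ) : ℝ := (2 + √3) ^ k
/-- `v` -/
def Vk (k : ℕ) : ℝ := (2 - √3) ^ k

theorem sq3_bounds : (1 : ℝ) ≤ √3 ∧ √3 < 2 := by
  constructor
  · exact Real.one_le_sqrt.2 (by norm_num)
  · rw [Real.sqrt_lt' (by norm_num)]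
    norm_num

theorem unit_mul : (2 + √3) * (2 - √3) = (1 : ℝ) := by
  have := sq3
  nlinarith

theorem Uk_ge {k : ℕ} (hk : 1 ≤ k) : 3 ≤ Uk k := by
  have h := sq3_bounds
  calc (3 : ℝ) ≤ (2 + √3) ^ 1 := by rw [pow_one]; linarith
    _ ≤ (2 + √3) ^ k := pow_le_pow_right₀ (by linarith) hk

theorem Vk_nonneg (k : ℕ) : 0 ≤ Vk k := pow_nonneg (by linarith [sq3_bounds.2]) k

theorem Vk_le (k : ℕ) : Vk k ≤ 1 := pow_le_one₀ (by linarith [sq3_bounds.2]) (by linarith [sq3_bounds.1])

theorem Uk_pos (k : ℕ) : 0 < Uk k := pow_pos (by linarith [sq3_bounds.1]) k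

theorem UV (k : ℕ) : Uk k * Vk k = 1 := by
  rw [Uk, Vk, ← mul_pow, unit_mul, one_pow]

theorem mult_eq (k : ℕ) : mult k = dg (Uk k) (Vk k) := by
  simp only [mult, dg, Uk, Vk, ← pow_mul, mul_comm 2 k, mul_comm 3 k]

theorem aut_eq (k : ℕ) (p : R6) : aut k p = A (Uk k) (Vk k) p := by
  ext i
  rw [A_apply, aut, mult_eq]

theorem aut_eq' (k : ℕ) : aut k = fun p => A (Uk k) (Vk k) p := funext fun p => aut_eq k p

theorem fderiv_aut (k : ℕ) (p : R6) : fderiv ℝ (aut k) p = A (Uk k) (Vk k) := by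
  rw [aut_eq']
  exact (A (Uk k) (Vk k)).fderiv

theorem contDiff_aut (k : ℕ) : ContDiff ℝ (⊤ : ℕ∞) (aut k) := by
  rw [aut_eq']
  exact (A (Uk k) (Vk k)).contDiff

theorem A_E (U V : ℝ) (p c : R6) : A U V (E p c) = E (A U V p) (A U V c) := by
  ext i
  simp only [A_apply, E_apply]
  fin_cases i <;> simp [dg] <;> ring

theorem aut_mul (k : ℕ) (p q : R6) : aut k (mul p q) = mul (aut k p) (aut k q) := by
  rw [aut_eq, aut_eq, aut_eq, mul_eq, mul_eq, map_add, A_E]

/-- the unit `2 + √3` of `ℤ[√3]` -/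
def η : O := ⟨2, 1⟩
def η' : O := ⟨2, -1⟩

theorem ηη' : η * η' = 1 := by
  ext <;> simp [η, η']

theorem σ_η : σ η = 2 + √3 := by
  rw [σ_apply]; simp [η]
theorem σ'_η : σ' η = 2 - √3 := by
  rw [σ'_apply]; simp [η]

/-- the automorphism of the lattice -/
def autL (k : ℕ) : Lat ≃ Lat where
  toFun g := ⟨η ^ (2 * k) * g.a, η ^ k * g.b, η ^ (3 * k) * g.c⟩
  invFun g := ⟨η' ^ (2 * k) * g.a, η' ^ k * g.b, η' ^ (3 * k) * g.c⟩
  left_inv g := by
    ext1 <;> simp only <;> rw [← mul_assoc, ← mul_pow, mul_comm η', ηη', one_pow, one_mul]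
  right_inv g := by
    ext1 <;> simp only <;> rw [← mul_assoc, ← mul_pow, ηη', one_pow, one_mul]

theorem emb_autL (k : ℕ) (g : Lat) : emb (autL k g) = aut k (emb g) := by
  ext i
  simp only [emb, autL, aut, mult, Equiv.coe_fn_mk, map_mul, map_pow, σ_η, σ'_η]
  fin_cases i <;> simp

theorem aut_smul (k : ℕ) (g : Lat) (p : R6) : aut k (g • p) = autL k g • aut k p := by
  rw [smul_def', smul_def', aut_mul, emb_autL]

theorem det_A {U V : ℝ} (h : U * V = 1) : (A U V).det = 1 := by
  have h1 : A U V = ContinuousLinearMap.pi fun i => ((dg U V i) • ContinuousLinearMap.id ℝ ℝ).comp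
      (ContinuousLinearMap.proj (R := ℝ) (φ := fun _ : Fin 6 => ℝ) i) := by
    ext c i
    simp [A]
  rw [h1, ContinuousLinearMap.det_pi]
  have h2 : ∀ a : ℝ, (a • ContinuousLinearMap.id ℝ ℝ).det = a := by
    intro a
    rw [ContinuousLinearMap.det, ContinuousLinearMap.toLinearMap_smul, LinearMap.det_smul]
    simp
  simp only [h2, Fin.prod_univ_succ, dg]
  simp
  calc _ = (U * V) ^ 6 := by ring
    _ = 1 := by rw [h, one_pow]

theorem A_inv {U V : ℝ} (h : U * V = 1) (p : R6) : A V U (A U V p) = p := by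
  ext i
  simp only [A_apply]
  fin_cases i <;> simp [dg]
  · calc _ = (U * V) ^ 2 * p 0 := by ring
      _ = p 0 := by rw [h]; ring
  · calc _ = (U * V) * p 1 := by ring
      _ = p 1 := by rw [h]; ring
  · calc _ = (U * V) ^ 3 * p 2 := by ring
      _ = p 2 := by rw [h]; ring
  · calc _ = (U * V) ^ 2 * p 3 := by ring
      _ = p 3 := by rw [h]; ring
  · calc _ = (U * V) * p 4 := by ring
      _ = p 4 := by rw [h]; ring
  · calc _ = (U * V) ^ 3 * p 5 := by ring
      _ = p 5 := by rw [h]; ring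

theorem measurePreserving_aut (k : ℕ) : MeasurePreserving (aut k) volume volume := by
  refine measurePreserving_of_det ?_ fun p => ⟨A (Uk k) (Vk k), ?_, by rw [det_A (UV k)]; simp⟩
  · rw [aut_eq']
    refine ⟨fun p q h => ?_, fun q => ⟨A (Vk k) (Uk k) q, A_inv (by rw [mul_comm]; exact UV k) q⟩⟩
    have := congrArg (A (Vk k) (Uk k)) h
    rwa [A_inv (UV k), A_inv (UV k)] at this
  · rw [aut_eq']
    exact (A (Uk k) (Vk k)).hasFDerivAt

theorem isDiffeo_aut (k : ℕ) : IsDiffeo k (aut k) where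
  smooth := contDiff_aut k
  inverse := ⟨fun p => A (Vk k) (Uk k) p, (A (Vk k) (Uk k)).contDiff,
    fun p => by
      show A (Vk k) (Uk k) (aut k p) = p
      rw [aut_eq, A_inv (UV k)],
    fun p => by rw [aut_eq]; exact A_inv (by rw [mul_comm]; exact UV k) p⟩
  equivariant γ _ p := aut_mul k γ p
  volume := measurePreserving_aut k

/-! ### the derivative in the frame -/

/-- the derivative of `g` at `p` in the left invariant frame -/
def J (g : R6 → R6) (p : R6) : R6 →L[ℝ] R6 := (Ei (g p)).comp ((fderiv ℝ g p).comp (E p))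

theorem J_apply (g : R6 → R6) (p c : R6) : J g p c = Ei (g p) (fderiv ℝ g p (E p c)) := rfl

theorem J_mul_left (γ p : R6) : J (mul γ) p = ContinuousLinearMap.id ℝ R6 := by
  ext1 c
  rw [J_apply, fderiv_mul', ← E_mul, Ei_E]
  rfl

theorem J_comp {g h : R6 → R6} (p : R6) (hg : DifferentiableAt ℝ g (h p))
    (hh : DifferentiableAt ℝ h p) : J (fun q => g (h q)) p = (J g (h p)).comp (J h p) := by
  ext1 c
  rw [J_apply, fderiv_fun_comp p hg hh, ContinuousLinearMap.comp_apply, ContinuousLinearMap.comp_apply,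
    J_apply, J_apply, E_Ei]

theorem J_aut (k : ℕ) (p : R6) : J (aut k) p = A (Uk k) (Vk k) := by
  ext1 c
  rw [J_apply, fderiv_aut, aut_eq, A_E, Ei_E]

theorem contDiff_E : ContDiff ℝ (⊤ : ℕ∞) E := by
  unfold E
  fun_prop

theorem contDiff_Ei : ContDiff ℝ (⊤ : ℕ∞) Ei := by
  unfold Ei
  fun_prop

theorem continuous_J {g : R6 → R6} (hg : ContDiff ℝ (⊤ : ℕ∞) g) : Continuous (J g) := by
  unfold J
  have h1 : Continuous (fderiv ℝ g) := hg.continuous_fderiv (by simp)
  exact (contDiff_Ei.continuous.comp hg.continuous).clm_comp (h1.clm_comp contDiff_E.continuous)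

/-- joint smoothness of the derivative in the frame for a family -/
theorem contDiff_J_family {G : ℝ → R6 → R6} (hG : ContDiff ℝ (⊤ : ℕ∞) (fun x : ℝ × R6 => G x.1 x.2)) :
    ContDiff ℝ (⊤ : ℕ∞) (fun x : ℝ × R6 => J (G x.1) x.2) := by
  unfold J
  have h1 : ContDiff ℝ (⊤ : ℕ∞) (fun x : ℝ × R6 => fderiv ℝ (G x.1) x.2) := by
    have h2 : ContDiff ℝ (⊤ : ℕ∞) (Function.uncurry fun (x : ℝ × R6) (y : R6) => G x.1 y) :=
      hG.comp ((contDiff_fst.comp contDiff_fst).prodMk contDiff_snd)
    exact h2.fderiv contDiff_snd (by simp)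
  exact (contDiff_Ei.comp hG).clm_comp (h1.clm_comp (contDiff_E.comp contDiff_snd))

section Diffeo

variable {k : ℕ} {g : R6 → R6} (hg : IsDiffeo k g)

include hg in
theorem IsDiffeo.smul (γ : Lat) (p : R6) : g (γ • p) = autL k γ • g p := by
  rw [smul_def', smul_def', hg.equivariant _ (emb_mem γ), emb_autL]

include hg in
theorem IsDiffeo.differentiable : Differentiable ℝ g := hg.smooth.differentiable (by simp)

include hg in
theorem IsDiffeo.J_inv : Inv (J g) := by
  intro γ p
  have h1 : J (fun q => g (mul (emb γ) q)) p = (J g (mul (emb γ) p)).comp (J (mul (emb γ)) p) :=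
    J_comp p (hg.differentiable _) (hasFDerivAt_mul _ _).differentiableAt
  have h2 : (fun q => g (mul (emb γ) q)) = fun q => mul (aut k (emb γ)) (g q) := by
    funext q
    exact hg.equivariant _ (emb_mem γ) q
  have h3 : J (fun q => mul (aut k (emb γ)) (g q)) p =
      (J (mul (aut k (emb γ))) (g p)).comp (J g p) :=
    J_comp p (hasFDerivAt_mul _ _).differentiableAt (hg.differentiable _)
  rw [h2, h3, J_mul_left, J_mul_left, ContinuousLinearMap.id_comp, ContinuousLinearMap.comp_id] at h1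
  exact h1.symm

theorem isField_of_unstable {V : R6 → R6} (h : IsUnstable g V) :
    Continuous (fun p => Ei p (V p)) ∧ Inv (fun p => Ei p (V p)) ∧
      IsField g (J g) (fun p => Ei p (V p)) := by
  refine ⟨contDiff_Ei.continuous.clm_apply h.continuous, fun γ p => ?_, ⟨fun p => ?_, fun p => ?_, fun p => ?_⟩⟩
  · show Ei (γ • p) (V (γ • p)) = Ei p (V p)
    rw [smul_def', h.invariant _ (emb_mem γ), fderiv_mul', Ei_mul, Ei_E]
  · show Ei p (V p) 2 = 1
    rw [← comp_eq]
    exact h.normalised p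
  · show ‖Ei p (V p)‖ ≤ 1
    rw [← comp_eq, pi_norm_le_iff_of_nonneg zero_le_one]
    exact fun i => h.cone p i
  · show Ei (g p) (V (g p)) = nz (J g p (Ei p (V p)))
    obtain ⟨μ, hμ, h1⟩ := h.equation p
    rw [J_apply, E_Ei, h1, map_smul]
    have h2 : Ei (g p) (V (g p)) 2 = 1 := by
      rw [← comp_eq]
      exact h.normalised _
    rw [nz, Pi.smul_apply, h2, smul_eq_mul, mul_one, smul_smul, inv_mul_cancel₀ hμ.ne', one_smul]

theorem unstable_of_field {w : R6 → R6} (hc : Continuous w) (hi : Inv w) (hw : IsField g (J g) w)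
    (hp : ∀ p, 0 < J g p (w p) 2) : IsUnstable g (fun p => E p (w p)) where
  continuous := contDiff_E.continuous.clm_apply hc
  invariant γ hγ p := by
    rw [← range_emb] at hγ
    obtain ⟨γ, rfl⟩ := hγ
    rw [fderiv_mul']
    have := hi γ p
    rw [smul_def'] at this
    rw [this, E_mul]
  normalised p := by rw [comp_eq, Ei_E]; exact hw.two p
  cone p i := by
    rw [comp_eq, Ei_E]
    exact (norm_le_pi_norm (w p) i).trans (hw.norm p)
  equation p := by
    refine ⟨J g p (w p) 2, hp p, ?_⟩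
    rw [hw.eqn p, nz, map_smul, smul_smul, mul_inv_cancel₀ (hp p).ne', one_smul, J_apply, E_Ei]

/-- the Euclidean norm -/
def en (c : R6) : ℝ := √(∑ i, c i ^ 2)

theorem rnorm_eq (p v : R6) : rnorm p v = en (Ei p v) := by
  rw [rnorm, comp_eq, en]

theorem en_smul (a : ℝ) (ha : 0 ≤ a) (c : R6) : en (a • c) = a * en c := by
  have : ∑ i, (a • c) i ^ 2 = a ^ 2 * ∑ i, c i ^ 2 := by
    rw [Finset.mul_sum]
    refine Finset.sum_congr rfl fun i _ => ?_
    rw [Pi.smul_apply, smul_eq_mul, mul_pow]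
  rw [en, this, Real.sqrt_mul (sq_nonneg a), Real.sqrt_sq ha, en]

theorem en_pos {c : R6} (h : c 2 = 1) : 0 < en c := by
  refine Real.sqrt_pos.2 ?_
  have : c 2 ^ 2 ≤ ∑ i, c i ^ 2 := Finset.single_le_sum (fun i _ => sq_nonneg (c i)) (Finset.mem_univ _)
  rw [h] at this
  linarith

theorem continuous_en : Continuous en := by
  unfold en
  fun_prop

theorem integrableOn_dom {F : R6 → ℝ} (hF : Continuous F) : IntegrableOn F dom :=
  (hF.continuousOn.integrableOn_compact isCompact_bigBox).mono_set dom_subset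

end Diffeo

/-- the unstable field, and the formula for the exponent -/
theorem lamU_formula {k : ℕ} (hk : 1 ≤ k) {g : R6 → R6} (hg : IsDiffeo k g)
    (hJ : ∀ p, ‖J g p - A (Uk k) (Vk k)‖ ≤ 1) :
    ∃ w : R6 → R6, Continuous w ∧ Inv w ∧ IsField g (J g) w ∧ (∀ p, 26 ≤ J g p (w p) 2) ∧
      IsUnstable g (fun p => E p (w p)) ∧ (∀ V, IsUnstable g V → V = fun p => E p (w p)) ∧
      lamU g = ⨍ p in dom, Real.log (J g p (w p) 2) := by
  have hU := Uk_ge hk
  have hV := Vk_nonneg k
  have hV1 := Vk_le k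
  obtain ⟨S, hS, hST, hTS⟩ := hg.inverse
  obtain ⟨w, hwc, hw⟩ := field_exists hU hV hV1 hST hJ hS.continuous (continuous_J hg.smooth)
  have hi : Inv w := field_invariant hU hV hV1 hTS hJ hw (autL k).surjective hg.smul hg.J_inv
  have h26 : ∀ p, 26 ≤ J g p (w p) 2 := fun p => by
    have h1 := two_ge (hJ p) (hw.two p) (hw.norm p)
    have h2 := cube_bound hU
    linarith
  have hp : ∀ p, 0 < J g p (w p) 2 := fun p => by linarith [h26 p]
  have huns := unstable_of_field hwc hi hw hp
  have huniq : ∀ V, IsUnstable g V → V = fun p => E p (w p) := by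
    intro V hV'
    have h1 := field_unique hU hV hV1 hTS hJ (isField_of_unstable hV').2.2 hw
    funext p
    have h2 := congrFun h1 p
    rw [← h2, E_Ei]
  refine ⟨w, hwc, hi, hw, h26, huns, huniq, ?_⟩
  have hex : ∃ V, IsUnstable g V := ⟨_, huns⟩
  rw [lamU, dif_pos hex]
  have hch := huniq _ hex.choose_spec
  rw [hch]
  have hlog : ∀ p, Real.log (rnorm (g p) (fderiv ℝ g p (E p (w p))) / rnorm p (E p (w p))) =
      Real.log (J g p (w p) 2) + Real.log (en (w (g p))) - Real.log (en (w p)) := by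
    intro p
    rw [rnorm_eq, rnorm_eq, Ei_E, ← J_apply]
    have h1 : J g p (w p) = (J g p (w p) 2) • w (g p) := by
      rw [hw.eqn p, nz, smul_smul, mul_inv_cancel₀ (hp p).ne', one_smul]
    have h3 := en_pos (hw.two (g p))
    have h4 := en_pos (hw.two p)
    rw [Real.log_div _ h4.ne']
    · congr 1
      conv_lhs => rw [h1, en_smul _ (hp p).le]
      rw [Real.log_mul (hp p).ne' h3.ne']
    · rw [h1, en_smul _ (hp p).le]
      exact (mul_pos (hp p) h3).ne'
  simp only [hlog]
  have hlw : Continuous fun p => Real.log (en (w p)) :=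
    (continuous_en.comp hwc).log fun p => (en_pos (hw.two p)).ne'
  have hJw : Continuous fun p => Real.log (J g p (w p) 2) :=
    ((continuous_apply 2).comp ((continuous_J hg.smooth).clm_apply hwc)).log fun p => (hp p).ne'
  have hgw : Continuous fun p => Real.log (en (w (g p))) := hlw.comp hg.smooth.continuous
  have hinv : Inv fun p => Real.log (en (w p)) := fun γ p => by
    show Real.log (en (w (γ • p))) = _
    rw [hi]
  have hcomp := setIntegral_comp hg.volume (autL k) hg.smul hinv hlw.measurable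
  have e1 : ∫ p in dom, (Real.log (J g p (w p) 2) + Real.log (en (w (g p))) - Real.log (en (w p))) =
      ∫ p in dom, Real.log (J g p (w p) 2) := by
    rw [integral_sub (f := fun p => Real.log (J g p (w p) 2) + Real.log (en (w (g p))))
      (g := fun p => Real.log (en (w p))) ((integrableOn_dom hJw).add (integrableOn_dom hgw))
      (integrableOn_dom hlw), integral_add (integrableOn_dom hJw) (integrableOn_dom hgw), hcomp]
    ring
  rw [setAverage_eq, setAverage_eq, e1]

end Pool.Agent.H5.NM
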