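import Pool.Agent.H5.NM.Est

set_option autoImplicit false

noncomputable section

open MeasureTheory Set Filter Topology

namespace Pool.Agent.H5.NM

/-! ### the second order term -/

/-- the component along `Z` of the image of `Z` is `1 + t * MM t q` -/
def MM (t : ℝ) (q : R6) : ℝ := -(A1 t q 3) * φ1z q * (A2 t (A1 t q) 1 - A1 t q 1)

theorem J_hh_e2 {t : ℝ} {q : R6} (hq : q ∈ box) : J (hh t) q e2 2 = 1 + t * MM t q := by
  rw [J_hh_box hq, ContinuousLinearMap.comp_apply, J_A2_two, (J_A1_e2 t q).1, (J_A1_e2 t q).2, MM]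
  ring

theorem contDiff_A1 : ContDiff ℝ (⊤ : ℕ∞) (fun x : ℝ × R6 => A1 x.1 x.2) := loc_A1.smooth

theorem contDiff_A21_a : ContDiff ℝ (⊤ : ℕ∞) (fun x : ℝ × R6 => (x.1, A1 x.1 x.2)) :=
  contDiff_fst.prodMk contDiff_A1

theorem contDiff_A21_b : ContDiff ℝ (⊤ : ℕ∞)
    ((fun x : ℝ × R6 => A2 x.1 x.2) ∘ fun x : ℝ × R6 => (x.1, A1 x.1 x.2)) :=
  ContDiff.comp contDiff_A2 contDiff_A21_a

theorem contDiff_A21 : ContDiff ℝ (⊤ : ℕ∞) (fun x : ℝ × R6 => A2 x.1 (A1 x.1 x.2)) :=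
  contDiff_A21_b

theorem contDiff_φ1z : ContDiff ℝ (⊤ : ℕ∞) φ1z := by
  unfold φ1z
  exact (contDiff_φ1.fderiv_right (m := ((⊤ : ℕ∞) : WithTop ℕ∞)) (by simp)).clm_apply contDiff_const

theorem contDiff_coord {f : ℝ × R6 → R6} (hf : ContDiff ℝ (⊤ : ℕ∞) f) (i : Fin 6) :
    ContDiff ℝ (⊤ : ℕ∞) (fun x => f x i) := (contDiff_pi.1 hf) i

theorem contDiff_MM : ContDiff ℝ (⊤ : ℕ∞) (fun x : ℝ × R6 => MM x.1 x.2) := by
  unfold MM
  have h1 := contDiff_coord contDiff_A1 3
  have h2 := contDiff_coord contDiff_A21 1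
  have h3 := contDiff_coord contDiff_A1 1
  have h4 : ContDiff ℝ (⊤ : ℕ∞) (fun x : ℝ × R6 => φ1z x.2) := contDiff_φ1z.comp contDiff_snd
  exact (h1.neg.mul h4).mul (h2.sub h3)

theorem MM_zero (q : R6) : MM 0 q = 0 := by
  rw [MM, A2_zero, sub_self, mul_zero]

/-- the density of the second order term -/
def mm (q : R6) : ℝ := q 3 ^ 2 * φ1z q * φ2 (Sh q)

theorem A1_1 (t : ℝ) (q : R6) : A1 t q 1 = q 1 := by
  rw [A1_eq]; rfl

theorem A1_3 (t : ℝ) (q : R6) :
    A1 t q 3 = q 0 * Real.sin (t * φ1 q) + q 3 * Real.cos (t * φ1 q) := by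
  rw [A1_eq]; rfl

/-- the derivative in the parameter of a smooth family -/
theorem slice {W : Type*} [NormedAddCommGroup W] [NormedSpace ℝ W] {Φ : ℝ → R6 → W}
    (hΦ : ContDiff ℝ (⊤ : ℕ∞) (fun x : ℝ × R6 => Φ x.1 x.2)) (q : R6) (t : ℝ) :
    HasDerivAt (fun t => Φ t q)
      (fderiv ℝ (fun x : ℝ × R6 => Φ x.1 x.2) (t, q) ((1 : ℝ), (0 : R6))) t := by
  have h1 : HasDerivAt (fun t : ℝ => (t, q)) ((1 : ℝ), (0 : R6)) t :=
    (hasDerivAt_id t).prodMk (hasDerivAt_const t q)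
  have h2 : HasFDerivAt (fun x : ℝ × R6 => Φ x.1 x.2)
      (fderiv ℝ (fun x : ℝ × R6 => Φ x.1 x.2) (t, q)) (t, q) :=
    ((hΦ.differentiable (by simp)) (t, q)).hasFDerivAt
  have h3 : HasDerivAt ((fun x : ℝ × R6 => Φ x.1 x.2) ∘ fun t : ℝ => (t, q))
      (fderiv ℝ (fun x : ℝ × R6 => Φ x.1 x.2) (t, q) ((1 : ℝ), (0 : R6))) t :=
    h2.comp_hasDerivAt t h1
  exact h3

theorem contDiff_ang_a : ContDiff ℝ (⊤ : ℕ∞) (fun q => φ2 (Sh q)) := contDiff_φ2.comp contDiff_Sh

theorem contDiff_ang_b : ContDiff ℝ (⊤ : ℕ∞)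
    ((fun q => φ2 (Sh q)) ∘ fun x : ℝ × R6 => A1 x.1 x.2) :=
  contDiff_ang_a.comp contDiff_A1

theorem contDiff_ang : ContDiff ℝ (⊤ : ℕ∞) (fun x : ℝ × R6 => φ2 (Sh (A1 x.1 x.2))) :=
  contDiff_ang_b

theorem hasDerivAt_MM (q : R6) : HasDerivAt (fun t => MM t q) (mm q) 0 := by
  have hphi : DifferentiableAt ℝ (fun t => φ2 (Sh (A1 t q))) 0 :=
    (slice (Φ := fun t q => φ2 (Sh (A1 t q))) contDiff_ang q 0).differentiableAt
  have h0 : A1 0 q = q := A1_zero q
  have hang : HasDerivAt (fun t : ℝ => t * φ2 (Sh (A1 t q))) (φ2 (Sh q)) 0 := by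
    have h1 := (hasDerivAt_id' (0 : ℝ)).fun_mul hphi.hasDerivAt
    refine h1.congr_deriv ?_
    rw [h0]
    ring
  have hcos : HasDerivAt (fun t : ℝ => Real.cos (t * φ2 (Sh (A1 t q)))) 0 0 := by
    have := hang.cos
    simpa using this
  have hsin : HasDerivAt (fun t : ℝ => Real.sin (t * φ2 (Sh (A1 t q)))) (φ2 (Sh q)) 0 := by
    have := hang.sin
    simpa using this
  have hx3 : HasDerivAt (fun t : ℝ => A1 t q 3) (deriv (fun t : ℝ => A1 t q 3) 0) 0 := by
    have : DifferentiableAt ℝ (fun t : ℝ => A1 t q 3) 0 :=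
      (slice (Φ := fun t q => A1 t q 3) (contDiff_coord contDiff_A1 3) q 0).differentiableAt
    exact this.hasDerivAt
  have hδ : HasDerivAt (fun t : ℝ => A2 t (A1 t q) 1 - A1 t q 1) (-(q 3 * φ2 (Sh q))) 0 := by
    have h1 : (fun t : ℝ => A2 t (A1 t q) 1 - A1 t q 1) = fun t : ℝ =>
        q 1 * Real.cos (t * φ2 (Sh (A1 t q))) - A1 t q 3 * Real.sin (t * φ2 (Sh (A1 t q))) - q 1 := by
      funext t
      rw [A2_1, A1_1]
    rw [h1]
    have h2 := ((hcos.const_mul (q 1)).fun_sub (hx3.fun_mul hsin)).sub_const (q 1)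
    refine h2.congr_deriv ?_
    rw [h0]
    simp
  have h3 := (hx3.fun_neg.mul_const (φ1z q)).fun_mul hδ
  refine h3.congr_deriv ?_
  rw [h0, A2_zero, sub_self, mm]
  ring

theorem φ1z_eq {q : R6} (hq : q 2 ^ 2 < (1 / 16) ^ 2) : φ1z q = aa q := by
  have hd : HasFDerivAt φ1 (fderiv ℝ φ1 q) (q + (0 : ℝ) • e2) := by
    rw [zero_smul, add_zero]
    exact ((contDiff_φ1.differentiable (by simp)) q).hasFDerivAt
  have h1 : HasDerivAt (fun s : ℝ => q + s • e2) e2 0 := by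
    simpa using ((hasDerivAt_id (0 : ℝ)).smul_const e2).const_add q
  have h2' : HasDerivAt (φ1 ∘ fun s : ℝ => q + s • e2) (fderiv ℝ φ1 q e2) 0 :=
    hd.comp_hasDerivAt 0 h1
  have h2 : HasDerivAt (fun s : ℝ => φ1 (q + s • e2)) (φ1z q) 0 := h2'
  have h3 : HasDerivAt (fun s : ℝ => aa q * (q 2 + s)) (aa q) 0 := by
    simpa using ((hasDerivAt_id (0 : ℝ)).const_add (q 2)).const_mul (aa q)
  refine h2.unique (h3.congr_of_eventuallyEq ?_)
  have ho : IsOpen {s : ℝ | (q 2 + s) ^ 2 < (1 / 16) ^ 2} := isOpen_lt (by fun_prop) continuous_const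
  filter_upwards [ho.mem_nhds (by simpa using hq)] with s hs
  have ht : (q + s • e2) 2 = q 2 + s := by simp [e2]
  have hn : ∀ j : Fin 6, j ≠ 2 → (q + s • e2) j = q j := fun j hj => by simp [e2, hj]
  have hst : st (2 - 256 * (q 2 + s) ^ 2) = 1 := by
    refine Real.smoothTransition.one_of_one_le ?_
    have h5 : (q 2 + s) ^ 2 < (1 / 16) ^ 2 := hs
    linarith
  rw [φ1, ht, hst, mul_one, aa, aa, hn 0 (by decide), hn 1 (by decide), hn 3 (by decide),
    hn 4 (by decide), hn 5 (by decide)]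

theorem mm_nonneg (q : R6) : 0 ≤ mm q := by
  unfold mm
  by_cases h : φ2 (Sh q) = 0
  · rw [h, mul_zero]
  · obtain ⟨h1, h2, h3, -, -⟩ := φ2_supp h
    rw [Sh_ne (by decide), Sh_ne (by decide)] at h1
    rw [Sh_ne (by decide)] at h2
    rw [Sh_two] at h3
    have h8 : (0 : ℝ) < 1 / 8 := by norm_num
    have a0 := abs_lt_of_sq h8 h2
    have a1 := abs_lt_of_sq h8 (show q 1 ^ 2 < _ by nlinarith [sq_nonneg (q 3)])
    have a2 := abs_lt_of_sq (by norm_num) h3
    have a2' : |q 2| < 1 / 16 := by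
      have e1 : q 2 = (q 2 - q 0 * q 1) + q 0 * q 1 := by ring
      have e3 : |q 0 * q 1| ≤ 1 / 8 * (1 / 8) := by
        rw [abs_mul]
        exact mul_le_mul a0.le a1.le (abs_nonneg _) h8.le
      rw [e1]
      refine lt_of_le_of_lt (abs_add_le _ _) ?_
      linarith
    have h5 : q 2 ^ 2 < (1 / 16) ^ 2 := by
      rw [← sq_abs (q 2)]
      exact pow_lt_pow_left₀ a2' (abs_nonneg _) (by norm_num)
    rw [φ1z_eq h5]
    exact mul_nonneg (mul_nonneg (sq_nonneg _) (aa_nonneg q)) (φ2_nonneg _)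

theorem continuous_mm : Continuous mm := by
  unfold mm
  exact (((continuous_apply 3).pow 2).mul contDiff_φ1z.continuous).mul
    (contDiff_φ2.comp contDiff_Sh).continuous

/-- a point where the density is positive -/
def qs : R6 := ![0, 0, 0, 1 / 16, 0, 0]

theorem mm_qs : 0 < mm qs := by
  have hp : ∀ {x : ℝ}, 0 < x → 0 < st x := fun h => Real.smoothTransition.pos_of_pos h
  have h3 : qs 3 = 1 / 16 := by simp [qs]
  have h2 : qs 2 = 0 := by simp [qs]
  have h0 : qs 0 = 0 := by simp [qs]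
  have h1 : qs 1 = 0 := by simp [qs]
  have h4 : qs 4 = 0 := by simp [qs]
  have h5 : qs 5 = 0 := by simp [qs]
  rw [mm, φ1z_eq (by rw [h2]; norm_num)]
  refine mul_pos (mul_pos (by rw [h3]; norm_num) ?_) ?_
  · rw [aa, h0, h1, h3, h4, h5]
    exact mul_pos (mul_pos (mul_pos (hp (by norm_num)) (hp (by norm_num))) (hp (by norm_num)))
      (hp (by norm_num))
  · rw [φ2, Sh_two, Sh_ne (by decide), Sh_ne (by decide), Sh_ne (by decide), Sh_ne (by decide),
      Sh_ne (by decide), h0, h1, h2, h3, h4, h5]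
    exact mul_pos (mul_pos (mul_pos (mul_pos (hp (by norm_num)) (hp (by norm_num)))
      (hp (by norm_num))) (hp (by norm_num))) (hp (by norm_num))

theorem qs_mem : qs ∈ box := by
  intro i
  fin_cases i <;> (simp [qs]; try norm_num [abs_of_pos])

theorem integrableOn_box {F : R6 → ℝ} (hF : Continuous F) : IntegrableOn F box :=
  (integrableOn_dom hF).mono_set box_subset

theorem integral_mm_pos : 0 < ∫ q in box, mm q := by
  rw [setIntegral_pos_iff_support_of_nonneg_ae (Eventually.of_forall fun q => mm_nonneg q)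
    (integrableOn_box continuous_mm)]
  have ho : IsOpen (Function.support mm ∩ box) := continuous_mm.isOpen_support.inter box_open
  exact ho.measure_pos volume ⟨qs, mm_qs.ne', qs_mem⟩

/-- the integral over the box -/
def II (t : ℝ) : ℝ := ∫ q in box, MM t q

theorem box_measurable : MeasurableSet box := box_open.measurableSet

theorem volume_box_lt_top : volume box < ⊤ := (measure_mono box_subset).trans_lt volume_dom_lt_top

theorem hasDerivAt_box {Φ : ℝ → R6 → ℝ} (hΦ : ContDiff ℝ (⊤ : ℕ∞) (fun x : ℝ × R6 => Φ x.1 x.2)) :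
    HasDerivAt (fun t => ∫ q in box, Φ t q)
      (∫ q in box, fderiv ℝ (fun x : ℝ × R6 => Φ x.1 x.2) (0, q) ((1 : ℝ), (0 : R6))) 0 := by
  have hcm : Continuous fun x : ℝ × R6 => fderiv ℝ (fun x : ℝ × R6 => Φ x.1 x.2) x ((1 : ℝ), (0 : R6)) :=
    (hΦ.continuous_fderiv (by simp)).clm_apply continuous_const
  obtain ⟨C, hC⟩ := (isCompact_closedBall (0 : ℝ × R6) 2).exists_bound_of_continuousOn hcm.continuousOn
  exact (hasDerivAt_integral_of_dominated_loc_of_deriv_le (μ := volume.restrict box)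
    (F := fun (t : ℝ) q => Φ t q)
    (F' := fun (t : ℝ) q => fderiv ℝ (fun x : ℝ × R6 => Φ x.1 x.2) (t, q) ((1 : ℝ), (0 : R6)))
    (x₀ := (0 : ℝ)) (s := Metric.ball 0 1) (bound := fun _ => C) (Metric.ball_mem_nhds 0 one_pos)
    (Eventually.of_forall fun t =>
      (hΦ.continuous.comp (Continuous.prodMk_right t)).aestronglyMeasurable)
    (integrableOn_box (hΦ.continuous.comp (Continuous.prodMk_right 0)))
    ((hcm.comp (Continuous.prodMk_right 0)).aestronglyMeasurable)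
    (by
      refine (ae_restrict_iff' box_measurable).2 (Eventually.of_forall fun q hq t ht => ?_)
      refine hC _ ?_
      have hq2 := dom_subset (box_subset hq)
      rw [bigBox, mem_closedBall_zero_iff] at hq2
      rw [mem_ball_zero_iff, Real.norm_eq_abs] at ht
      rw [mem_closedBall_zero_iff, Prod.norm_mk, Real.norm_eq_abs]
      exact max_le (by linarith) hq2)
    (integrableOn_const (hs := volume_box_lt_top.ne))
    (Eventually.of_forall fun q t _ => slice hΦ q t)).2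

theorem hasDerivAt_II : HasDerivAt II (∫ q in box, mm q) 0 := by
  have h0 : ∀ q : R6, fderiv ℝ (fun x : ℝ × R6 => MM x.1 x.2) (0, q) ((1 : ℝ), (0 : R6)) = mm q :=
    fun q => (slice contDiff_MM q 0).unique (hasDerivAt_MM q)
  have hder := hasDerivAt_box contDiff_MM
  simp only [h0] at hder
  exact hder

theorem II_zero : II 0 = 0 := by
  simp [II, MM_zero]

theorem exists_CM : ∃ C : ℝ, 0 ≤ C ∧ ∀ t, |t| ≤ 1 → ∀ q ∈ box, |MM t q| ≤ C * |t| := by
  set K : Set (ℝ × R6) := Metric.closedBall 0 2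
  have hK : IsCompact K := isCompact_closedBall 0 2
  have hc : ContinuousOn (fderiv ℝ (fun x : ℝ × R6 => MM x.1 x.2)) K :=
    (contDiff_MM.continuous_fderiv (by simp)).continuousOn
  obtain ⟨C, hC⟩ := hK.exists_bound_of_continuousOn hc
  refine ⟨max C 0, le_max_right _ _, fun t ht q hq => ?_⟩
  have hp2 := dom_subset (box_subset hq)
  rw [bigBox, mem_closedBall_zero_iff] at hp2
  have h1 : ((0 : ℝ), q) ∈ K := by
    rw [mem_closedBall_zero_iff, Prod.norm_mk]
    simpa using hp2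
  have h2 : (t, q) ∈ K := by
    rw [mem_closedBall_zero_iff, Prod.norm_mk, Real.norm_eq_abs]
    exact max_le (by linarith) hp2
  have h3 := (convex_closedBall (0 : ℝ × R6) 2).norm_image_sub_le_of_norm_fderiv_le
    (f := fun x : ℝ × R6 => MM x.1 x.2) (C := max C 0)
    (fun x _ => (contDiff_MM.differentiable (by simp)) x) (fun x hx => (hC x hx).trans (le_max_left _ _)) h1 h2
  rw [MM_zero, sub_zero, Real.norm_eq_abs] at h3
  refine h3.trans (le_of_eq ?_)
  rw [Prod.mk_sub_mk, sub_self, sub_zero, Prod.norm_mk, norm_zero, Real.norm_eq_abs,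
    max_eq_left (abs_nonneg t)]

end Pool.Agent.H5.NM
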