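import Pool.Agent.H5.NM.Loc

set_option autoImplicit false

noncomputable section

open MeasureTheory Set Filter Topology

namespace Pool.Agent.H5.NM

theorem Uk_ge_pow (k : ℕ) : (3 : ℝ) ^ k ≤ Uk k :=
  pow_le_pow_left₀ (by norm_num) (by linarith [sq3_bounds.1]) k

/-- the lower bound of the integral for a fixed parameter -/
theorem integral_lower_gen {D : R6 → R6 →L[ℝ] R6} {M : R6 → ℝ} (hDc : Continuous D)
    (hMc : Continuous M) {C C2 U t : ℝ} (hC : 0 ≤ C) (hU : 3 ≤ U)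
    (hJ : ∀ q, ‖D q - ContinuousLinearMap.id ℝ R6‖ ≤ C * |t|)
    (hout : ∀ q ∈ dom, q ∉ box → D q = ContinuousLinearMap.id ℝ R6)
    (hbox : ∀ q ∈ box, D q e2 2 = 1 + t * M q)
    (hM : ∀ q ∈ box, |M q| ≤ C2 * |t|) (hs : (C2 + 2 * C ^ 2) * t ^ 2 ≤ 1 / 2)
    {w : R6 → R6} (hwc : Continuous w) (hw2 : ∀ q, w q 2 = 1)
    (hwe : ∀ q, ‖w q - e2‖ ≤ 2 * (C * |t|) / U) (hpos : ∀ q, 0 < D q (w q) 2) :
    t * (∫ q in box, M q) -
      (2 * C ^ 2 * t ^ 2 / U + 2 * ((C2 + 2 * C ^ 2) * t ^ 2) ^ 2) * volume.real box ≤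
      ∫ q in dom, Real.log (D q (w q) 2) := by
  have hU0 : 0 < U := by linarith
  have ha := abs_nonneg t
  set R := 2 * C ^ 2 * t ^ 2 / U + 2 * ((C2 + 2 * C ^ 2) * t ^ 2) ^ 2 with hR
  have hY : Continuous fun q => Real.log (D q (w q) 2) :=
    ((continuous_apply 2).comp (hDc.clm_apply hwc)).log fun q => (hpos q).ne'
  have h1 : ∫ q in dom, Real.log (D q (w q) 2) = ∫ q in box, Real.log (D q (w q) 2) := by
    refine setIntegral_eq_of_subset_of_forall_sdiff_eq_zero dom_measurable box_subset fun q hq => ?_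
    rw [hout q hq.1 hq.2, ContinuousLinearMap.id_apply, hw2, Real.log_one]
  have h2 : t * (∫ q in box, M q) - R * volume.real box = ∫ q in box, (t * M q - R) := by
    rw [integral_sub (f := fun q => t * M q) (g := fun _ => R)
      ((integrableOn_box hMc).const_mul t) (integrableOn_box continuous_const),
      integral_const_mul, setIntegral_const, smul_eq_mul, mul_comm R]
  rw [h1, h2]
  refine setIntegral_mono_on (f := fun q => t * M q - R) (g := fun q => Real.log (D q (w q) 2))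
    ((integrableOn_box (continuous_const.mul hMc)).sub
    (integrableOn_box continuous_const)) (integrableOn_box hY) box_measurable fun q hq => ?_
  obtain ⟨r, hr⟩ : ∃ r, r = D q (w q) 2 - 1 - t * M q := ⟨_, rfl⟩
  have hrb : |r| ≤ 2 * C ^ 2 * t ^ 2 / U := by
    have e1 : r = (D q - ContinuousLinearMap.id ℝ R6) (w q - e2) 2 := by
      rw [hr, _root_.sub_apply, map_sub, map_sub, ContinuousLinearMap.id_apply,
        ContinuousLinearMap.id_apply, Pi.sub_apply, Pi.sub_apply, Pi.sub_apply, hw2, e2_two,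
        hbox q hq]
      ring
    rw [e1, ← Real.norm_eq_abs]
    refine (norm_le_pi_norm _ 2).trans (((D q - ContinuousLinearMap.id ℝ R6).le_opNorm _).trans ?_)
    refine (mul_le_mul (hJ q) (hwe q) (norm_nonneg _) (by positivity)).trans (le_of_eq ?_)
    rw [← sq_abs t]
    ring
  have hrb' : |r| ≤ 2 * C ^ 2 * t ^ 2 := by
    refine hrb.trans ?_
    rw [div_le_iff₀ hU0]
    have : 0 ≤ 2 * C ^ 2 * t ^ 2 := by positivity
    nlinarith
  have htM : |t * M q| ≤ C2 * t ^ 2 := by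
    rw [abs_mul]
    calc |t| * |M q| ≤ |t| * (C2 * |t|) := mul_le_mul_of_nonneg_left (hM q hq) ha
      _ = C2 * |t| ^ 2 := by ring
      _ = C2 * t ^ 2 := by rw [sq_abs]
  obtain ⟨s, hs'⟩ : ∃ s, s = t * M q + r := ⟨_, rfl⟩
  have hsb : |s| ≤ (C2 + 2 * C ^ 2) * t ^ 2 := by
    rw [hs']
    refine (abs_add_le _ _).trans ?_
    linarith
  have hYs : D q (w q) 2 = 1 + s := by
    rw [hs', hr]; ring
  have h5 := abs_log_one_add_sub (s := s) (hsb.trans hs)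
  rw [abs_le] at h5
  have h6 : s ^ 2 ≤ ((C2 + 2 * C ^ 2) * t ^ 2) ^ 2 := sq_le_sq' (abs_le.1 hsb).1 (abs_le.1 hsb).2
  have h7 := (abs_le.1 hrb).1
  show t * M q - R ≤ Real.log (D q (w q) 2)
  rw [hYs, hR]
  linarith [h5.1]

theorem integral_lower {C C2 U t : ℝ} (hC : 0 ≤ C) (hU : 3 ≤ U)
    (hJ : ∀ q, ‖J (hh t) q - ContinuousLinearMap.id ℝ R6‖ ≤ C * |t|)
    (hM : ∀ q ∈ box, |MM t q| ≤ C2 * |t|) (hs : (C2 + 2 * C ^ 2) * t ^ 2 ≤ 1 / 2)
    {w : R6 → R6} (hwc : Continuous w) (hw2 : ∀ q, w q 2 = 1)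
    (hwe : ∀ q, ‖w q - e2‖ ≤ 2 * (C * |t|) / U) (hpos : ∀ q, 0 < J (hh t) q (w q) 2) :
    t * II t - (2 * C ^ 2 * t ^ 2 / U + 2 * ((C2 + 2 * C ^ 2) * t ^ 2) ^ 2) * volume.real box ≤
      ∫ q in dom, Real.log (J (hh t) q (w q) 2) :=
  integral_lower_gen (continuous_J (isDiffeo_hh t).smooth)
    (contDiff_MM.continuous.comp (Continuous.prodMk_right t)) hC hU hJ
    (fun _ h h' => J_hh_out h h') (fun _ h => J_hh_e2 h) hM hs hwc hw2 hwe hpos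

theorem lower : ∃ k₀ : ℕ, 1 ≤ k₀ ∧ ∀ k, k₀ ≤ k → ∃ c : ℝ, 0 < c ∧
    ∀ᶠ t in 𝓝[≠] (0 : ℝ), Real.log (Uk k ^ 3) + c * t ^ 2 < lamU (gk k t) := by
  obtain ⟨C, hC, hCJ⟩ := exists_C
  obtain ⟨C2, hC2, hCM⟩ := exists_CM
  set v := volume.real box with hv
  have hv0 : 0 ≤ v := ENNReal.toReal_nonneg
  set V := volume.real dom with hVd
  have hV0 : 0 < V := ENNReal.toReal_pos volume_dom_pos.ne' volume_dom_lt_top.ne
  set μ := ∫ q in box, mm q with hμ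
  have hμ0 : 0 < μ := integral_mm_pos
  obtain ⟨k₁, hk₁⟩ := pow_unbounded_of_one_lt (16 * C ^ 2 * v / μ) (by norm_num : (1 : ℝ) < 3)
  refine ⟨max 1 k₁, le_max_left _ _, fun k hk => ?_⟩
  have hk1 : 1 ≤ k := (le_max_left _ _).trans hk
  have hU := Uk_ge hk1
  have hU0 : 0 < Uk k := by linarith
  have hUv : 16 * C ^ 2 * v ≤ μ * Uk k := by
    have h1 : (3 : ℝ) ^ k₁ ≤ 3 ^ k := pow_le_pow_right₀ (by norm_num) ((le_max_right _ _).trans hk)
    have h2 := Uk_ge_pow k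
    have h3 : 16 * C ^ 2 * v / μ ≤ Uk k := by linarith
    rw [div_le_iff₀ hμ0] at h3
    linarith
  refine ⟨μ / (8 * V), by positivity, ?_⟩
  set C3 := C2 + 2 * C ^ 2 with hC3
  have o1 : ∀ᶠ t : ℝ in 𝓝 0, |t| < 1 :=
    (isOpen_lt (by fun_prop) continuous_const : IsOpen {t : ℝ | |t| < 1}).mem_nhds (by simp)
  have o2 : ∀ᶠ t : ℝ in 𝓝 0, C * |t| * Uk k ^ 3 < 1 :=
    (isOpen_lt (by fun_prop) continuous_const : IsOpen {t : ℝ | C * |t| * Uk k ^ 3 < 1}).mem_nhds (by simp)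
  have o3 : ∀ᶠ t : ℝ in 𝓝 0, C3 * t ^ 2 < 1 / 2 :=
    (isOpen_lt (by fun_prop) continuous_const : IsOpen {t : ℝ | C3 * t ^ 2 < 1 / 2}).mem_nhds (by simp)
  have o4 : ∀ᶠ t : ℝ in 𝓝 0, 2 * C3 ^ 2 * t ^ 2 * v < μ / 8 :=
    (isOpen_lt (by fun_prop) continuous_const : IsOpen {t : ℝ | 2 * C3 ^ 2 * t ^ 2 * v < μ / 8}).mem_nhds
      (by simp [hμ0])
  have o5 : ∀ᶠ t : ℝ in 𝓝 0, ‖II t - II 0 - (t - 0) • μ‖ ≤ μ / 2 * ‖t - 0‖ :=
    (hasDerivAt_iff_isLittleO.1 hasDerivAt_II).def (by positivity)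
  have o6 : ∀ᶠ t : ℝ in 𝓝[≠] 0, t ≠ 0 := eventually_mem_nhdsWithin
  filter_upwards [nhdsWithin_le_nhds o1, nhdsWithin_le_nhds o2, nhdsWithin_le_nhds o3,
    nhdsWithin_le_nhds o4, nhdsWithin_le_nhds o5, o6] with t h1 h2 h3 h4 h5 h6
  obtain ⟨w, hwc, hw2, -, hwe, hpos, hlam⟩ := lamU_gk hk1 h2.le (hCJ t h1.le)
  have hint := integral_lower hC hU (hCJ t h1.le) (hCM t h1.le) h3.le hwc hw2 hwe hpos
  rw [II_zero, sub_zero, sub_zero, smul_eq_mul, Real.norm_eq_abs, Real.norm_eq_abs] at h5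
  have ht2 : 0 < t ^ 2 := by positivity
  have hII : μ / 2 * t ^ 2 ≤ t * II t := by
    have e1 : |t * (II t - t * μ)| ≤ μ / 2 * t ^ 2 := by
      rw [abs_mul]
      calc |t| * |II t - t * μ| ≤ |t| * (μ / 2 * |t|) := mul_le_mul_of_nonneg_left h5 (abs_nonneg t)
        _ = μ / 2 * |t| ^ 2 := by ring
        _ = μ / 2 * t ^ 2 := by rw [sq_abs]
    have e2' := (abs_le.1 e1).1
    nlinarith
  have hR1 : 2 * C ^ 2 * t ^ 2 / Uk k * v ≤ μ / 8 * t ^ 2 := by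
    rw [div_mul_eq_mul_div, div_le_iff₀ hU0]
    nlinarith
  have hR2 : 2 * (C3 * t ^ 2) ^ 2 * v ≤ μ / 8 * t ^ 2 := by
    have : 2 * (C3 * t ^ 2) ^ 2 * v = (2 * C3 ^ 2 * t ^ 2 * v) * t ^ 2 := by ring
    rw [this]
    exact mul_le_mul_of_nonneg_right h4.le ht2.le
  have hfin : μ / 4 * t ^ 2 ≤ ∫ q in dom, Real.log (J (hh t) q (w q) 2) := by
    refine le_trans ?_ hint
    rw [add_mul]
    linarith
  rw [hlam, setAverage_eq, smul_eq_mul]
  have h8 : μ / (8 * V) * t ^ 2 < V⁻¹ * (μ / 4 * t ^ 2) := by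
    have e3 : V⁻¹ * (μ / 4 * t ^ 2) - μ / (8 * V) * t ^ 2 = μ / (8 * V) * t ^ 2 := by
      field_simp
      ring
    have e4 : 0 < μ / (8 * V) * t ^ 2 := by positivity
    linarith
  have h9 : V⁻¹ * (μ / 4 * t ^ 2) ≤ V⁻¹ * ∫ q in dom, Real.log (J (hh t) q (w q) 2) :=
    mul_le_mul_of_nonneg_left hfin (by positivity)
  linarith

end Pool.Agent.H5.NM
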