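import Pool.Agent.H5.NM.Rot

set_option autoImplicit false

noncomputable section

open MeasureTheory Set Filter Topology

namespace Pool.Agent.H5.NM

theorem isClosed_lattice : IsClosed lattice := by
  have hZ : IsClosed (Set.range ((↑) : ℤ → ℝ)) := Int.isClosedEmbedding_coe_real.isClosed_range
  have h3 := sq3_pos
  have h : lattice = ⋂ i : Fin 3, {p : R6 | (p (Fin.castAdd 3 i) + p (Fin.natAdd 3 i)) / 2 ∈
      Set.range ((↑) : ℤ → ℝ)} ∩ {p : R6 | (p (Fin.castAdd 3 i) - p (Fin.natAdd 3 i)) / (2 * √3) ∈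
      Set.range ((↑) : ℤ → ℝ)} := by
    ext p
    simp only [mem_iInter, mem_inter_iff, mem_ofPred_eq, lattice]
    constructor
    · rintro ⟨a, b, rfl⟩ i
      constructor
      · refine ⟨a i, ?_⟩
        fin_cases i <;> simp
      · refine ⟨b i, ?_⟩
        fin_cases i <;> simp <;> field_simp <;> ring
    · intro hp
      choose ha hb using hp
      choose a ha using ha
      choose b hb using hb
      refine ⟨a, b, ?_⟩
      have e1 : ∀ i, (a i : ℝ) * 2 = p (Fin.castAdd 3 i) + p (Fin.natAdd 3 i) := by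
        intro i
        rw [ha]; ring
      have e2 : ∀ i, (b i : ℝ) * √3 * 2 = p (Fin.castAdd 3 i) - p (Fin.natAdd 3 i) := by
        intro i
        rw [hb]; field_simp
      have a0 := e1 0
      have a1 := e1 1
      have a2 := e1 2
      have b0 := e2 0
      have b1 := e2 1
      have b2 := e2 2
      simp only [show Fin.castAdd 3 (0 : Fin 3) = 0 from rfl, show Fin.castAdd 3 (1 : Fin 3) = 1 from rfl,
        show Fin.castAdd 3 (2 : Fin 3) = 2 from rfl, show Fin.natAdd 3 (0 : Fin 3) = 3 from rfl,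
        show Fin.natAdd 3 (1 : Fin 3) = 4 from rfl, show Fin.natAdd 3 (2 : Fin 3) = 5 from rfl] at a0 a1 a2 b0 b1 b2
      ext j
      fin_cases j <;> simp <;> linarith
  rw [h]
  exact isClosed_iInter fun i => (hZ.preimage (by fun_prop)).inter (hZ.preimage (by fun_prop))

/-- the closed box of radius `1/8` -/
def K0 : Set R6 := Metric.closedBall 0 (1 / 8)

theorem K0_subset : K0 ⊆ box := by
  intro p hp i
  rw [K0, mem_closedBall_zero_iff] at hp
  have := (norm_le_pi_norm p i).trans hp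
  rw [Real.norm_eq_abs] at this
  linarith

/-- the points with a translate in the small box -/
def C0 : Set R6 := {p | ∃ γ : Lat, γ • p ∈ K0}

theorem isClosed_C0 : IsClosed C0 := by
  have : CompactSpace K0 := isCompact_iff_compactSpace.1 (isCompact_closedBall _ _)
  let S : Set (K0 × R6) := {x | mul (x.1 : R6) (inv x.2) ∈ lattice}
  have hS : IsClosed S := isClosed_lattice.preimage
    (continuous_mul'.comp ((continuous_subtype_val.comp continuous_fst).prodMk
      (continuous_inv'.comp continuous_snd)))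
  have h : C0 = Prod.snd '' S := by
    ext p
    simp only [C0, mem_ofPred_eq, S, mem_image, Prod.exists, exists_eq_right]
    constructor
    · rintro ⟨γ, hγ⟩
      refine ⟨⟨γ • p, hγ⟩, ?_⟩
      show mul (γ • p) (inv p) ∈ lattice
      rw [smul_def', mul_assoc', mul_inv', mul_zero_right]
      exact emb_mem γ
    · rintro ⟨κ, hκ⟩
      rw [← range_emb] at hκ
      obtain ⟨γ, hγ⟩ := hκ
      refine ⟨γ, ?_⟩
      rw [smul_def', hγ, mul_assoc', inv_mul', mul_zero_right]
      exact κ.2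
  rw [h]
  exact isClosedMap_snd_of_compactSpace _ hS

/-- at most one translate is in the box -/
theorem unique_box {γ γ' : Lat} {p : R6} (h : γ • p ∈ box) (h' : γ' • p ∈ box) : γ = γ' :=
  (exists_unique_dom p).unique (box_subset h) (box_subset h')

open Classical in
/-- the extension of a map of the box to a map which commutes with `Γ` -/
def per (B : R6 → R6) (p : R6) : R6 :=
  if h : ∃ γ : Lat, γ • p ∈ box then h.choose⁻¹ • B (h.choose • p) else p

/-- local families of maps -/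
structure Loc (B : ℝ → R6 → R6) : Prop where
  smooth : ContDiff ℝ (⊤ : ℕ∞) (fun x : ℝ × R6 => B x.1 x.2)
  supp : ∀ t, ∀ q ∉ K0, B t q = q
  maps : ∀ t, ∀ q ∈ box, B t q ∈ box
  inv : ∀ t q, B (-t) (B t q) = q
  det : ∀ t q, ∃ D : R6 →L[ℝ] R6, HasFDerivAt (B t) D q ∧ |D.det| = 1

theorem per_eq (B : R6 → R6) {γ : Lat} {p : R6} (h : γ • p ∈ box) :
    per B p = γ⁻¹ • B (γ • p) := by
  have hex : ∃ γ : Lat, γ • p ∈ box := ⟨γ, h⟩
  rw [per, dif_pos hex]
  have := unique_box hex.choose_spec h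
  rw [this]

theorem per_eq_self {B : R6 → R6} (hB : ∀ q ∉ K0, B q = q) {p : R6} (h : p ∉ C0) : per B p = p := by
  by_cases hex : ∃ γ : Lat, γ • p ∈ box
  · obtain ⟨γ, hγ⟩ := hex
    rw [per_eq B hγ, hB _ (fun h' => h ⟨γ, h'⟩), inv_smul_smul]
  · rw [per, dif_neg hex]

theorem per_box (B : R6 → R6) {p : R6} (h : p ∈ box) : per B p = B p := by
  have := per_eq B (γ := 1) (p := p) (by rwa [one_smul])
  rwa [inv_one, one_smul, one_smul] at this

theorem per_smul (B : R6 → R6) (γ : Lat) (p : R6) : per B (γ • p) = γ • per B p := by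
  by_cases hex : ∃ γ' : Lat, γ' • p ∈ box
  · obtain ⟨γ', hγ'⟩ := hex
    have h2 : (γ' * γ⁻¹) • (γ • p) = γ' • p := by
      rw [mul_smul, inv_smul_smul]
    have h1 : (γ' * γ⁻¹) • (γ • p) ∈ box := by
      rwa [h2]
    rw [per_eq B h1, per_eq B hγ', h2, mul_inv_rev, inv_inv, mul_smul]
  · have hex' : ¬ ∃ γ' : Lat, γ' • (γ • p) ∈ box := by
      rintro ⟨γ', h⟩
      exact hex ⟨γ' * γ, by rwa [mul_smul]⟩
    rw [per, dif_neg hex', per, dif_neg hex]

section

variable {B : ℝ → R6 → R6} (hB : Loc B)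

include hB

theorem per_inv (t : ℝ) (p : R6) : per (B (-t)) (per (B t) p) = p := by
  by_cases hex : ∃ γ : Lat, γ • p ∈ box
  · obtain ⟨γ, hγ⟩ := hex
    have h1 := per_eq (B t) hγ
    have h2 : γ • per (B t) p ∈ box := by
      rw [h1, smul_inv_smul]
      exact hB.maps t _ hγ
    rw [per_eq (B (-t)) h2, h1, smul_inv_smul, hB.inv, inv_smul_smul]
  · have h1 : per (B t) p = p := by rw [per, dif_neg hex]
    rw [h1, per, dif_neg hex]

theorem per_eventually (t₀ : ℝ) (p : R6) :
    (∃ γ : Lat, γ • p ∈ box ∧ ∀ᶠ x : ℝ × R6 in 𝓝 (t₀, p), per (B x.1) x.2 = γ⁻¹ • B x.1 (γ • x.2)) ∨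
    ∀ᶠ x : ℝ × R6 in 𝓝 (t₀, p), per (B x.1) x.2 = x.2 := by
  by_cases hex : ∃ γ : Lat, γ • p ∈ box
  · obtain ⟨γ, hγ⟩ := hex
    refine Or.inl ⟨γ, hγ, ?_⟩
    have ho : IsOpen {x : ℝ × R6 | γ • x.2 ∈ box} :=
      box_open.preimage ((continuous_const_smul γ).comp continuous_snd)
    filter_upwards [ho.mem_nhds hγ] with x hx
    exact per_eq (B x.1) hx
  · refine Or.inr ?_
    have hp : p ∉ C0 := by
      rintro ⟨γ, hγ⟩
      exact hex ⟨γ, K0_subset hγ⟩
    have ho : IsOpen {x : ℝ × R6 | x.2 ∉ C0} := isClosed_C0.isOpen_compl.preimage continuous_snd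
    filter_upwards [ho.mem_nhds hp] with x hx
    exact per_eq_self (hB.supp x.1) hx

theorem contDiff_per : ContDiff ℝ (⊤ : ℕ∞) (fun x : ℝ × R6 => per (B x.1) x.2) := by
  rw [contDiff_iff_contDiffAt]
  rintro ⟨t, p⟩
  rcases per_eventually hB t p with ⟨γ, -, h⟩ | h
  · refine ContDiffAt.congr_of_eventuallyEq ?_ h
    have h1 : ContDiff ℝ (⊤ : ℕ∞) (fun x : ℝ × R6 => γ⁻¹ • B x.1 (γ • x.2)) := by
      have h2 : ContDiff ℝ (⊤ : ℕ∞) (fun x : ℝ × R6 => B x.1 (mul (emb γ) x.2)) :=
        hB.smooth.comp (contDiff_fst.prodMk ((contDiff_mul_left (emb γ)).comp contDiff_snd))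
      exact (contDiff_mul_left (emb γ⁻¹)).comp h2
    exact h1.contDiffAt
  · exact contDiff_snd.contDiffAt.congr_of_eventuallyEq h

theorem contDiff_per' (t : ℝ) : ContDiff ℝ (⊤ : ℕ∞) (per (B t)) :=
  (contDiff_per hB).comp (contDiff_const.prodMk contDiff_id)

theorem per_det (t : ℝ) (p : R6) : ∃ D : R6 →L[ℝ] R6, HasFDerivAt (per (B t)) D p ∧ |D.det| = 1 := by
  have hslice : ∀ {Q : ℝ × R6 → Prop}, (∀ᶠ x in 𝓝 (t, p), Q x) → ∀ᶠ q in 𝓝 p, Q (t, q) := by
    intro Q hQ
    exact (Continuous.prodMk_right t).continuousAt.eventually hQ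
  rcases per_eventually hB t p with ⟨γ, -, h⟩ | h
  · obtain ⟨D, hD, hdet⟩ := hB.det t (γ • p)
    refine ⟨(E (emb γ⁻¹)).comp (D.comp (E (emb γ))), ?_, ?_⟩
    · refine HasFDerivAt.congr_of_eventuallyEq ?_ (hslice h)
      have h1 : HasFDerivAt (mul (emb γ)) (E (emb γ)) p := hasFDerivAt_mul _ _
      have h2 : HasFDerivAt (fun q => B t (mul (emb γ) q)) (D.comp (E (emb γ))) p :=
        HasFDerivAt.comp p (g := B t) hD h1
      exact HasFDerivAt.comp p (g := mul (emb γ⁻¹)) (hasFDerivAt_mul _ _) h2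
    · rw [det_comp', det_comp', det_E, det_E, one_mul, mul_one, hdet]
  · exact ⟨ContinuousLinearMap.id ℝ R6, (hasFDerivAt_id p).congr_of_eventuallyEq (hslice h), by
      simp [ContinuousLinearMap.det]⟩

theorem per_bijective (t : ℝ) : Function.Bijective (per (B t)) := by
  refine ⟨fun p q h => ?_, fun q => ⟨per (B (-t)) q, ?_⟩⟩
  · have := congrArg (per (B (-t))) h
    rwa [per_inv hB, per_inv hB] at this
  · have := per_inv hB (-t) q
    rwa [neg_neg] at this

theorem aut_zero' (p : R6) : aut 0 p = p := by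
  ext i
  rw [aut, mult]
  fin_cases i <;> simp

theorem isDiffeo_per (t : ℝ) : IsDiffeo 0 (per (B t)) where
  smooth := contDiff_per' hB t
  inverse := ⟨per (B (-t)), contDiff_per' hB (-t), per_inv hB t, fun p => by
    have := per_inv hB (-t) p
    rwa [neg_neg] at this⟩
  equivariant γ hγ p := by
    rw [← range_emb] at hγ
    obtain ⟨γ, rfl⟩ := hγ
    rw [aut_zero' hB]
    exact per_smul (B t) γ p
  volume := measurePreserving_of_det (per_bijective hB t) (per_det hB t)

end

theorem IsDiffeo.comp {k l : ℕ} {g h : R6 → R6} (hg : IsDiffeo k g) (hh : IsDiffeo l h)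
    (hkl : ∀ p, aut k (aut l p) = aut (k + l) p) : IsDiffeo (k + l) (fun p => g (h p)) where
  smooth := hg.smooth.comp hh.smooth
  inverse := by
    obtain ⟨a, ha, ha1, ha2⟩ := hg.inverse
    obtain ⟨b, hb, hb1, hb2⟩ := hh.inverse
    exact ⟨fun p => b (a p), hb.comp ha, fun p => by
      show b (a (g (h p))) = p
      rw [ha1, hb1], fun p => by
      show g (h (b (a p))) = p
      rw [hb2, ha2]⟩
  equivariant γ hγ p := by
    have h1 : aut l γ ∈ lattice := by
      rw [← range_emb] at hγ ⊢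
      obtain ⟨γ, rfl⟩ := hγ
      exact ⟨autL l γ, emb_autL l γ⟩
    rw [hh.equivariant γ hγ, hg.equivariant _ h1, hkl]
  volume := hg.volume.comp hh.volume

theorem aut_aut (k l : ℕ) (p : R6) : aut k (aut l p) = aut (k + l) p := by
  ext i
  simp only [aut, mult]
  fin_cases i <;> simp [pow_add, mul_add] <;> ring

end Pool.Agent.H5.NM
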