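import Pool.Agent.H5.NM.Per

set_option autoImplicit false

noncomputable section

open MeasureTheory Set Filter Topology

namespace Pool.Agent.H5.NM

/-- smooth step -/
abbrev st := Real.smoothTransition

theorem st_pos {x : ℝ} (h : st x ≠ 0) : 0 < x := by
  by_contra h'
  exact h (Real.smoothTransition.zero_of_nonpos (not_lt.1 h'))

/-- the factor of `φ1` which does not depend on `z` -/
def aa (q : R6) : ℝ :=
  st (1 - 64 * (q 0 ^ 2 + q 3 ^ 2)) * st (1 - 64 * q 1 ^ 2) * st (1 - 64 * q 4 ^ 2) * st (1 - 64 * q 5 ^ 2)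

/-- first angle function -/
def φ1 (q : R6) : ℝ := aa q * (q 2 * st (2 - 256 * q 2 ^ 2))

/-- second angle function -/
def φ2 (q : R6) : ℝ :=
  st (1 - 64 * (q 1 ^ 2 + q 3 ^ 2)) * st (1 - 64 * q 0 ^ 2) * st (1 - 1024 * q 2 ^ 2) *
    st (1 - 64 * q 4 ^ 2) * st (1 - 64 * q 5 ^ 2)

theorem contDiff_st {W : Type*} [NormedAddCommGroup W] [NormedSpace ℝ W] {f : W → ℝ}
    (hf : ContDiff ℝ (⊤ : ℕ∞) f) : ContDiff ℝ (⊤ : ℕ∞) (fun x => st (f x)) :=
  Real.smoothTransition.contDiff.comp hf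

theorem contDiff_aa : ContDiff ℝ (⊤ : ℕ∞) aa := by
  unfold aa
  exact (((contDiff_st (by fun_prop)).mul (contDiff_st (by fun_prop))).mul
    (contDiff_st (by fun_prop))).mul (contDiff_st (by fun_prop))

theorem contDiff_φ1 : ContDiff ℝ (⊤ : ℕ∞) φ1 := by
  unfold φ1
  exact contDiff_aa.mul ((by fun_prop : ContDiff ℝ (⊤ : ℕ∞) fun q : R6 => q 2).mul
    (contDiff_st (by fun_prop)))

theorem contDiff_φ2 : ContDiff ℝ (⊤ : ℕ∞) φ2 := by
  unfold φ2
  exact ((((contDiff_st (by fun_prop)).mul (contDiff_st (by fun_prop))).mul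
    (contDiff_st (by fun_prop))).mul (contDiff_st (by fun_prop))).mul (contDiff_st (by fun_prop))

theorem φ1_rot (θ : ℝ) (q : R6) : φ1 (ROT 0 θ q) = φ1 q := by
  have h := ROT_sq (i := 0) (by decide) θ q
  unfold φ1 aa
  rw [h, ROT_other (j := 1) (by decide) (by decide), ROT_other (j := 2) (by decide) (by decide),
    ROT_other (j := 4) (by decide) (by decide), ROT_other (j := 5) (by decide) (by decide)]

theorem φ2_rot (θ : ℝ) (q : R6) : φ2 (ROT 1 θ q) = φ2 q := by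
  have h := ROT_sq (i := 1) (by decide) θ q
  unfold φ2
  rw [h, ROT_other (j := 0) (by decide) (by decide), ROT_other (j := 2) (by decide) (by decide),
    ROT_other (j := 4) (by decide) (by decide), ROT_other (j := 5) (by decide) (by decide)]

theorem aa_nonneg (q : R6) : 0 ≤ aa q := by
  unfold aa
  have := Real.smoothTransition.nonneg
  exact mul_nonneg (mul_nonneg (mul_nonneg (this _) (this _)) (this _)) (this _)

theorem φ2_nonneg (q : R6) : 0 ≤ φ2 q := by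
  unfold φ2
  have := Real.smoothTransition.nonneg
  exact mul_nonneg (mul_nonneg (mul_nonneg (mul_nonneg (this _) (this _)) (this _)) (this _)) (this _)

theorem abs_lt_of_sq {x c : ℝ} (hc : 0 < c) (h : x ^ 2 < c ^ 2) : |x| < c := abs_lt_of_sq_lt_sq h hc.le

theorem φ1_supp {q : R6} (h : φ1 q ≠ 0) : q 0 ^ 2 + q 3 ^ 2 < (1 / 8) ^ 2 ∧ q 1 ^ 2 < (1 / 8) ^ 2 ∧
    q 2 ^ 2 < (1 / 8) ^ 2 ∧ q 4 ^ 2 < (1 / 8) ^ 2 ∧ q 5 ^ 2 < (1 / 8) ^ 2 := by
  unfold φ1 aa at h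
  simp only [ne_eq, mul_eq_zero, not_or] at h
  obtain ⟨⟨⟨⟨h1, h2⟩, h3⟩, h4⟩, h5, h6⟩ := h
  have h1 := st_pos h1
  have h2 := st_pos h2
  have h3 := st_pos h3
  have h4 := st_pos h4
  have h6 := st_pos h6
  refine ⟨?_, ?_, ?_, ?_, ?_⟩ <;> linarith

theorem φ2_supp {q : R6} (h : φ2 q ≠ 0) : q 1 ^ 2 + q 3 ^ 2 < (1 / 8) ^ 2 ∧ q 0 ^ 2 < (1 / 8) ^ 2 ∧
    q 2 ^ 2 < (1 / 32) ^ 2 ∧ q 4 ^ 2 < (1 / 8) ^ 2 ∧ q 5 ^ 2 < (1 / 8) ^ 2 := by
  unfold φ2 at h
  simp only [ne_eq, mul_eq_zero, not_or] at h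
  obtain ⟨⟨⟨⟨h1, h2⟩, h3⟩, h4⟩, h5⟩ := h
  have h1 := st_pos h1
  have h2 := st_pos h2
  have h3 := st_pos h3
  have h4 := st_pos h4
  have h5 := st_pos h5
  refine ⟨?_, ?_, ?_, ?_, ?_⟩ <;> linarith

theorem mem_K0 {q : R6} : q ∈ K0 ↔ ∀ i, |q i| ≤ 1 / 8 := by
  rw [K0, mem_closedBall_zero_iff, pi_norm_le_iff_of_nonneg (by norm_num)]
  rfl

/-- first local family -/
def A1 (t : ℝ) (q : R6) : R6 := tw 0 φ1 t q

theorem A1_eq (t : ℝ) (q : R6) : A1 t q = ![q 0 * Real.cos (t * φ1 q) - q 3 * Real.sin (t * φ1 q), q 1, q 2,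
    q 0 * Real.sin (t * φ1 q) + q 3 * Real.cos (t * φ1 q), q 4, q 5] := by
  ext j
  rw [A1, tw]
  fin_cases j
  · exact ROT_i (i := 0) (by decide) _ _
  · exact ROT_other (j := 1) (by decide) (by decide) _ _
  · exact ROT_other (j := 2) (by decide) (by decide) _ _
  · exact ROT_3 (i := 0) (by decide) _ _
  · exact ROT_other (j := 4) (by decide) (by decide) _ _
  · exact ROT_other (j := 5) (by decide) (by decide) _ _

theorem loc_A1 : Loc A1 where
  smooth := contDiff_tw contDiff_φ1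
  supp t q hq := by
    refine tw_of_zero ?_ t
    by_contra h
    obtain ⟨h1, h2, h3, h4, h5⟩ := φ1_supp h
    have h8 : (0 : ℝ) < 1 / 8 := by norm_num
    refine hq (mem_K0.2 fun j => ?_)
    fin_cases j
    · exact (abs_lt_of_sq h8 (show q 0 ^ 2 < _ by nlinarith [sq_nonneg (q 3)])).le
    · exact (abs_lt_of_sq h8 h2).le
    · exact (abs_lt_of_sq h8 h3).le
    · exact (abs_lt_of_sq h8 (show q 3 ^ 2 < _ by nlinarith [sq_nonneg (q 0)])).le
    · exact (abs_lt_of_sq h8 h4).le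
    · exact (abs_lt_of_sq h8 h5).le
  maps t q hq := by
    by_cases h : φ1 q = 0
    · rw [A1, tw_of_zero h]
      exact hq
    · obtain ⟨h1, -⟩ := φ1_supp h
      have h2 := ROT_sq (i := 0) (by decide) (t * φ1 q) q
      have h8 : (0 : ℝ) < 1 / 8 := by norm_num
      intro j
      by_cases hj0 : j = 0
      · rw [hj0]
        have : |A1 t q 0| < 1 / 8 := abs_lt_of_sq h8 (by
          rw [A1, tw]
          nlinarith [sq_nonneg (ROT 0 (t * φ1 q) q 3)])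
        linarith
      by_cases hj3 : j = 3
      · rw [hj3]
        have : |A1 t q 3| < 1 / 8 := abs_lt_of_sq h8 (by
          rw [A1, tw]
          nlinarith [sq_nonneg (ROT 0 (t * φ1 q) q 0)])
        linarith
      rw [A1, tw, ROT_other hj0 hj3]
      exact hq j
  inv t q := tw_inv (by decide) φ1_rot t q
  det t q := tw_det (by decide) contDiff_φ1 φ1_rot t q

/-- the shear which straightens `Y` -/
def Sh (q : R6) : R6 := q + (-(q 0 * q 1)) • e2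
/-- its inverse -/
def Shi (q : R6) : R6 := q + (q 0 * q 1) • e2

theorem Sh_two (q : R6) : Sh q 2 = q 2 - q 0 * q 1 := by
  simp [Sh, e2]; ring
theorem Shi_two (q : R6) : Shi q 2 = q 2 + q 0 * q 1 := by
  simp [Shi, e2]
theorem Sh_ne {j : Fin 6} (hj : j ≠ 2) (q : R6) : Sh q j = q j := by
  simp [Sh, e2, hj]
theorem Shi_ne {j : Fin 6} (hj : j ≠ 2) (q : R6) : Shi q j = q j := by
  simp [Shi, e2, hj]

theorem Shi_Sh (q : R6) : Shi (Sh q) = q := by
  ext j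
  by_cases hj : j = 2
  · rw [hj, Shi_two, Sh_two, Sh_ne (by decide), Sh_ne (by decide)]
    ring
  · rw [Shi_ne hj, Sh_ne hj]

theorem Sh_Shi (q : R6) : Sh (Shi q) = q := by
  ext j
  by_cases hj : j = 2
  · rw [hj, Sh_two, Shi_two, Shi_ne (by decide), Shi_ne (by decide)]
    ring
  · rw [Sh_ne hj, Shi_ne hj]

theorem contDiff_Sh : ContDiff ℝ (⊤ : ℕ∞) Sh := by
  unfold Sh
  fun_prop

theorem contDiff_Shi : ContDiff ℝ (⊤ : ℕ∞) Shi := by
  unfold Shi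
  fun_prop

theorem shear_det (c : ℝ) (q : R6) : ∃ D : R6 →L[ℝ] R6,
    HasFDerivAt (fun q : R6 => q + (c * (q 0 * q 1)) • e2) D q ∧ |D.det| = 1 := by
  let p0 := ContinuousLinearMap.proj (R := ℝ) (φ := fun _ : Fin 6 => ℝ) 0
  let p1 := ContinuousLinearMap.proj (R := ℝ) (φ := fun _ : Fin 6 => ℝ) 1
  let L : R6 →L[ℝ] ℝ := c • (q 0 • p1 + q 1 • p0)
  have h0 : HasFDerivAt (fun q : R6 => c * (q 0 * q 1)) L q :=
    ((p0.hasFDerivAt (x := q)).mul (p1.hasFDerivAt (x := q))).const_mul c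
  refine ⟨ContinuousLinearMap.id ℝ R6 + L.smulRight e2, (hasFDerivAt_id q).add (h0.smul_const e2), ?_⟩
  rw [transvection_det, abs_one]
  simp [L, p0, p1, e2]

/-- second local family -/
def A2 (t : ℝ) (q : R6) : R6 := Shi (tw 1 φ2 t (Sh q))

theorem A2_0 (t : ℝ) (q : R6) : A2 t q 0 = q 0 := by
  rw [A2, Shi_ne (by decide), tw, ROT_other (by decide) (by decide), Sh_ne (by decide)]

theorem A2_1 (t : ℝ) (q : R6) : A2 t q 1 =
    q 1 * Real.cos (t * φ2 (Sh q)) - q 3 * Real.sin (t * φ2 (Sh q)) := by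
  rw [A2, Shi_ne (by decide), tw, ROT_i (by decide), Sh_ne (by decide), Sh_ne (by decide)]

theorem A2_2 (t : ℝ) (q : R6) : A2 t q 2 = q 2 - q 0 * q 1 + q 0 * A2 t q 1 := by
  rw [A2, Shi_two, Shi_ne (by decide), tw, ROT_other (by decide) (by decide), Sh_two,
    ROT_other (j := 0) (by decide) (by decide), Sh_ne (by decide)]

theorem A2_of_zero {q : R6} (h : φ2 (Sh q) = 0) (t : ℝ) : A2 t q = q := by
  rw [A2, tw_of_zero h, Shi_Sh]

theorem A2_supp (t : ℝ) (q : R6) (hq : q ∉ K0) : A2 t q = q := by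
  refine A2_of_zero ?_ t
  by_contra h
  obtain ⟨h1, h2, h3, h4, h5⟩ := φ2_supp h
  rw [Sh_ne (by decide), Sh_ne (by decide)] at h1
  rw [Sh_ne (by decide)] at h2
  rw [Sh_two] at h3
  rw [Sh_ne (by decide)] at h4 h5
  have h8 : (0 : ℝ) < 1 / 8 := by norm_num
  have a0 := abs_lt_of_sq h8 h2
  have a1 := abs_lt_of_sq h8 (show q 1 ^ 2 < _ by nlinarith [sq_nonneg (q 3)])
  have a3 := abs_lt_of_sq h8 (show q 3 ^ 2 < _ by nlinarith [sq_nonneg (q 1)])
  have a4 := abs_lt_of_sq h8 h4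
  have a5 := abs_lt_of_sq h8 h5
  have a2 := abs_lt_of_sq (by norm_num) h3
  have a2' : |q 2| ≤ 1 / 8 := by
    have e1 : q 2 = (q 2 - q 0 * q 1) + q 0 * q 1 := by ring
    have e3 : |q 0 * q 1| ≤ 1 / 8 * (1 / 8) := by
      rw [abs_mul]
      exact mul_le_mul a0.le a1.le (abs_nonneg _) h8.le
    rw [e1]
    refine (abs_add_le _ _).trans ?_
    linarith
  refine hq (mem_K0.2 fun j => ?_)
  fin_cases j
  · exact a0.le
  · exact a1.le
  · exact a2'
  · exact a3.le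
  · exact a4.le
  · exact a5.le

theorem A2_other {j : Fin 6} (h1 : j ≠ 1) (h2 : j ≠ 2) (h3 : j ≠ 3) (t : ℝ) (q : R6) :
    A2 t q j = q j := by
  rw [A2, Shi_ne h2, tw, ROT_other h1 h3, Sh_ne h2]

theorem A2_maps (t : ℝ) (q : R6) (hq : q ∈ box) : A2 t q ∈ box := by
  by_cases h : φ2 (Sh q) = 0
  · rw [A2_of_zero h]
    exact hq
  obtain ⟨h1, h2, h3, -, -⟩ := φ2_supp h
  have hsq := ROT_sq (i := 1) (by decide) (t * φ2 (Sh q)) (Sh q)
  have h8 : (0 : ℝ) < 1 / 8 := by norm_num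
  have s1 : A2 t q 1 = ROT 1 (t * φ2 (Sh q)) (Sh q) 1 := by
    rw [A2, Shi_ne (by decide), tw]
  have s3 : A2 t q 3 = ROT 1 (t * φ2 (Sh q)) (Sh q) 3 := by
    rw [A2, Shi_ne (by decide), tw]
  have b1 : |A2 t q 1| < 1 / 8 := abs_lt_of_sq h8 (by
    rw [s1]
    nlinarith [sq_nonneg (ROT 1 (t * φ2 (Sh q)) (Sh q) 3)])
  have b3 : |A2 t q 3| < 1 / 8 := abs_lt_of_sq h8 (by
    rw [s3]
    nlinarith [sq_nonneg (ROT 1 (t * φ2 (Sh q)) (Sh q) 1)])
  rw [Sh_ne (by decide)] at h2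
  rw [Sh_two] at h3
  have a0 := abs_lt_of_sq h8 h2
  have a2 := abs_lt_of_sq (by norm_num) h3
  intro j
  by_cases hj1 : j = 1
  · rw [hj1]; linarith
  by_cases hj3 : j = 3
  · rw [hj3]; linarith
  by_cases hj2 : j = 2
  · rw [hj2, A2_2]
    have e3 : |q 0 * A2 t q 1| ≤ 1 / 8 * (1 / 8) := by
      rw [abs_mul]
      exact mul_le_mul a0.le b1.le (abs_nonneg _) h8.le
    refine lt_of_le_of_lt (abs_add_le _ _) ?_
    linarith
  rw [A2_other hj1 hj2 hj3]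
  exact hq j

theorem A2_inv (t : ℝ) (q : R6) : A2 (-t) (A2 t q) = q := by
  rw [A2, A2, Sh_Shi, tw_inv (by decide) φ2_rot, Shi_Sh]

theorem A2_det (t : ℝ) (q : R6) : ∃ D : R6 →L[ℝ] R6, HasFDerivAt (A2 t) D q ∧ |D.det| = 1 := by
  obtain ⟨D1, hD1, d1⟩ := shear_det (-1) q
  obtain ⟨D2, hD2, d2⟩ := tw_det (i := 1) (by decide) contDiff_φ2 φ2_rot t (Sh q)
  obtain ⟨D3, hD3, d3⟩ := shear_det 1 (tw 1 φ2 t (Sh q))
  have e1 : (fun q : R6 => q + ((-1 : ℝ) * (q 0 * q 1)) • e2) = Sh := by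
    funext q
    rw [neg_one_mul]
    rfl
  have e3 : (fun q : R6 => q + ((1 : ℝ) * (q 0 * q 1)) • e2) = Shi := by
    funext q
    rw [one_mul]
    rfl
  rw [e1] at hD1
  rw [e3] at hD3
  have h2 : HasFDerivAt (fun x => tw 1 φ2 t (Sh x)) (D2.comp D1) q := hD2.comp q hD1
  have h3 : HasFDerivAt (fun x => Shi (tw 1 φ2 t (Sh x))) (D3.comp (D2.comp D1)) q :=
    HasFDerivAt.comp (g := Shi) (f := fun x => tw 1 φ2 t (Sh x)) q hD3 h2
  refine ⟨D3.comp (D2.comp D1), h3, ?_⟩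
  rw [det_comp', det_comp', abs_mul, abs_mul, d1, d2, d3]
  norm_num

theorem contDiff_A2_a : ContDiff ℝ (⊤ : ℕ∞) (fun x : ℝ × R6 => (x.1, Sh x.2)) :=
  contDiff_fst.prodMk (contDiff_Sh.comp contDiff_snd)

theorem contDiff_A2_b : ContDiff ℝ (⊤ : ℕ∞) (fun x : ℝ × R6 => tw 1 φ2 x.1 x.2) :=
  contDiff_tw contDiff_φ2

theorem contDiff_A2_c0 : ContDiff ℝ (⊤ : ℕ∞)
    ((fun x : ℝ × R6 => tw 1 φ2 x.1 x.2) ∘ (fun x : ℝ × R6 => (x.1, Sh x.2))) :=
  ContDiff.comp contDiff_A2_b contDiff_A2_a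

theorem contDiff_A2_c : ContDiff ℝ (⊤ : ℕ∞) (fun x : ℝ × R6 => tw 1 φ2 x.1 (Sh x.2)) :=
  contDiff_A2_c0

theorem contDiff_A2_d : ContDiff ℝ (⊤ : ℕ∞) (fun x : ℝ × R6 => Shi (tw 1 φ2 x.1 (Sh x.2))) := by
  have h : ContDiff ℝ (⊤ : ℕ∞) (Shi ∘ (fun x : ℝ × R6 => tw 1 φ2 x.1 (Sh x.2))) :=
    contDiff_Shi.comp contDiff_A2_c
  exact h

theorem contDiff_A2 : ContDiff ℝ (⊤ : ℕ∞) (fun x : ℝ × R6 => A2 x.1 x.2) := contDiff_A2_d

theorem loc_A2 : Loc A2 where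
  smooth := contDiff_A2
  supp := A2_supp
  maps := A2_maps
  inv := A2_inv
  det := A2_det

/-- the volume preserving diffeomorphisms by which `aut k` is perturbed -/
def hh (t : ℝ) (p : R6) : R6 := per (A2 t) (per (A1 t) p)

theorem contDiff_hh : ContDiff ℝ (⊤ : ℕ∞) (fun x : ℝ × R6 => hh x.1 x.2) :=
  (contDiff_per loc_A2).comp (contDiff_fst.prodMk (contDiff_per loc_A1))

theorem isDiffeo_hh (t : ℝ) : IsDiffeo 0 (hh t) := by
  have := (isDiffeo_per loc_A2 t).comp (isDiffeo_per loc_A1 t) (fun p => aut_aut 0 0 p)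
  exact this

theorem per_zero {B : ℝ → R6 → R6} (h : ∀ q, B 0 q = q) (p : R6) : per (B 0) p = p := by
  by_cases hex : ∃ γ : Lat, γ • p ∈ box
  · obtain ⟨γ, hγ⟩ := hex
    rw [per_eq (B 0) hγ, h, inv_smul_smul]
  · rw [per, dif_neg hex]

theorem A1_zero (q : R6) : A1 0 q = q := tw_zero q

theorem A2_zero (q : R6) : A2 0 q = q := by rw [A2, tw_zero, Shi_Sh]

theorem hh_zero (p : R6) : hh 0 p = p := by
  rw [hh, per_zero A1_zero, per_zero A2_zero]

theorem hh_box {t : ℝ} {q : R6} (hq : q ∈ box) : hh t q = A2 t (A1 t q) := by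
  rw [hh, per_box _ hq, per_box _ (loc_A1.maps t q hq)]

theorem J_hh_box {t : ℝ} {q : R6} (hq : q ∈ box) : J (hh t) q = (J (A2 t) (A1 t q)).comp (J (A1 t) q) := by
  have h1 : hh t =ᶠ[𝓝 q] fun q => A2 t (A1 t q) := by
    filter_upwards [box_open.mem_nhds hq] with q' hq'
    exact hh_box hq'
  have h2 : J (hh t) q = J (fun q => A2 t (A1 t q)) q := by
    rw [J, J, h1.fderiv_eq, hh_box hq]
  rw [h2]
  obtain ⟨D1, hD1, -⟩ := loc_A1.det t q
  obtain ⟨D2, hD2, -⟩ := loc_A2.det t (A1 t q)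
  exact J_comp q hD2.differentiableAt hD1.differentiableAt

theorem J_hh_out {t : ℝ} {q : R6} (hq : q ∈ dom) (hq' : q ∉ box) : J (hh t) q = ContinuousLinearMap.id ℝ R6 := by
  have h0 : q ∉ C0 := by
    rintro ⟨γ, hγ⟩
    have h1 : (1 : Lat) • q ∈ dom := by rwa [one_smul]
    have h2 : γ = 1 := (exists_unique_dom q).unique (box_subset (K0_subset hγ)) h1
    rw [h2, one_smul] at hγ
    exact hq' (K0_subset hγ)
  have h1 : hh t =ᶠ[𝓝 q] fun q => q := by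
    filter_upwards [isClosed_C0.isOpen_compl.mem_nhds h0] with q' h'
    rw [hh, per_eq_self (loc_A1.supp t) h', per_eq_self (loc_A2.supp t) h']
  ext1 c
  rw [J_apply, h1.fderiv_eq, h1.eq_of_nhds, fderiv_fun_id, ContinuousLinearMap.id_apply, Ei_E]
  rfl

/-- the derivative of `φ1` along `Z` -/
def φ1z (q : R6) : ℝ := fderiv ℝ φ1 q e2

theorem J_A1_e2 (t : ℝ) (q : R6) : (J (A1 t) q e2) 0 = -(A1 t q 3 * (t * φ1z q)) ∧
    (J (A1 t) q e2) 2 = 1 := by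
  have h1 := (hasFDerivAt_tw (i := 0) (by decide) contDiff_φ1 t q).fderiv
  have h2 : fderiv ℝ (A1 t) q e2 = ROT 0 (t * φ1 q) (e2 + (t * φ1z q) • G 0 q) := by
    have : fderiv ℝ (A1 t) q = fderiv ℝ (tw 0 φ1 t) q := rfl
    rw [this, h1]
    simp only [ContinuousLinearMap.comp_apply, _root_.add_apply, ContinuousLinearMap.smulRight_apply,
      _root_.smul_apply, ContinuousLinearMap.id_apply, φ1z, smul_eq_mul]
  have g0 : G 0 q 0 = -q 3 := by simp [G_apply]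
  have g3 : G 0 q 3 = q 0 := by simp [G_apply]
  have g1 : G 0 q 1 = 0 := by simp [G_apply]
  have g2 : G 0 q 2 = 0 := by simp [G_apply]
  have z0 : e2 0 = 0 := e2_of_ne (by decide)
  have z3 : e2 3 = 0 := e2_of_ne (by decide)
  have z1 : e2 1 = 0 := e2_of_ne (by decide)
  have e0 : fderiv ℝ (A1 t) q e2 0 = -(A1 t q 3 * (t * φ1z q)) := by
    rw [h2, ROT_i (by decide), A1_eq]
    simp only [Pi.add_apply, Pi.smul_apply, smul_eq_mul, g0, g3, z0, z3, zero_add]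
    simp
    ring
  have e1 : fderiv ℝ (A1 t) q e2 1 = 0 := by
    rw [h2, ROT_other (by decide) (by decide), Pi.add_apply, Pi.smul_apply, g1, z1, smul_zero, add_zero]
  have e2' : fderiv ℝ (A1 t) q e2 2 = 1 := by
    rw [h2, ROT_other (by decide) (by decide), Pi.add_apply, Pi.smul_apply, g2, e2_two, smul_zero, add_zero]
  rw [J_apply, E_e2, Ei_apply]
  constructor
  · simpa using e0
  · simp only [Matrix.cons_val, e1, e2', mul_zero, sub_zero]

theorem J_A2_two (t : ℝ) (q c : R6) : (J (A2 t) q c) 2 = c 2 + c 0 * (A2 t q 1 - q 1) := by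
  obtain ⟨D, hD, -⟩ := loc_A2.det t q
  have hd := hasFDerivAt_pi'.1 hD
  let pr := fun j : Fin 6 => ContinuousLinearMap.proj (R := ℝ) (φ := fun _ : Fin 6 => ℝ) j
  have k0 : (pr 0).comp D = pr 0 := by
    have h1 := hd 0
    have h2 : (fun x => A2 t x 0) = fun x : R6 => x 0 := funext fun x => A2_0 t x
    rw [h2] at h1
    exact h1.unique ((pr 0).hasFDerivAt)
  have k2 : (pr 2).comp D = pr 2 - (q 0 • pr 1 + q 1 • pr 0) + (q 0 • ((pr 1).comp D) + A2 t q 1 • pr 0) := by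
    have h1 := hd 2
    have h2 : (fun x => A2 t x 2) = fun x : R6 => x 2 - x 0 * x 1 + x 0 * A2 t x 1 :=
      funext fun x => A2_2 t x
    rw [h2] at h1
    exact h1.unique ((((pr 2).hasFDerivAt).sub (((pr 0).hasFDerivAt (x := q)).mul
      ((pr 1).hasFDerivAt (x := q)))).add (((pr 0).hasFDerivAt (x := q)).mul (hd 1)))
  have v0 : D (E q c) 0 = c 0 := by
    have := congrArg (fun L : R6 →L[ℝ] ℝ => L (E q c)) k0
    simpa [pr, E_apply] using this
  have v2 : D (E q c) 2 = c 2 - q 1 * c 0 + (q 0 * D (E q c) 1 + A2 t q 1 * c 0) := by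
    have := congrArg (fun L : R6 →L[ℝ] ℝ => L (E q c)) k2
    simp [pr] at this
    rw [this, E_apply]
    simp
    ring
  rw [J_apply, hD.fderiv, Ei_apply, A2_0]
  simp only [Matrix.cons_val, v2]
  ring

end Pool.Agent.H5.NM
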