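import Pool.Agent.H5.NM.Crit

set_option autoImplicit false

noncomputable section

open MeasureTheory Set Filter Topology

namespace Pool.Agent.H5.NM

/-- coordinate projection to the plane `(i, 3)` -/
def P (i : Fin 6) : R6 →L[ℝ] R6 :=
  (ContinuousLinearMap.proj (R := ℝ) (φ := fun _ : Fin 6 => ℝ) i).smulRight (Pi.single i 1) +
  (ContinuousLinearMap.proj (R := ℝ) (φ := fun _ : Fin 6 => ℝ) 3).smulRight (Pi.single 3 1)

/-- the generator of the rotations of the plane `(i, 3)` -/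
def G (i : Fin 6) : R6 →L[ℝ] R6 :=
  (ContinuousLinearMap.proj (R := ℝ) (φ := fun _ : Fin 6 => ℝ) i).smulRight (Pi.single 3 1) -
  (ContinuousLinearMap.proj (R := ℝ) (φ := fun _ : Fin 6 => ℝ) 3).smulRight (Pi.single i 1)

/-- rotation of the plane `(i, 3)` -/
def ROT (i : Fin 6) (θ : ℝ) : R6 →L[ℝ] R6 :=
  ContinuousLinearMap.id ℝ R6 + (Real.cos θ - 1) • P i + Real.sin θ • G i

variable {i : Fin 6}

theorem P_apply (q : R6) : P i q = q i • (Pi.single i 1 : R6) + q 3 • (Pi.single 3 1 : R6) := rfl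

theorem G_apply (q : R6) : G i q = q i • (Pi.single 3 1 : R6) - q 3 • (Pi.single i 1 : R6) := rfl

theorem PP (hi : i ≠ 3) (q : R6) : P i (P i q) = P i q := by
  simp [P_apply, hi, hi.symm]

theorem PG (hi : i ≠ 3) (q : R6) : P i (G i q) = G i q := by
  simp [P_apply, G_apply, hi, hi.symm]
  abel

theorem GP (hi : i ≠ 3) (q : R6) : G i (P i q) = G i q := by
  simp [P_apply, G_apply, hi, hi.symm]

theorem GG (hi : i ≠ 3) (q : R6) : G i (G i q) = -P i q := by
  simp [P_apply, G_apply, hi, hi.symm]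
  abel

theorem ROT_apply (θ : ℝ) (q : R6) :
    ROT i θ q = q + (Real.cos θ - 1) • P i q + Real.sin θ • G i q := rfl

theorem ROT_add (hi : i ≠ 3) (θ θ' : ℝ) (q : R6) : ROT i θ (ROT i θ' q) = ROT i (θ + θ') q := by
  rw [ROT_apply, ROT_apply, ROT_apply]
  simp only [map_add, map_smul, PP hi, PG hi, GP hi, GG hi, Real.cos_add, Real.sin_add]
  module

theorem ROT_zero (q : R6) : ROT i 0 q = q := by
  rw [ROT_apply]; simp

theorem ROT_neg (hi : i ≠ 3) (θ : ℝ) (q : R6) : ROT i (-θ) (ROT i θ q) = q := by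
  rw [ROT_add hi]; simp [ROT_zero]

theorem ROT_i (hi : i ≠ 3) (θ : ℝ) (q : R6) : ROT i θ q i = q i * Real.cos θ - q 3 * Real.sin θ := by
  rw [ROT_apply]
  simp [P_apply, G_apply, hi, hi.symm]
  ring

theorem ROT_3 (hi : i ≠ 3) (θ : ℝ) (q : R6) : ROT i θ q 3 = q i * Real.sin θ + q 3 * Real.cos θ := by
  rw [ROT_apply]
  simp [P_apply, G_apply, hi, hi.symm]
  ring

theorem ROT_other {j : Fin 6} (hj : j ≠ i) (hj3 : j ≠ 3) (θ : ℝ) (q : R6) : ROT i θ q j = q j := by
  rw [ROT_apply]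
  simp [P_apply, G_apply, hj, hj3]

theorem ROT_sq (hi : i ≠ 3) (θ : ℝ) (q : R6) :
    ROT i θ q i ^ 2 + ROT i θ q 3 ^ 2 = q i ^ 2 + q 3 ^ 2 := by
  rw [ROT_i hi, ROT_3 hi]
  nlinarith [Real.sin_sq_add_cos_sq θ]

/-- a reflection -/
def refl (i : Fin 6) : R6 →L[ℝ] R6 :=
  ContinuousLinearMap.id ℝ R6 -
    (2 : ℝ) • (ContinuousLinearMap.proj (R := ℝ) (φ := fun _ : Fin 6 => ℝ) i).smulRight (Pi.single i 1)

theorem refl_apply (q : R6) : refl i q = q - (2 : ℝ) • q i • (Pi.single i 1 : R6) := rfl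

theorem abs_det_ROT (hi : i ≠ 3) (θ : ℝ) : |(ROT i θ).det| = 1 := by
  have h1 : (refl i).comp (refl i) = ContinuousLinearMap.id ℝ R6 := by
    ext1 q
    rw [ContinuousLinearMap.comp_apply, refl_apply, refl_apply]
    simp
    module
  have h2 : (refl i).comp ((ROT i θ).comp (refl i)) = ROT i (-θ) := by
    ext1 q
    rw [ContinuousLinearMap.comp_apply, ContinuousLinearMap.comp_apply, refl_apply, refl_apply,
      ROT_apply, ROT_apply]
    simp [P_apply, G_apply, hi, hi.symm]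
    module
  have h3 : (ROT i (-θ)).comp (ROT i θ) = ContinuousLinearMap.id ℝ R6 := by
    ext1 q
    exact ROT_neg hi θ q
  have d1 := congrArg ContinuousLinearMap.det h1
  have d2 := congrArg ContinuousLinearMap.det h2
  have d3 := congrArg ContinuousLinearMap.det h3
  rw [det_comp'] at d1 d3
  rw [det_comp', det_comp'] at d2
  have hid : (ContinuousLinearMap.id ℝ R6).det = 1 := by
    simp [ContinuousLinearMap.det]
  rw [hid] at d1 d3
  have d4 : (ROT i (-θ)).det = (ROT i θ).det := by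
    rw [← d2]
    calc _ = (refl i).det * (refl i).det * (ROT i θ).det := by ring
      _ = _ := by rw [d1, one_mul]
  rw [d4] at d3
  have d5 : |(ROT i θ).det| * |(ROT i θ).det| = 1 := by
    rw [← abs_mul, d3, abs_one]
  nlinarith [abs_nonneg (ROT i θ).det]

theorem hasDerivAt_ROT (θ : ℝ) (q : R6) :
    HasDerivAt (fun s => ROT i s q) (-Real.sin θ • P i q + Real.cos θ • G i q) θ := by
  have h1 := ((Real.hasDerivAt_cos θ).sub_const 1).smul_const (P i q)
  have h2 := (Real.hasDerivAt_sin θ).smul_const (G i q)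
  exact (h1.const_add q).add h2

theorem ROT_deriv (hi : i ≠ 3) (θ : ℝ) (q : R6) :
    -Real.sin θ • P i q + Real.cos θ • G i q = ROT i θ (G i q) := by
  rw [ROT_apply, PG hi, GG hi]
  module

/-- twist: rotation by an angle depending on the point -/
def tw (i : Fin 6) (φ : R6 → ℝ) (t : ℝ) (q : R6) : R6 := ROT i (t * φ q) q

section Twist

variable (hi : i ≠ 3) {φ : R6 → ℝ} (hφ : ContDiff ℝ (⊤ : ℕ∞) φ) (hr : ∀ θ q, φ (ROT i θ q) = φ q)

include hr hi in
theorem tw_inv (t : ℝ) (q : R6) : tw i φ (-t) (tw i φ t q) = q := by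
  rw [tw, tw, hr, neg_mul, ROT_neg hi]

theorem tw_zero (q : R6) : tw i φ 0 q = q := by
  rw [tw, zero_mul, ROT_zero]

theorem tw_of_zero {q : R6} (h : φ q = 0) (t : ℝ) : tw i φ t q = q := by
  rw [tw, h, mul_zero, ROT_zero]

include hφ in
theorem contDiff_tw : ContDiff ℝ (⊤ : ℕ∞) (fun x : ℝ × R6 => tw i φ x.1 x.2) := by
  have h1 : (fun x : ℝ × R6 => tw i φ x.1 x.2) = fun x => x.2 + (Real.cos (x.1 * φ x.2) - 1) • P i x.2 +
      Real.sin (x.1 * φ x.2) • G i x.2 := by
    funext x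
    rw [tw, ROT_apply]
  rw [h1]
  have h2 : ContDiff ℝ (⊤ : ℕ∞) (fun x : ℝ × R6 => x.1 * φ x.2) :=
    contDiff_fst.mul (hφ.comp contDiff_snd)
  have h3 : ContDiff ℝ (⊤ : ℕ∞) (fun x : ℝ × R6 => P i x.2) := (P i).contDiff.comp contDiff_snd
  have h4 : ContDiff ℝ (⊤ : ℕ∞) (fun x : ℝ × R6 => G i x.2) := (G i).contDiff.comp contDiff_snd
  exact (contDiff_snd.add (((Real.contDiff_cos.comp h2).sub contDiff_const).smul h3)).add
    ((Real.contDiff_sin.comp h2).smul h4)

include hi hφ in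
theorem hasFDerivAt_tw (t : ℝ) (q : R6) :
    HasFDerivAt (tw i φ t) ((ROT i (t * φ q)).comp
      (ContinuousLinearMap.id ℝ R6 + (t • fderiv ℝ φ q).smulRight (G i q))) q := by
  have h1 : tw i φ t = fun q => q + (Real.cos (t * φ q) - 1) • P i q + Real.sin (t * φ q) • G i q := by
    funext x
    rw [tw, ROT_apply]
  have h2 : HasFDerivAt (fun q => t * φ q) (t • fderiv ℝ φ q) q :=
    ((hφ.differentiable (by simp)) q).hasFDerivAt.const_mul t
  rw [h1]
  have h3 := ((h2.cos.sub_const 1).smul (P i).hasFDerivAt (x := q))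
  have h4 := (h2.sin.smul (G i).hasFDerivAt (x := q))
  refine (((hasFDerivAt_id q).add h3).add h4).congr_fderiv ?_
  ext1 v
  have h5 := ROT_deriv hi (t * φ q) q
  simp only [ContinuousLinearMap.comp_apply, _root_.add_apply, ContinuousLinearMap.smulRight_apply,
    _root_.smul_apply, ContinuousLinearMap.id_apply, map_add, map_smul, ← h5, ROT_apply]
  module

include hi hφ hr in
theorem fderiv_generator (q : R6) : fderiv ℝ φ q (G i q) = 0 := by
  have h1 := hasDerivAt_ROT (i := i) 0 q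
  rw [ROT_deriv hi, ROT_zero] at h1
  have h2 : HasFDerivAt φ (fderiv ℝ φ q) (ROT i 0 q) := by
    rw [ROT_zero]
    exact ((hφ.differentiable (by simp)) q).hasFDerivAt
  have h3 := h2.comp_hasDerivAt 0 h1
  have h4 : (φ ∘ fun s => ROT i s q) = fun _ => φ q := by
    funext s
    exact hr s q
  rw [h4] at h3
  exact h3.unique (hasDerivAt_const _ _)

include hi hφ hr in
theorem tw_det (t : ℝ) (q : R6) : ∃ D : R6 →L[ℝ] R6, HasFDerivAt (tw i φ t) D q ∧ |D.det| = 1 := by
  refine ⟨_, hasFDerivAt_tw hi hφ t q, ?_⟩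
  rw [det_comp', abs_mul, abs_det_ROT hi, one_mul, transvection_det, abs_one]
  rw [_root_.smul_apply, fderiv_generator hi hφ hr, smul_zero]

end Twist

end Pool.Agent.H5.NM
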